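import Pool.Agent.Lib.MP_29a61e_co.Sem

/-!
# Module BAD: two sides facing each other are not a missing pair
-/

set_option autoImplicit false

namespace Pool.Agent.Lib.MP29a61e

namespace BAD

theorem mate_cases {items : List (ℕ × ℕ × ℕ)} {i j : ℕ} (h : mate items i j = true) :
    2 ≤ j ∧ ((entry items i).2.1 = j ∨ (entry items i).2.2 = j) := by
  unfold mate at h
  rw [Bool.and_eq_true, Bool.or_eq_true] at h
  obtain ⟨h1, h2⟩ := h
  refine ⟨Nat.le_of_ble_eq_true h1, ?_⟩
  rcases h2 with h2 | h2
  · exact Or.inl (Nat.eq_of_beq_eq_true h2)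
  · exact Or.inr (Nat.eq_of_beq_eq_true h2)

theorem pair_infix {A B U V : List ℕ} {x y : ℕ} (hA : A.getLast? = some x)
    (hB : B.head? = some y) : [x, y] <:+: U ++ (A ++ (B ++ V)) := by
  obtain ⟨A', rfl⟩ := List.getLast?_eq_some_iff.1 hA
  obtain ⟨B', rfl⟩ := List.head?_eq_some_iff.1 hB
  exact ⟨U ++ A', B' ++ V, by simp⟩

theorem aux {N : ℕ} {w : List ℕ} {items : List (ℕ × ℕ × ℕ)} {ε : ℕ → ℕ}
    (hitem : ∀ i, 2 ≤ i → i < items.length → ItemOK N w items ε i)
    (hlow : ∀ i j, mate items i j = true → 2 ≤ i) :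
    ∀ (rest : List (ℕ × ℕ)) (a : ℕ × ℕ) (A : List ℕ) (Bs : List (List ℕ)) (U : List ℕ),
      SideOK N items.length ε a A → List.Forall₂ (SideOK N items.length ε) rest Bs →
      w = U ++ (A ++ Bs.flatten) → badS items a.2 rest = false := by
  intro rest
  induction rest with
  | nil => intro a A Bs U _ _ _; rfl
  | cons b rest ih =>
    intro a A Bs U hA hBs hw
    cases hBs with
    | @cons _ B _ Bs' hB hBs' =>
      have h1 : badS items a.2 (b :: rest) = (mate items a.2 b.1 || badS items b.2 rest) := rfl
      rw [h1, Bool.or_eq_false_iff]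
      constructor
      · by_contra hne
        have hm : mate items a.2 b.1 = true := by simpa using hne
        obtain ⟨h2, h3⟩ := mate_cases hm
        have h4 := hlow _ _ hm
        obtain ⟨h5, h6⟩ := hA.2.2.2.2.1 h4
        obtain ⟨h7, h8⟩ := hB.2.2.2.1 h2
        have h9 := hitem a.2 h4 h5
        have h10 : ε b.1 ∈ misSet N w (ε a.2) := by
          rcases h3 with h3 | h3
          · have := (h9.2.2.2.2.1 (by omega)).2.2
            rwa [h3] at this
          · have := (h9.2.2.2.2.2.1 (by omega)).2.2
            rwa [h3] at this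
        apply (mem_misSet.1 h10).2.2
        left
        rw [hw, List.flatten_cons]
        exact pair_infix h6 h8
      · refine ih b B Bs' (U ++ A) hB hBs' ?_
        rw [hw, List.flatten_cons]
        simp

end BAD

theorem specBAD : SpecBAD := by
  intro N w ε As s a rest _ hs hSem
  have hsides := hSem.sides
  rw [hs] at hsides
  have hflat := hSem.flat
  cases hsides with
  | @cons _ A _ Bs hA hBs =>
    refine BAD.aux hSem.item hSem.low rest a A Bs [] hA hBs ?_
    rw [← hflat, List.flatten_cons, List.nil_append]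

end Pool.Agent.Lib.MP29a61e
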