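import Pool.Agent.Lib.MP_29a61e_co.Defs

/-!
# MP_29a61e_co: words with frame, potential
-/

namespace Pool.Agent.Lib.MP29a61e

/-- `a` and `b` are neighbours in the word `w`. -/
def Nbr (w : List ℕ) (a b : ℕ) : Prop := [a, b] <:+: w ∨ [b, a] <:+: w

instance (w : List ℕ) (a b : ℕ) : Decidable (Nbr w a b) := by unfold Nbr; infer_instance

/-- The value neighbours of `x` in `{0,..,N}` that are not neighbours of `x` in `w`. -/
def misSet (N : ℕ) (w : List ℕ) (x : ℕ) : Finset ℕ :=
  (Finset.range (N + 1)).filter (fun y => (y = x + 1 ∨ x = y + 1) ∧ ¬ Nbr w x y)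

/-- The number of the value neighbours of `x` that are not neighbours of `x` in `w`. -/
def mis (N : ℕ) (w : List ℕ) (x : ℕ) : ℕ := (misSet N w x).card

/-- The weight of a letter with `0`, `1` or `2` missing neighbours. -/
def g (p q : ℕ) : ℕ → ℕ
  | 0 => 0
  | 1 => p
  | _ => q

/-- The potential of a word. -/
def Phi (p q N : ℕ) (w : List ℕ) : ℕ := ∑ x ∈ Finset.range (N + 1), g p q (mis N w x)

/-- The words `0 u N`, where `u` is a permutation of `1,..,N-1`. -/
def IsW (N : ℕ) (w : List ℕ) : Prop :=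
  (∃ u, w = 0 :: (u ++ [N])) ∧ w.Perm (List.range (N + 1))

/-- A cut-and-paste move on a word with frame, given by a decomposition `P X Y Q` of the word. -/
def WMove (w w' : List ℕ) : Prop :=
  ∃ P X Y Q : List ℕ, P ≠ [] ∧ X ≠ [] ∧ Q ≠ [] ∧ w = P ++ X ++ Y ++ Q ∧
    (w' = P ++ X.reverse ++ Y ++ Q ∨ w' = P ++ Y ++ X ++ Q ∨ w' = P ++ Y ++ X.reverse ++ Q ∨
      (Y ≠ [] ∧ w' = P ++ Y.reverse ++ X ++ Q))

/-- `w'` can be reached from `w` by `k` moves that do not touch the frame. -/
def WSteps : ℕ → List ℕ → List ℕ → Prop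
  | 0, w, w' => w = w'
  | k + 1, w, w' => ∃ u, WMove w u ∧ WSteps k u w'

theorem g_le {p q : ℕ} (hpq : p ≤ q) (k : ℕ) : g p q k ≤ q := by
  rcases k with _ | _ | k <;> simp [g, hpq]

theorem g_mono {p q : ℕ} (hpq : p ≤ q) {a b : ℕ} (h : a ≤ b) : g p q a ≤ g p q b := by
  rcases a with _ | _ | a <;> rcases b with _ | _ | b <;> simp [g] <;> omega

theorem Nbr.symm {w : List ℕ} {a b : ℕ} (h : Nbr w a b) : Nbr w b a := Or.symm h

theorem mem_misSet {N : ℕ} {w : List ℕ} {x y : ℕ} :
    y ∈ misSet N w x ↔ y ≤ N ∧ (y = x + 1 ∨ x = y + 1) ∧ ¬ Nbr w x y := by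
  simp [misSet]

theorem misSet_symm {N : ℕ} {w : List ℕ} {x y : ℕ} (hx : x ≤ N) (h : y ∈ misSet N w x) :
    x ∈ misSet N w y := by
  rw [mem_misSet] at h ⊢
  exact ⟨hx, h.2.1.symm, fun h' => h.2.2 h'.symm⟩

theorem misSet_subset_pair {N : ℕ} {w : List ℕ} {x : ℕ} : misSet N w x ⊆ {x + 1, x - 1} := by
  intro y hy
  rw [mem_misSet] at hy
  simp
  omega

theorem mis_le_two (N : ℕ) (w : List ℕ) (x : ℕ) : mis N w x ≤ 2 :=
  (Finset.card_le_card misSet_subset_pair).trans Finset.card_le_two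

theorem mis_zero_le (N : ℕ) (w : List ℕ) : mis N w 0 ≤ 1 := by
  have : misSet N w 0 ⊆ {1} := by
    intro y hy
    rw [mem_misSet] at hy
    simp
    omega
  exact (Finset.card_le_card this).trans (by simp)

theorem mis_last_le (N : ℕ) (w : List ℕ) : mis N w N ≤ 1 := by
  have : misSet N w N ⊆ {N - 1} := by
    intro y hy
    rw [mem_misSet] at hy
    simp
    omega
  exact (Finset.card_le_card this).trans (by simp)

/-- The potential is at most `q n + 2 p`, where `n = N - 1`. -/
theorem Phi_le {p q : ℕ} (hpq : p ≤ q) (n : ℕ) (w : List ℕ) :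
    Phi p q (n + 1) w ≤ q * n + 2 * p := by
  unfold Phi
  rw [Finset.sum_range_succ, Finset.sum_range_succ']
  have h1 : ∑ k ∈ Finset.range n, g p q (mis (n + 1) w (k + 1)) ≤ ∑ _k ∈ Finset.range n, q :=
    Finset.sum_le_sum fun k _ => g_le hpq _
  have h2 : g p q (mis (n + 1) w 0) ≤ p :=
    (g_mono hpq (mis_zero_le _ _)).trans (by simp [g])
  have h3 : g p q (mis (n + 1) w (n + 1)) ≤ p :=
    (g_mono hpq (mis_last_le _ _)).trans (by simp [g])
  simp at h1
  have h4 : n * q = q * n := Nat.mul_comm n q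
  omega

/-- A list that is `0 u N` and is cut into a nonempty first part and a nonempty last part. -/
theorem frame_split {N : ℕ} {u P R Q : List ℕ} (hP : P ≠ []) (hQ : Q ≠ [])
    (h : 0 :: (u ++ [N]) = P ++ R ++ Q) :
    ∃ P' Q', P = 0 :: P' ∧ Q = Q' ++ [N] ∧ u = P' ++ R ++ Q' := by
  obtain ⟨a, P', rfl⟩ := List.exists_cons_of_ne_nil hP
  obtain ⟨Q', b, rfl⟩ : ∃ Q' b, Q = Q' ++ [b] :=
    ⟨Q.dropLast, Q.getLast hQ, (List.dropLast_append_getLast hQ).symm⟩
  simp only [List.cons_append, List.cons.injEq] at h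
  obtain ⟨h1, h2⟩ := h
  rw [← List.append_assoc] at h2
  obtain ⟨h3, h4⟩ := List.append_inj' h2 rfl
  simp only [List.cons.injEq, and_true] at h4
  exact ⟨P', Q', by rw [h1], by rw [h4], h3⟩

/-- Moves on words with frame are moves on the inner words. -/
theorem WMove.exists_inner {N : ℕ} {u w' : List ℕ} (h : WMove (0 :: (u ++ [N])) w') :
    ∃ u', w' = 0 :: (u' ++ [N]) ∧ Move u u' := by
  obtain ⟨P, X, Y, Q, hP, hX, hQ, hw, hw'⟩ := h
  rw [List.append_assoc P X Y] at hw
  obtain ⟨P', Q', rfl, rfl, rfl⟩ := frame_split hP hQ hw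
  rcases hw' with h | h | h | ⟨hY, h⟩
  · refine ⟨P' ++ X.reverse ++ Y ++ Q', by rw [h]; simp, P', X, Y ++ Q', P', Y ++ Q', hX,
      by simp, rfl, Or.inr (by simp)⟩
  · refine ⟨P' ++ Y ++ X ++ Q', by rw [h]; simp, P', X, Y ++ Q', P' ++ Y, Q', hX,
      by simp, by simp, Or.inl (by simp)⟩
  · refine ⟨P' ++ Y ++ X.reverse ++ Q', by rw [h]; simp, P', X, Y ++ Q', P' ++ Y, Q', hX,
      by simp, by simp, Or.inr (by simp)⟩
  · refine ⟨P' ++ Y.reverse ++ X ++ Q', by rw [h]; simp, P' ++ X, Y, Q', P', X ++ Q', hY,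
      by simp, by simp, Or.inr (by simp)⟩

theorem WMove.perm {w w' : List ℕ} (h : WMove w w') : w.Perm w' := by
  obtain ⟨P, X, Y, Q, hP, hX, hQ, hw, hw'⟩ := h
  subst hw
  have hc : ∀ A B : List ℕ, A.Perm B → (P ++ A ++ Q).Perm (P ++ B ++ Q) := fun A B hAB =>
    (hAB.append_left P).append_right Q
  rcases hw' with h | h | h | ⟨hY, h⟩ <;> subst h
  · have := hc (X ++ Y) (X.reverse ++ Y) ((List.reverse_perm X).symm.append_right Y)
    simpa [List.append_assoc] using this
  · have := hc (X ++ Y) (Y ++ X) List.perm_append_comm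
    simpa [List.append_assoc] using this
  · have := hc (X ++ Y) (Y ++ X.reverse)
      (List.perm_append_comm.trans ((List.reverse_perm X).symm.append_left Y))
    simpa [List.append_assoc] using this
  · have := hc (X ++ Y) (Y.reverse ++ X)
      (List.perm_append_comm.trans ((List.reverse_perm Y).symm.append_right X))
    simpa [List.append_assoc] using this

theorem IsW.move {N : ℕ} {w w' : List ℕ} (hw : IsW N w) (h : WMove w w') : IsW N w' := by
  obtain ⟨⟨u, rfl⟩, hp⟩ := hw
  obtain ⟨u', rfl, -⟩ := h.exists_inner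
  exact ⟨⟨u', rfl⟩, h.perm.symm.trans hp⟩

theorem IsW.steps {N : ℕ} : ∀ (k : ℕ) {w w' : List ℕ}, IsW N w → WSteps k w w' → IsW N w'
  | 0, _, _, hw, h => by cases h; exact hw
  | k + 1, _, _, hw, h => by
    obtain ⟨u, hu, hk⟩ := h
    exact IsW.steps k (hw.move hu) hk

theorem WSteps.exists_inner {N : ℕ} : ∀ (k : ℕ) {u w' : List ℕ}, WSteps k (0 :: (u ++ [N])) w' →
    ∃ u', w' = 0 :: (u' ++ [N]) ∧ Steps k u u'
  | 0, u, _, h => ⟨u, by cases h; rfl, rfl⟩
  | k + 1, u, w', h => by
    obtain ⟨v, hv, hk⟩ := h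
    obtain ⟨u1, rfl, h1⟩ := hv.exists_inner
    obtain ⟨u', rfl, h2⟩ := WSteps.exists_inner k hk
    exact ⟨u', rfl, u1, h1, h2⟩

theorem WSteps.trans : ∀ (k : ℕ) {l : ℕ} {u v w : List ℕ}, WSteps k u v → WSteps l v w →
    WSteps (k + l) u w
  | 0, l, _, _, _, h, h' => by cases h; simpa using h'
  | k + 1, l, _, _, _, h, h' => by
    obtain ⟨z, hz, hk⟩ := h
    have := WSteps.trans k hk h'
    rw [show k + 1 + l = (k + l) + 1 by omega]
    exact ⟨z, hz, this⟩

theorem Move.of_map {α β : Type} (f : α → β) {u : List α} {v' : List β} (h : Move (u.map f) v') :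
    ∃ v, v' = v.map f ∧ Move u v := by
  obtain ⟨X, B, Y, U, V, hB, hw, hUV, h'⟩ := h
  rw [List.append_assoc] at hw
  obtain ⟨X₀, R, rfl, hX, hR⟩ := List.map_eq_append_iff.1 hw
  obtain ⟨B₀, Y₀, rfl, hB₀, hY⟩ := List.map_eq_append_iff.1 hR
  subst hX hB₀ hY
  rw [← List.map_append] at hUV
  obtain ⟨U₀, V₀, hUV₀, hU, hV⟩ := List.map_eq_append_iff.1 hUV
  subst hU hV
  have hB' : B₀ ≠ [] := by rintro rfl; exact hB rfl
  rcases h' with h' | h'
  · exact ⟨U₀ ++ B₀ ++ V₀, by simp [h'], X₀, B₀, Y₀, U₀, V₀, hB', by simp, hUV₀, Or.inl rfl⟩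
  · exact ⟨U₀ ++ B₀.reverse ++ V₀, by simp [h'], X₀, B₀, Y₀, U₀, V₀, hB', by simp, hUV₀,
      Or.inr rfl⟩

theorem Steps.of_map {α β : Type} (f : α → β) : ∀ (k : ℕ) {u : List α} {v' : List β},
    Steps k (u.map f) v' → ∃ v, v' = v.map f ∧ Steps k u v
  | 0, u, _, h => ⟨u, h.symm, rfl⟩
  | k + 1, u, v', h => by
    obtain ⟨z, hz, hk⟩ := h
    obtain ⟨z₀, rfl, hz₀⟩ := Move.of_map f hz
    obtain ⟨v, rfl, hv⟩ := Steps.of_map f k hk
    exact ⟨v, rfl, z₀, hz₀, hv⟩

/-- If each unsorted word can be improved, then each word can be sorted with few moves. -/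
theorem sort_of_step {p q C N : ℕ} (hC : 1 ≤ C) (step : ∀ w, IsW N w → w ≠ List.range (N + 1) →
    ∃ m w', 1 ≤ m ∧ WSteps m w w' ∧ Phi p q N w' + C * m ≤ Phi p q N w) :
    ∀ (B : ℕ) (w : List ℕ), IsW N w → Phi p q N w ≤ B →
      ∃ k, C * k ≤ Phi p q N w ∧ WSteps k w (List.range (N + 1)) := by
  intro B
  induction B using Nat.strong_induction_on with
  | _ B ih =>
    intro w hw hB
    by_cases hs : w = List.range (N + 1)
    · exact ⟨0, by simp, hs⟩
    · obtain ⟨m, w', hm, hmw, hphi⟩ := step w hw hs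
      have hCm : 1 ≤ C * m := Nat.mul_pos hC hm
      obtain ⟨k, hk, hkw⟩ := ih (Phi p q N w') (by omega) w' (IsW.steps m hw hmw) le_rfl
      exact ⟨m + k, by rw [Nat.mul_add]; omega, WSteps.trans m hmw hkw⟩

/-- The word with frame of a permutation. -/
theorem isW_perm {n : ℕ} (π : Equiv.Perm (Fin n)) :
    IsW (n + 1) (0 :: ((List.ofFn π).map (fun i => i.val + 1) ++ [n + 1])) := by
  refine ⟨⟨_, rfl⟩, ?_⟩
  have h1 : ((List.ofFn π).map (fun i => i.val + 1)).Perm ((List.range n).map (· + 1)) := by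
    have h2 : (List.ofFn π).Perm (List.finRange n) := by
      rw [List.ofFn_eq_map]
      exact Equiv.Perm.map_finRange_perm π
    have h3 := h2.map (fun i => i.val + 1)
    have h4 : (List.finRange n).map (fun i => i.val + 1) = (List.range n).map (· + 1) := by
      rw [← List.map_coe_finRange_eq_range, List.map_map]
      rfl
    rwa [h4] at h3
  have h5 : List.range (n + 1 + 1) = 0 :: ((List.range n).map (· + 1) ++ [n + 1]) := by
    rw [List.range_succ, List.range_succ_eq_map]
    simp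
  rw [h5]
  exact (h1.append_right [n + 1]).cons 0

theorem final {p q C : ℕ} (hpq : p ≤ q) (hC : 1 ≤ C)
    (step : ∀ (N : ℕ) (w : List ℕ), IsW N w → w ≠ List.range (N + 1) →
      ∃ m w', 1 ≤ m ∧ WSteps m w w' ∧ Phi p q N w' + C * m ≤ Phi p q N w)
    (n : ℕ) (π : Equiv.Perm (Fin n)) :
    ∃ k, C * k ≤ q * n + 2 * p ∧ Steps k (List.ofFn π) (List.finRange n) := by
  obtain ⟨k, hk, hkw⟩ := sort_of_step hC (step (n + 1)) _ _ (isW_perm π) le_rfl
  refine ⟨k, hk.trans (Phi_le hpq n _), ?_⟩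
  obtain ⟨u', hu', hs⟩ := WSteps.exists_inner k hkw
  obtain ⟨v, rfl, hv⟩ := Steps.of_map _ k hs
  have h5 : List.range (n + 1 + 1) = 0 :: ((List.finRange n).map (fun i => i.val + 1) ++ [n + 1]) := by
    have h4 : (List.finRange n).map (fun i => i.val + 1) = (List.range n).map (· + 1) := by
      rw [← List.map_coe_finRange_eq_range, List.map_map]
      rfl
    rw [h4, List.range_succ, List.range_succ_eq_map]
    simp
  rw [h5] at hu'
  simp only [List.cons.injEq, true_and] at hu'
  have h6 := (List.append_inj' hu' rfl).1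
  have h7 : List.finRange n = v := by
    apply List.map_injective_iff.2 _ h6
    intro a b hab
    simp only [add_left_inj] at hab
    exact Fin.ext hab
  rw [h7]
  exact hv

theorem final_M {p q C : ℕ} (hpq : p ≤ q) (hC : 1 ≤ C)
    (step : ∀ (N : ℕ) (w : List ℕ), IsW N w → w ≠ List.range (N + 1) →
      ∃ m w', 1 ≤ m ∧ WSteps m w w' ∧ Phi p q N w' + C * m ≤ Phi p q N w) (n : ℕ) :
    C * M n ≤ q * n + 2 * p := by
  have h : M n ≤ (q * n + 2 * p) / C := by
    unfold M
    refine Finset.sup_le fun π _ => ?_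
    obtain ⟨k, hk, hs⟩ := final hpq hC step n π
    have h1 : sortDist π ≤ k := Nat.sInf_le hs
    refine h1.trans ?_
    rw [Nat.le_div_iff_mul_le hC, Nat.mul_comm]
    exact hk
  calc C * M n ≤ C * ((q * n + 2 * p) / C) := Nat.mul_le_mul_left C h
    _ ≤ q * n + 2 * p := Nat.mul_div_le _ _

/-- The first breakpoint of an unsorted word. -/
theorem first_breakpoint {N : ℕ} {w : List ℕ} (hw : IsW N w) (hs : w ≠ List.range (N + 1)) :
    ∃ (v b : ℕ) (R : List ℕ), w = List.range (v + 1) ++ b :: R ∧ v + 1 < b ∧ v < N ∧ b ≤ N := by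
  obtain ⟨⟨u, hu⟩, hp⟩ := hw
  have hlen : w.length = N + 1 := by rw [hp.length_eq, List.length_range]
  have hmem : ∀ x, x ∈ w ↔ x < N + 1 := fun x => by rw [hp.mem_iff, List.mem_range]
  have hnd : w.Nodup := hp.nodup_iff.2 List.nodup_range
  -- the longest sorted prefix
  have key : ∀ k, k ≤ N + 1 → (∃ R, w = List.range k ++ R) ∨
      ∃ (v b : ℕ) (R : List ℕ), w = List.range (v + 1) ++ b :: R ∧ v + 1 < b ∧ v < N ∧ b ≤ N := by
    intro k
    induction k with
    | zero => exact fun _ => Or.inl ⟨w, by simp⟩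
    | succ k ih =>
      intro hk
      rcases ih (by omega) with ⟨R, hR⟩ | h
      · have hRlen : R.length = N + 1 - k := by
          have := congrArg List.length hR
          rw [List.length_append, List.length_range, hlen] at this
          omega
        obtain ⟨b, R', rfl⟩ : ∃ b R', R = b :: R' := by
          cases R with
          | nil => simp at hRlen; omega
          | cons b R' => exact ⟨b, R', rfl⟩
        have hb : b < N + 1 := (hmem b).1 (by rw [hR]; simp)
        have hbk : k ≤ b := by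
          by_contra hlt
          push Not at hlt
          rw [hR] at hnd
          have := List.disjoint_of_nodup_append hnd (List.mem_range.2 hlt)
          exact this (by simp)
        rcases Nat.eq_or_lt_of_le hbk with h | h
        · left
          exact ⟨R', by rw [hR, List.range_succ, h]; simp⟩
        · rcases k with _ | v
          · exfalso
            rw [hu] at hR
            simp at hR
            omega
          · right
            exact ⟨v, b, R', hR, h, by omega, by omega⟩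
      · exact Or.inr h
  rcases key (N + 1) le_rfl with ⟨R, hR⟩ | h
  · exfalso
    have hRlen := congrArg List.length hR
    rw [List.length_append, List.length_range, hlen] at hRlen
    have : R = [] := List.eq_nil_of_length_eq_zero (by omega)
    rw [this, List.append_nil] at hR
    exact hs hR
  · exact h

end Pool.Agent.Lib.MP29a61e
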