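import Pool.Agent.Lib.MP_29a61e_co.Base

/-!
# MP_29a61e_co: the checker

States, queries, leaves and the stack machine of the finite proof. Only computable definitions; the
semantics is in `Sem.lean`.

A word `w = 0 u N` is cut at some of its breakpoints into arcs `A_0, …, A_K` (not empty). A state is
the list of the arc records `(l, r)` and the table of the items. Side values: `0` = side of the frame
(no information), `1` = unknown, `k ≥ 2` = the first (last) letter of the arc is the item `k`;
`l = r ≥ 2`: the arc has one letter, the item `l`. The entry `(t, a, b)` of the item `k` in the table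
(index `k`, two dummy entries at the beginning): the letter has `t` missing neighbours, of which the
items `a` and `b` are known (if they are not `0`).
-/

set_option autoImplicit false

namespace Pool.Agent.Lib.MP29a61e

/-- the table entry of an item -/
def entry (items : List (ℕ × ℕ × ℕ)) (i : ℕ) : ℕ × ℕ × ℕ := items.getD i (0, 0, 0)

/-- `j` is a known missing neighbour of `i` -/
def mate (items : List (ℕ × ℕ × ℕ)) (i j : ℕ) : Bool :=
  (Nat.ble 2 j) && ((Nat.beq (entry items i).2.1 j) || (Nat.beq (entry items i).2.2 j))

/-- the item `i` has a missing neighbour that is not known -/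
def slot (items : List (ℕ × ℕ × ℕ)) (i : ℕ) : Bool :=
  cond (Nat.beq (entry items i).1 1) (Nat.beq (entry items i).2.1 0)
    ((Nat.beq (entry items i).2.1 0) || (Nat.beq (entry items i).2.2 0))

/-- record the missing neighbour `j` in the entry of `i` -/
def addM : List (ℕ × ℕ × ℕ) → ℕ → ℕ → List (ℕ × ℕ × ℕ)
  | [], _, _ => []
  | (t, a, b) :: l, 0, j => (cond (Nat.beq a 0) (t, j, b) (t, a, j)) :: l
  | x :: l, i + 1, j => x :: addM l i j

/-- record the missing pair `i, j` -/
def link (items : List (ℕ × ℕ × ℕ)) (i j : ℕ) : List (ℕ × ℕ × ℕ) := addM (addM items i j) j i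

/-- the possibilities for a letter with a missing neighbour, not an item, in one arc: the number of
its missing neighbours and the new arcs, `k` the new item. `conv = true`: the breakpoint to its right
is preferred. -/
def one (conv : Bool) (k l r : ℕ) : List (ℕ × List (ℕ × ℕ)) :=
  cond ((Nat.ble 2 l) && (Nat.beq l r)) []
    (cond conv
      ((cond (Nat.beq r 1) [(1, [(l, k)]), (2, [(l, k)])] []) ++
        ((1, [(l, k), (1, r)]) :: (2, [(l, k), (1, r)]) ::
          ((cond (Nat.beq l 1) [(1, [(k, r)])] []) ++ [(1, [(l, 1), (k, r)])])))
      ((cond (Nat.beq l 1) [(1, [(k, r)]), (2, [(k, r)])] []) ++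
        ((1, [(l, 1), (k, r)]) :: (2, [(l, 1), (k, r)]) ::
          ((cond (Nat.beq r 1) [(1, [(l, k)])] []) ++ [(1, [(l, k), (1, r)])]))))

/-- the possibilities in a list of arcs -/
def locA (conv : Bool) (k : ℕ) : List (ℕ × ℕ) → List (ℕ × List (ℕ × ℕ))
  | [] => []
  | (l, r) :: rest =>
    (one conv k l r).map (fun x => (x.1, x.2 ++ rest)) ++
      (locA conv k rest).map (fun x => (x.1, (l, r) :: x.2))

/-- the item `i` is at a side of an arc of the list -/
def inA (arcs : List (ℕ × ℕ)) (i : ℕ) : Bool := arcs.any (fun a => (Nat.beq a.1 i) || (Nat.beq a.2 i))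

/-- a state -/
structure St where
  /-- the arcs -/
  arcs : List (ℕ × ℕ)
  /-- the items -/
  items : List (ℕ × ℕ × ℕ)

/-- the answers to the question for the missing neighbour of the item `i`, among the items -/
def exist (items : List (ℕ × ℕ × ℕ)) (i : ℕ) (bad : ℕ → Bool) : List (List (ℕ × ℕ × ℕ)) :=
  ((List.range items.length).filter (fun j => (Nat.ble 2 j) && !(Nat.beq j i) && !(mate items i j) &&
    (slot items j) && !(bad j))).map (fun j => link items i j)

/-- the possibilities for the outer end of a missing pair with inner end `i` (the arcs are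
`a, pre, mid, post`; the outer end is not in `mid`) -/
def outer (conv : Bool) (i : ℕ) (a : ℕ × ℕ) (pre mid post : List (ℕ × ℕ)) (items : List (ℕ × ℕ × ℕ)) :
    List St :=
  (exist items i (fun j => inA mid j)).map (fun t => ⟨a :: pre ++ mid ++ post, t⟩) ++
    ((locA conv items.length pre).map (fun x =>
      ⟨a :: x.2 ++ mid ++ post, link (items ++ [(x.1, 0, 0)]) i items.length⟩) ++
    (locA conv items.length post).map (fun x =>
      ⟨a :: pre ++ mid ++ x.2, link (items ++ [(x.1, 0, 0)]) i items.length⟩))

/-- the question for a missing neighbour of the item `i` -/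
def qPartner (s : St) (i : ℕ) (conv : Bool) : Option (List St) :=
  match s.arcs with
  | [] => none
  | a :: rest =>
    cond ((Nat.ble 2 i) && (Nat.blt i s.items.length) && (slot s.items i))
      (some (outer conv i a rest [] [] s.items))
      none

/-- the question for the type of an unknown side -/
def qType (s : St) (a : ℕ) (right : Bool) : Option (List St) :=
  match s.arcs.drop a with
  | [] => none
  | (l, r) :: rest =>
    let k := s.items.length
    cond right
      (cond (Nat.beq r 1)
        (some (⟨s.arcs.take a ++ (l, k) :: rest, s.items ++ [(1, 0, 0)]⟩ ::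
          ⟨s.arcs.take a ++ (l, k) :: rest, s.items ++ [(2, 0, 0)]⟩ ::
          (cond ((Nat.ble 2 l) && (Nat.beq (entry s.items l).1 2))
            [⟨s.arcs.take a ++ (l, l) :: rest, s.items⟩] [])))
        none)
      (cond (Nat.beq l 1)
        (some (⟨s.arcs.take a ++ (k, r) :: rest, s.items ++ [(1, 0, 0)]⟩ ::
          ⟨s.arcs.take a ++ (k, r) :: rest, s.items ++ [(2, 0, 0)]⟩ ::
          (cond ((Nat.ble 2 r) && (Nat.beq (entry s.items r).1 2))
            [⟨s.arcs.take a ++ (r, r) :: rest, s.items⟩] [])))
        none)

/-- the question for the other side of an item with two missing neighbours -/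
def qFull (s : St) (a : ℕ) (right : Bool) : Option (List St) :=
  match s.arcs.drop a with
  | [] => none
  | (l, r) :: rest =>
    cond right
      (cond ((Nat.ble 2 r) && (Nat.beq (entry s.items r).1 2) && !(Nat.beq l r))
        (some ((cond (Nat.beq l 1) [⟨s.arcs.take a ++ (r, r) :: rest, s.items⟩] []) ++
          [⟨s.arcs.take a ++ (l, 1) :: (r, r) :: rest, s.items⟩]))
        none)
      (cond ((Nat.ble 2 l) && (Nat.beq (entry s.items l).1 2) && !(Nat.beq l r))
        (some ((cond (Nat.beq r 1) [⟨s.arcs.take a ++ (l, l) :: rest, s.items⟩] []) ++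
          [⟨s.arcs.take a ++ (l, l) :: (1, r) :: rest, s.items⟩]))
        none)

/-- the known missing pairs `(i, j)` where `i` is not seen outside and `j` is not seen inside -/
def cross (out inn : List (ℕ × ℕ)) (items : List (ℕ × ℕ × ℕ)) : List (ℕ × ℕ) :=
  ((List.range items.length).filter (fun i => (Nat.ble 2 i) && !(inA out i))).flatMap (fun i =>
    ((List.range items.length).filter (fun j => (mate items i j) && !(inA inn j))).map (fun j => (i, j)))

/-- the question for an unknown missing pair with exactly one letter in the arcs `lo, …, lo + n - 1`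
(the arcs are `a, pre, mid, post`) -/
def qX (s : St) (lo n : ℕ) (conv : Bool) : Option (List St) :=
  match s.arcs with
  | [] => none
  | a :: rest =>
    let pre := rest.take lo
    let mid := (rest.drop lo).take n
    let post := (rest.drop lo).drop n
    cond (!mid.isEmpty && !post.isEmpty && (Nat.ble (cross (a :: pre ++ post) mid s.items).length 1))
      (some (((List.range s.items.length).filter (fun i => (Nat.ble 2 i) && (slot s.items i) &&
          !(inA (a :: pre ++ post) i))).flatMap (fun i => outer conv i a pre mid post s.items) ++
        (locA conv s.items.length mid).flatMap (fun x =>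
          outer conv s.items.length a pre x.2 post (s.items ++ [(x.1, 0, 0)]))))
      none

/-- two sides facing each other are a missing pair: impossible -/
def badS (items : List (ℕ × ℕ × ℕ)) : ℕ → List (ℕ × ℕ) → Bool
  | _, [] => false
  | r, (l, r') :: rest => (mate items r l) || (badS items r' rest)

/-- the reversed list of arcs -/
def revA (x : List (ℕ × ℕ)) : List (ℕ × ℕ) := (x.map (fun a => (a.2, a.1))).reverse

/-- a move on a list of arcs: `none` if it is not allowed -/
def mvA (L : List (ℕ × ℕ)) (m : ℕ) : Option (List (ℕ × ℕ)) :=
  let i := m % 16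
  let a := (m / 16) % 16
  let b := (m / 256) % 16
  let t := m / 4096
  let P := L.take i
  let X := (L.drop i).take a
  let Y := ((L.drop i).drop a).take b
  let Q := ((L.drop i).drop a).drop b
  cond (!P.isEmpty && !X.isEmpty && !Q.isEmpty && (Nat.ble t 3) && ((Nat.ble t 2) || !Y.isEmpty))
    (some (P ++ (cond (Nat.beq t 0) (revA X ++ Y)
      (cond (Nat.beq t 1) (Y ++ X) (cond (Nat.beq t 2) (Y ++ revA X) (revA Y ++ X)))) ++ Q))
    none

/-- several moves -/
def mvs : List ℕ → List (ℕ × ℕ) → Option (List (ℕ × ℕ))
  | [], L => some L
  | m :: ms, L => match mvA L m with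
    | none => none
    | some L' => mvs ms L'

/-- the drop of the potential at a letter with `t` missing neighbours, one new join -/
def d1 (p q t : ℕ) : ℕ := cond (Nat.beq t 1) p (q - p)

/-- the drop of the potential in an arc -/
def dArc (p q : ℕ) (items : List (ℕ × ℕ × ℕ)) (l r : ℕ) (x y : Bool) : ℕ :=
  cond ((Nat.ble 2 l) && (Nat.beq l r))
    (cond (x && y) (cond (Nat.beq (entry items l).1 1) p q) (cond (x || y) (d1 p q (entry items l).1) 0))
    ((cond x (d1 p q (entry items l).1) 0) + (cond y (d1 p q (entry items r).1) 0))

/-- the drop of the potential in a list of arcs; `x`: the left side of the first arc is glued -/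
def dArcs (p q : ℕ) (items : List (ℕ × ℕ × ℕ)) : Bool → List (ℕ × ℕ) → ℕ
  | _, [] => 0
  | x, [a] => dArc p q items a.1 a.2 x false
  | x, a :: b :: rest =>
    dArc p q items a.1 a.2 x (mate items a.2 b.1) + dArcs p q items (mate items a.2 b.1) (b :: rest)

/-- the leaf condition -/
def leafOK (p q c : ℕ) (s : St) (ms : List ℕ) : Bool :=
  match mvs ms s.arcs with
  | none => false
  | some L => !ms.isEmpty && (Nat.ble (c * ms.length) (dArcs p q s.items false L))

/-- decode the moves of a leaf -/
def decM : ℕ → ℕ → List ℕ
  | 0, _ => []
  | f + 1, n => cond (Nat.beq n 0) [] ((n % 65536) :: decM f (n / 65536))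

/-- equality of states -/
def eqS (s t : St) : Bool := s.arcs == t.arcs && s.items == t.items

/-- the children of a state for a query code -/
def kids (s : St) (n : ℕ) : Option (List St) :=
  let tag := n % 8
  let m := n / 8
  let u := m % 32
  let v := (m / 32) % 32
  let conv := Nat.beq (m / 1024) 1
  cond (Nat.beq tag 2) (qPartner s u conv)
    (cond (Nat.beq tag 3) (qType s u conv)
      (cond (Nat.beq tag 4) (qFull s u conv)
        (cond (Nat.beq tag 5) (qX s u v conv) none)))

/-- The stack machine. Codes: tag `0` leaf with moves, `1` impossible, `6` reference to a state of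
the list `refs`, otherwise a query. -/
def run (p q c : ℕ) (refs : List St) : List ℕ → List St → Bool
  | [], [] => true
  | [], _ :: _ => false
  | _ :: _, [] => false
  | n :: cert, s :: ss =>
    cond (Nat.beq (n % 8) 0) ((leafOK p q c s (decM 8 (n / 8))) && run p q c refs cert ss)
      (cond (Nat.beq (n % 8) 1)
        ((match s.arcs with
          | [] => false
          | a :: rest => badS s.items a.2 rest) && run p q c refs cert ss)
        (cond (Nat.beq (n % 8) 6)
          ((match refs[n / 8]? with
            | none => false
            | some t => eqS s t) && run p q c refs cert ss)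
          (match kids s n with
            | none => false
            | some l => run p q c refs cert (l ++ ss))))

/-- the first state -/
def root : St := ⟨[(0, 2), (1, 0)], [(0, 0, 0), (0, 0, 0), (1, 0, 0)]⟩

end Pool.Agent.Lib.MP29a61e
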