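import Mathlib

/-!
# MP_29a61e_co: cut-and-paste sorting of permutations: definitions
-/

namespace Pool.Agent.Lib.MP29a61e

/-- A cut-and-paste move: a nonempty contiguous block `B` of the word `w` is removed, and it is
inserted, in its original order or reversed, at any position of the remaining word. -/
def Move {α : Type} (w w' : List α) : Prop :=
  ∃ X B Y U V : List α, B ≠ [] ∧ w = X ++ B ++ Y ∧ X ++ Y = U ++ V ∧
    (w' = U ++ B ++ V ∨ w' = U ++ B.reverse ++ V)

/-- `Steps k w w'`: the word `w'` can be reached from the word `w` by `k` moves. -/
def Steps {α : Type} : ℕ → List α → List α → Prop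
  | 0, w, w' => w = w'
  | k + 1, w, w' => ∃ u, Move w u ∧ Steps k u w'

/-- The least number of moves that transform the permutation `π` of `{0,..,n-1}`, written in word
form, into the identity word. -/
noncomputable def sortDist {n : ℕ} (π : Equiv.Perm (Fin n)) : ℕ :=
  sInf {k | Steps k (List.ofFn π) (List.finRange n)}

/-- The largest number of moves needed to sort a permutation of `n` letters. -/
noncomputable def M (n : ℕ) : ℕ := Finset.univ.sup (fun π : Equiv.Perm (Fin n) => sortDist π)

end Pool.Agent.Lib.MP29a61e
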