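import Pool.Agent.Lib.MP_29a61e_co.Sem

/-!
# EDG: two consecutive letters that are not value neighbours have missing neighbours
-/

set_option autoImplicit false

namespace Pool.Agent.Lib.MP29a61e

namespace EDG

theorem infix2 {w : List ℕ} {x y : ℕ} :
    [x, y] <:+: w ↔ ∃ i, w[i]? = some x ∧ w[i + 1]? = some y := by
  constructor
  · rintro ⟨U, V, rfl⟩
    refine ⟨U.length, ?_, ?_⟩
    · simp
    · simp
  · rintro ⟨i, hx, hy⟩
    obtain ⟨h1, rfl⟩ := List.getElem?_eq_some_iff.1 hx
    obtain ⟨h2, rfl⟩ := List.getElem?_eq_some_iff.1 hy
    refine ⟨w.take i, w.drop (i + 2), ?_⟩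
    have h3 : w.drop i = w[i] :: w[i + 1] :: w.drop (i + 2) := by
      rw [List.drop_eq_getElem_cons h1, List.drop_eq_getElem_cons h2]
    calc w.take i ++ [w[i], w[i + 1]] ++ w.drop (i + 2) = w.take i ++ w.drop i := by
          rw [h3]; simp
      _ = w := List.take_append_drop i w

/-- positions are unique -/
theorem pos_inj {w : List ℕ} (hw : w.Nodup) {i j x : ℕ} (hi : w[i]? = some x) (hj : w[j]? = some x) :
    i = j := by
  obtain ⟨h1, h2⟩ := List.getElem?_eq_some_iff.1 hi
  obtain ⟨h3, h4⟩ := List.getElem?_eq_some_iff.1 hj
  exact (List.Nodup.getElem_inj_iff hw).1 (h2.trans h4.symm)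

/-- the neighbours of the letter at a position -/
theorem nbr_pos {w : List ℕ} (hw : w.Nodup) {i x z : ℕ} (hi : w[i]? = some x) (h : Nbr w x z) :
    w[i + 1]? = some z ∨ ∃ k, i = k + 1 ∧ w[k]? = some z := by
  rcases h with h | h
  · obtain ⟨j, h1, h2⟩ := infix2.1 h
    rw [pos_inj hw hi h1]
    exact Or.inl h2
  · obtain ⟨j, h1, h2⟩ := infix2.1 h
    exact Or.inr ⟨j, pos_inj hw hi h2, h1⟩

theorem mis_pos {N : ℕ} {w : List ℕ} {x z : ℕ} (hz : z ≤ N) (hv : z = x + 1 ∨ x = z + 1)
    (hn : ¬ Nbr w x z) : 1 ≤ mis N w x :=
  Finset.card_pos.2 ⟨z, mem_misSet.2 ⟨hz, hv, hn⟩⟩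

end EDG

open EDG in
theorem specEDG : SpecEDG := by
  intro N w hw x y hxy hv
  obtain ⟨⟨u, hu⟩, hp⟩ := hw
  have hnd : w.Nodup := hp.nodup_iff.2 List.nodup_range
  have hlen : w.length = N + 1 := by rw [hp.length_eq, List.length_range]
  have hmem : ∀ {z i : ℕ}, w[i]? = some z → z ≤ N := by
    intro z i h
    have h1 : z ∈ w := List.mem_of_getElem? h
    rw [hp.mem_iff, List.mem_range] at h1
    omega
  have h0 : w[0]? = some 0 := by rw [hu]; rfl
  have hN : w[N]? = some N := by
    have h1 : (0 :: u).length = N := by
      have h3 := hlen
      rw [hu] at h3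
      simp only [List.length_cons, List.length_append, List.length_nil] at h3
      simp only [List.length_cons]
      omega
    have h2 : w = (0 :: u) ++ [N] := by rw [hu]; rfl
    rw [h2]
    conv_lhs => rw [← h1]
    simp
    simpa using h1
  obtain ⟨i, hx, hy⟩ := infix2.1 hxy
  have hi1 : i + 1 < w.length := (List.getElem?_eq_some_iff.1 hy).1
  have hxN := hmem hx
  have hyN := hmem hy
  unfold VN at hv
  push Not at hv
  constructor
  · by_cases hx0 : x = 0
    · subst hx0
      have hi : i = 0 := pos_inj hnd hx h0
      refine mis_pos (z := 1) (by omega) (Or.inl rfl) fun hn => ?_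
      rcases nbr_pos hnd hx hn with h | ⟨k, hk, -⟩
      · rw [hy] at h
        have := Option.some.inj h
        omega
      · omega
    · by_cases hxl : x = N
      · subst hxl
        have hi : i = x := pos_inj hnd hx hN
        omega
      · by_contra hcon
        have h1 : Nbr w x (x + 1) := by
          by_contra hn
          exact hcon (mis_pos (z := x + 1) (by omega) (Or.inl rfl) hn)
        have h2 : Nbr w x (x - 1) := by
          by_contra hn
          exact hcon (mis_pos (z := x - 1) (by omega) (Or.inr (by omega)) hn)
        rcases nbr_pos hnd hx h1 with h | ⟨k, hk, hk1⟩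
        · rw [hy] at h
          have := Option.some.inj h
          omega
        · rcases nbr_pos hnd hx h2 with h | ⟨k', hk', hk1'⟩
          · rw [hy] at h
            have := Option.some.inj h
            omega
          · have hkk : k = k' := by omega
            subst hkk
            rw [hk1] at hk1'
            have := Option.some.inj hk1'
            omega
  · by_cases hy0 : y = 0
    · subst hy0
      have hi : i + 1 = 0 := pos_inj hnd hy h0
      omega
    · by_cases hyl : y = N
      · subst hyl
        have hi : i + 1 = y := pos_inj hnd hy hN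
        refine mis_pos (z := y - 1) (by omega) (Or.inr (by omega)) fun hn => ?_
        rcases nbr_pos hnd hy hn with h | ⟨k, hk, hk1⟩
        · have := (List.getElem?_eq_some_iff.1 h).1
          omega
        · have hki : k = i := by omega
          subst hki
          rw [hx] at hk1
          have := Option.some.inj hk1
          omega
      · by_contra hcon
        have h1 : Nbr w y (y + 1) := by
          by_contra hn
          exact hcon (mis_pos (z := y + 1) (by omega) (Or.inl rfl) hn)
        have h2 : Nbr w y (y - 1) := by
          by_contra hn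
          exact hcon (mis_pos (z := y - 1) (by omega) (Or.inr (by omega)) hn)
        rcases nbr_pos hnd hy h1 with h | ⟨k, hk, hk1⟩
        · rcases nbr_pos hnd hy h2 with h' | ⟨k', hk', hk1'⟩
          · rw [h] at h'
            have := Option.some.inj h'
            omega
          · have hki : k' = i := by omega
            subst hki
            rw [hx] at hk1'
            have := Option.some.inj hk1'
            omega
        · have hki : k = i := by omega
          subst hki
          rw [hx] at hk1
          have := Option.some.inj hk1
          omega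

end Pool.Agent.Lib.MP29a61e
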