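import Pool.Agent.Lib.MP_29a61e_co.INS

/-!
# MP_29a61e_co: the query for the other side (FUL)
-/

set_option autoImplicit false

namespace Pool.Agent.Lib.MP29a61e

namespace FUL

open GLUE INS

theorem notVN {N : ℕ} {w : List ℕ} {x y : ℕ} (h2 : mis N w x = 2) (hn : Nbr w x y) :
    ¬ VN x y := by
  intro hv
  have h1 : misSet N w x ⊆ ({x + 1, x - 1} : Finset ℕ).erase y := by
    intro z hz
    rw [Finset.mem_erase]
    refine ⟨?_, misSet_subset_pair hz⟩
    rintro rfl
    rw [mem_misSet] at hz
    exact hz.2.2 hn
  have h3 := Finset.card_le_card h1
  have hy : y ∈ ({x + 1, x - 1} : Finset ℕ) := by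
    rcases hv with hv | hv
    · rw [hv]; simp
    · have : y = x - 1 := by omega
      rw [this]; simp
  have h4 : (({x + 1, x - 1} : Finset ℕ).erase y).card < ({x + 1, x - 1} : Finset ℕ).card :=
    Finset.card_erase_lt_of_mem hy
  have h5 : ({x + 1, x - 1} : Finset ℕ).card ≤ 2 := Finset.card_le_two
  unfold mis at h2
  omega

theorem one_step {N : ℕ} {w : List ℕ} {s : St} {ε : ℕ → ℕ} {P rest M' : List (ℕ × ℕ)} {l r : ℕ}
    {AP AR AM' : List (List ℕ)} {A : List ℕ} (hS : Sem N w s ε (AP ++ [A] ++ AR))
    (harcs : s.arcs = P ++ [(l, r)] ++ rest)
    (hP : List.Forall₂ (SideOK N s.items.length ε) P AP)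
    (hA : SideOK N s.items.length ε (l, r) A)
    (hR : List.Forall₂ (SideOK N s.items.length ε) rest AR)
    (hM' : List.Forall₂ (SideOK N s.items.length ε) M' AM') (hflat : AM'.flatten = A)
    (hc : AM'.IsChain Brk) (h1 : P = [] → ∀ a ∈ M'.head?, a.1 = 0)
    (h2 : rest = [] → ∀ a ∈ M'.getLast?, a.2 = 0)
    (hocc : ∀ i, 2 ≤ i → l = i ∨ r = i → inA M' i = true) :
    Sem N w ⟨P ++ M' ++ rest, s.items⟩ ε (AP ++ AM' ++ AR) := by
  have hT := toArc hS
  rw [harcs] at hT
  have hArc : ArcSem N w s.items.length ε (P ++ M' ++ rest) (AP ++ AM' ++ AR) := by
    refine ArcSem.replace hT hP (List.Forall₂.cons hA List.Forall₂.nil) hR hS.three le_rfl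
      (fun _ _ => rfl) hM' (by rw [hflat, List.flatten_singleton]) (by simp) hc h1 h2 ?_
    intro hP0 A' hA' x hx hm
    subst hP0
    have hAP : AP = [] := List.forall₂_nil_left_iff.1 hP
    subst hAP
    refine hS.first A (by simp) x ?_ hm
    rw [← hflat]
    exact List.mem_flatten.2 ⟨A', List.mem_of_mem_head? hA', hx⟩
  refine ⟨hS.three, hArc.flat, hArc.sides, hArc.brk, hArc.fst, hArc.lst, hArc.first, hS.inj,
    hS.item, hS.sym, ?_, hS.low⟩
  intro i hi2 hi
  have ho := hS.occ i hi2 hi
  change inA (P ++ M' ++ rest) i = true
  rw [harcs, inA_app, inA_app] at ho
  rw [inA_app, inA_app]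
  rcases ho with (ho | ho) | ho
  · exact Or.inl (Or.inl ho)
  · refine Or.inl (Or.inr (hocc i hi2 ?_))
    unfold inA at ho
    simp only [List.any_cons, List.any_nil, Bool.or_false, Bool.or_eq_true, Nat.beq_eq] at ho
    exact ho
  · exact Or.inr ho

theorem seen {l r i : ℕ} {M : List (ℕ × ℕ)} (h : l = i ∨ r = i) : inA ((l, r) :: M) i = true := by
  unfold inA
  simp only [List.any_cons, Bool.or_eq_true, Nat.beq_eq]
  exact Or.inl h

theorem seen' {a : ℕ × ℕ} {i : ℕ} {M : List (ℕ × ℕ)} (h : inA M i = true) :
    inA (a :: M) i = true := by
  unfold inA at h ⊢
  rw [List.any_cons, Bool.or_eq_true]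
  exact Or.inr h

end FUL

open GLUE INS FUL in
theorem specFUL : SpecFUL := by
  intro N w ε As s a right L hW hS hq
  unfold qFull at hq
  cases hd : s.arcs.drop a with
  | nil => rw [hd] at hq; simp at hq
  | cons b rest =>
    obtain ⟨l, r⟩ := b
    rw [hd] at hq
    have harcs : s.arcs = s.arcs.take a ++ [(l, r)] ++ rest := by
      rw [List.append_assoc, List.singleton_append, ← hd, List.take_append_drop]
    generalize s.arcs.take a = P at hq harcs
    have hsides : List.Forall₂ (SideOK N s.items.length ε) (P ++ [(l, r)] ++ rest) As := by
      rw [← harcs]; exact hS.sides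
    obtain ⟨AX, AR, rfl, hX, hR⟩ := GLUE.split hsides
    obtain ⟨AP, A1, rfl, hP, h1⟩ := GLUE.split hX
    obtain ⟨A, A2, hA, h2, rfl⟩ := List.forall₂_cons_left_iff.1 h1
    rw [List.forall₂_nil_left_iff] at h2
    subst h2
    have hw : w = AP.flatten ++ A ++ AR.flatten := by
      have := hS.flat
      rw [List.flatten_append, List.flatten_append, List.flatten_singleton] at this
      exact this.symm
    have hfst : P = [] → l = 0 := by
      rintro rfl
      have := hS.fst (l, r)
      rw [harcs] at this
      exact this (by simp)
    have hlst : rest = [] → r = 0 := by
      rintro rfl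
      have := hS.lst (l, r)
      rw [harcs] at this
      exact this (by simp)
    obtain ⟨hA0, hAl0, hAr0, hAl, hAr, hAe⟩ := hA
    have hAall : SideOK N s.items.length ε (l, r) A := ⟨hA0, hAl0, hAr0, hAl, hAr, hAe⟩
    simp only at hAl0 hAr0 hAl hAr hAe
    cases right with
    | false =>
      dsimp only at hq
      simp only [cond_false] at hq
      cases hcnd : (Nat.ble 2 l && Nat.beq (entry s.items l).1 2 && !(Nat.beq l r)) with
      | false => rw [hcnd] at hq; simp at hq
      | true =>
        rw [hcnd, cond_true, Option.some.injEq] at hq
        rw [Bool.and_eq_true, Bool.and_eq_true, Nat.ble_eq, Nat.beq_eq, Bool.not_eq_true',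
          ← Bool.not_eq_true, Nat.beq_eq] at hcnd
        obtain ⟨⟨hl2, hent⟩, hlr⟩ := hcnd
        obtain ⟨hln, hhead⟩ := hAl hl2
        have hmis : mis N w (ε l) = 2 := by rw [(hS.item l hl2 hln).2.1, hent]
        have hPne : P ≠ [] := fun h => by have := hfst h; omega
        obtain ⟨c0, C, rfl⟩ := List.exists_cons_of_ne_nil hA0
        rw [List.head?_cons, Option.some.injEq] at hhead
        subst hhead
        cases C with
        | nil =>
          have hr2 : ¬ 2 ≤ r := by
            intro h
            obtain ⟨hrn, hlast⟩ := hAr h
            rw [List.getLast?_singleton, Option.some.injEq] at hlast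
            exact hlr (hS.inj l r hl2 hln h hrn hlast)
          have hr0 : r ≠ 0 := by
            intro h
            have := hAr0 h
            rw [List.getLast?_singleton, Option.some.injEq] at this
            rw [this] at hmis
            have := mis_last_le N w
            omega
          have hr1 : r = 1 := by omega
          subst hr1
          refine ⟨⟨P ++ (l, l) :: rest, s.items⟩, ?_, ε, AP ++ [[ε l]] ++ AR, ?_⟩
          · rw [← hq]
            simp
          · have e : P ++ (l, l) :: rest = P ++ [(l, l)] ++ rest := by simp
            rw [e]
            refine one_step hS harcs hP hAall hR ?_ (by simp) (List.IsChain.singleton _)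
              (fun h => absurd h hPne) (fun h => by have := hlst h; omega) ?_
            · refine List.Forall₂.cons ?_ List.Forall₂.nil
              refine ⟨by simp, ?_, ?_, ?_, ?_, fun _ _ => rfl⟩
              · intro h; change l = 0 at h; omega
              · intro h; change l = 0 at h; omega
              · intro _; exact ⟨hln, rfl⟩
              · intro _; exact ⟨hln, rfl⟩
            · intro i hi2 hi
              apply seen
              left
              omega
        | cons c C =>
          have hnv : ¬ VN (ε l) c := by
            refine notVN hmis (Or.inl ?_)
            rw [hw]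
            exact ⟨AP.flatten, C ++ AR.flatten, by simp⟩
          refine ⟨⟨P ++ (l, l) :: (1, r) :: rest, s.items⟩, ?_, ε,
            AP ++ [[ε l], c :: C] ++ AR, ?_⟩
          · rw [← hq]
            simp
          · have e : P ++ (l, l) :: (1, r) :: rest = P ++ [(l, l), (1, r)] ++ rest := by simp
            rw [e]
            refine one_step hS harcs hP hAall hR ?_ (by simp) ?_
              (fun h => absurd h hPne) ?_ ?_
            · refine List.Forall₂.cons ?_ (List.Forall₂.cons ?_ List.Forall₂.nil)
              · refine ⟨by simp, ?_, ?_, ?_, ?_, fun _ _ => rfl⟩
                · intro h; change l = 0 at h; omega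
                · intro h; change l = 0 at h; omega
                · intro _; exact ⟨hln, rfl⟩
                · intro _; exact ⟨hln, rfl⟩
              · refine ⟨by simp, ?_, ?_, ?_, ?_, ?_⟩
                · intro h; change (1 : ℕ) = 0 at h; omega
                · intro h
                  have := hAr0 h
                  rw [List.getLast?_cons_cons] at this
                  exact this
                · intro h; change 2 ≤ 1 at h; omega
                · intro h
                  have := hAr h
                  rw [List.getLast?_cons_cons] at this
                  exact this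
                · intro _ h; change 2 ≤ 1 at h; omega
            · rw [List.isChain_pair]
              intro x hx y hy
              rw [List.getLast?_singleton, Option.mem_def, Option.some.injEq] at hx
              rw [List.head?_cons, Option.mem_def, Option.some.injEq] at hy
              subst hx hy
              exact hnv
            · intro h x hx
              rw [show ([(l, l), (1, r)] : List (ℕ × ℕ)).getLast? = some (1, r) from rfl,
                Option.mem_def, Option.some.injEq] at hx
              subst hx
              exact hlst h
            · intro i hi2 hi
              rcases hi with hi | hi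
              · exact seen (Or.inl hi)
              · exact seen' (seen (Or.inr hi))
    | true =>
      dsimp only at hq
      simp only [cond_true] at hq
      cases hcnd : (Nat.ble 2 r && Nat.beq (entry s.items r).1 2 && !(Nat.beq l r)) with
      | false => rw [hcnd] at hq; simp at hq
      | true =>
        rw [hcnd, cond_true, Option.some.injEq] at hq
        rw [Bool.and_eq_true, Bool.and_eq_true, Nat.ble_eq, Nat.beq_eq, Bool.not_eq_true',
          ← Bool.not_eq_true, Nat.beq_eq] at hcnd
        obtain ⟨⟨hr2, hent⟩, hlr⟩ := hcnd
        obtain ⟨hrn, hlast⟩ := hAr hr2
        have hmis : mis N w (ε r) = 2 := by rw [(hS.item r hr2 hrn).2.1, hent]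
        have hRne : rest ≠ [] := fun h => by have := hlst h; omega
        rcases List.eq_nil_or_concat A with rfl | ⟨C, c0, rfl⟩
        · exact absurd rfl hA0
        rw [List.concat_eq_append] at hw hS hAall hAl0 hAl hlast hAe
        rw [List.getLast?_concat, Option.some.injEq] at hlast
        subst hlast
        rcases List.eq_nil_or_concat C with rfl | ⟨C, c, rfl⟩
        · rw [List.nil_append] at hw hS hAall hAl0 hAl hAe
          have hl2 : ¬ 2 ≤ l := by
            intro h
            obtain ⟨hln, hhead⟩ := hAl h
            rw [List.head?_cons, Option.some.injEq] at hhead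
            exact hlr (hS.inj l r h hln hr2 hrn hhead.symm)
          have hl0 : l ≠ 0 := by
            intro h
            have := hAl0 h
            rw [List.head?_cons, Option.some.injEq] at this
            rw [this] at hmis
            have := mis_zero_le N w
            omega
          have hl1 : l = 1 := by omega
          subst hl1
          refine ⟨⟨P ++ (r, r) :: rest, s.items⟩, ?_, ε, AP ++ [[ε r]] ++ AR, ?_⟩
          · rw [← hq]
            simp
          · have e : P ++ (r, r) :: rest = P ++ [(r, r)] ++ rest := by simp
            rw [e]
            refine one_step hS harcs hP hAall hR ?_ (by simp) (List.IsChain.singleton _)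
              (fun h => by have := hfst h; omega) (fun h => absurd h hRne) ?_
            · refine List.Forall₂.cons ?_ List.Forall₂.nil
              refine ⟨by simp, ?_, ?_, ?_, ?_, fun _ _ => rfl⟩
              · intro h; change r = 0 at h; omega
              · intro h; change r = 0 at h; omega
              · intro _; exact ⟨hrn, rfl⟩
              · intro _; exact ⟨hrn, rfl⟩
            · intro i hi2 hi
              apply seen
              left
              omega
        · rw [List.concat_eq_append] at hw hS hAall hAl0 hAl hAe
          have hnv : ¬ VN c (ε r) := by
            have h0 : ¬ VN (ε r) c := by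
              refine notVN hmis (Or.inr ?_)
              rw [hw]
              exact ⟨AP.flatten ++ C, AR.flatten, by simp⟩
            intro h
            exact h0 (Or.symm h)
          have hhd : (C ++ [c] ++ [ε r]).head? = (C ++ [c]).head? := by
            rw [List.head?_append_of_ne_nil _ (by simp)]
          refine ⟨⟨P ++ (l, 1) :: (r, r) :: rest, s.items⟩, ?_, ε,
            AP ++ [C ++ [c], [ε r]] ++ AR, ?_⟩
          · rw [← hq]
            simp
          · have e : P ++ (l, 1) :: (r, r) :: rest = P ++ [(l, 1), (r, r)] ++ rest := by simp
            rw [e]
            refine one_step hS harcs hP hAall hR ?_ (by simp) ?_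
              ?_ (fun h => absurd h hRne) ?_
            · refine List.Forall₂.cons ?_ (List.Forall₂.cons ?_ List.Forall₂.nil)
              · refine ⟨by simp, ?_, ?_, ?_, ?_, ?_⟩
                · intro h
                  have := hAl0 h
                  rw [hhd] at this
                  exact this
                · intro h; change (1 : ℕ) = 0 at h; omega
                · intro h
                  have := hAl h
                  rw [hhd] at this
                  exact this
                · intro h; change 2 ≤ 1 at h; omega
                · intro h1 h2
                  change l = 1 at h1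
                  change 2 ≤ l at h2
                  omega
              · refine ⟨by simp, ?_, ?_, ?_, ?_, fun _ _ => rfl⟩
                · intro h; change r = 0 at h; omega
                · intro h; change r = 0 at h; omega
                · intro _; exact ⟨hrn, rfl⟩
                · intro _; exact ⟨hrn, rfl⟩
            · rw [List.isChain_pair]
              intro x hx y hy
              rw [List.getLast?_concat, Option.mem_def, Option.some.injEq] at hx
              rw [List.head?_cons, Option.mem_def, Option.some.injEq] at hy
              subst hx hy
              exact hnv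
            · intro h x hx
              rw [List.head?_cons, Option.mem_def, Option.some.injEq] at hx
              subst hx
              exact hfst h
            · intro i hi2 hi
              rcases hi with hi | hi
              · exact seen (Or.inl hi)
              · exact seen' (seen (Or.inr hi))

end Pool.Agent.Lib.MP29a61e
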