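import Pool.Agent.Lib.MP_29a61e_co.Sem

/-!
# MP_29a61e_co: replacing some arcs of a state by others

Helper file (helper49) for `INS` and `FUL`.
-/

set_option autoImplicit false

namespace Pool.Agent.Lib.MP29a61e

namespace GLUE

/-- the part of `Sem` about the arcs -/
structure ArcSem (N : ℕ) (w : List ℕ) (n : ℕ) (ε : ℕ → ℕ) (as : List (ℕ × ℕ))
    (As : List (List ℕ)) : Prop where
  flat : As.flatten = w
  sides : List.Forall₂ (SideOK N n ε) as As
  brk : As.IsChain Brk
  fst : ∀ a ∈ as.head?, a.1 = 0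
  lst : ∀ a ∈ as.getLast?, a.2 = 0
  first : ∀ A ∈ As.head?, ∀ x ∈ A, 1 ≤ mis N w x → x = ε 2

theorem up {N n n' : ℕ} {ε ε' : ℕ → ℕ} (hn : n ≤ n') (he : ∀ i, i < n → ε' i = ε i)
    {a : ℕ × ℕ} {A : List ℕ} (h : SideOK N n ε a A) : SideOK N n' ε' a A := by
  obtain ⟨h1, h2, h3, h4, h5, h6⟩ := h
  refine ⟨h1, h2, h3, fun h => ?_, fun h => ?_, fun h7 h8 => ?_⟩
  · rw [he _ (h4 h).1]; exact ⟨(h4 h).1.trans_le hn, (h4 h).2⟩
  · rw [he _ (h5 h).1]; exact ⟨(h5 h).1.trans_le hn, (h5 h).2⟩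
  · rw [he _ (h4 h8).1]; exact h6 h7 h8

theorem upAll {N n n' : ℕ} {ε ε' : ℕ → ℕ} (hn : n ≤ n') (he : ∀ i, i < n → ε' i = ε i)
    {as : List (ℕ × ℕ)} {As : List (List ℕ)} (h : List.Forall₂ (SideOK N n ε) as As) :
    List.Forall₂ (SideOK N n' ε') as As :=
  h.imp fun _ _ h => up hn he h

theorem split {α β : Type} {R : α → β → Prop} : ∀ {l₁ l₂ : List α} {L : List β},
    List.Forall₂ R (l₁ ++ l₂) L → ∃ L₁ L₂, L = L₁ ++ L₂ ∧ List.Forall₂ R l₁ L₁ ∧
      List.Forall₂ R l₂ L₂
  | [], l₂, L, h => ⟨[], L, rfl, List.Forall₂.nil, h⟩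
  | a :: l₁, l₂, L, h => by
    rw [List.cons_append] at h
    cases h with
    | cons h1 h2 =>
      obtain ⟨L₁, L₂, rfl, h3, h4⟩ := split h2
      exact ⟨_ :: L₁, L₂, rfl, List.Forall₂.cons h1 h3, h4⟩

theorem glue {α β : Type} {R : α → β → Prop} {l₁ l₂ : List α} {L₁ L₂ : List β}
    (h₁ : List.Forall₂ R l₁ L₁) (h₂ : List.Forall₂ R l₂ L₂) :
    List.Forall₂ R (l₁ ++ l₂) (L₁ ++ L₂) := List.rel_append h₁ h₂

theorem ne_of_sides {N n : ℕ} {ε : ℕ → ℕ} {as : List (ℕ × ℕ)} {As : List (List ℕ)}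
    (h : List.Forall₂ (SideOK N n ε) as As) : ∀ A ∈ As, A ≠ [] := by
  induction h with
  | nil => intro A hA; simp at hA
  | cons h1 _ ih =>
    intro A hA
    rcases List.mem_cons.1 hA with rfl | hA
    · exact h1.1
    · exact ih A hA

theorem head_flat {L : List (List ℕ)} (h : ∀ A ∈ L, A ≠ []) : ∀ A ∈ L.head?,
    A.head? = L.flatten.head? := by
  intro A hA
  cases L with
  | nil => simp at hA
  | cons B L =>
    simp only [List.head?_cons, Option.mem_def, Option.some.injEq] at hA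
    subst hA
    have hB := h B (by simp)
    rw [List.flatten_cons]
    obtain ⟨b, B', rfl⟩ := List.exists_cons_of_ne_nil hB
    simp

theorem last_flat {L : List (List ℕ)} (h : ∀ A ∈ L, A ≠ []) : ∀ A ∈ L.getLast?,
    A.getLast? = L.flatten.getLast? := by
  intro A hA
  rcases List.eq_nil_or_concat L with rfl | ⟨L', B, rfl⟩
  · simp at hA
  · rw [List.concat_eq_append] at hA h ⊢
    rw [List.getLast?_concat, Option.mem_def, Option.some.injEq] at hA
    subst hA
    have hB := h B (by simp)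
    rw [List.flatten_append, List.flatten_singleton, List.getLast?_append_of_ne_nil _ hB]

theorem brk_congr {A B A' B' : List ℕ} (h : Brk A B) (hA : A'.getLast? = A.getLast?)
    (hB : B'.head? = B.head?) : Brk A' B' := by
  intro x hx y hy
  rw [hA] at hx
  rw [hB] at hy
  exact h x hx y hy

theorem flat_ne {L : List (List ℕ)} (h : ∀ A ∈ L, A ≠ []) (hL : L ≠ []) : L.flatten ≠ [] := by
  obtain ⟨A, L', rfl⟩ := List.exists_cons_of_ne_nil hL
  rw [List.flatten_cons]
  intro h0
  exact h A (by simp) (List.append_eq_nil_iff.1 h0).1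

theorem chain {AP AM AQ AM' : List (List ℕ)} (h : (AP ++ AM ++ AQ).IsChain Brk)
    (hM' : AM'.IsChain Brk) (hne : ∀ A ∈ AM, A ≠ []) (hne' : ∀ A ∈ AM', A ≠ [])
    (hflat : AM'.flatten = AM.flatten) (hM : AM ≠ []) : (AP ++ AM' ++ AQ).IsChain Brk := by
  have hM0 : AM' ≠ [] := by
    rintro rfl
    exact flat_ne hne hM hflat.symm
  rw [List.isChain_append, List.isChain_append] at h ⊢
  obtain ⟨⟨h1, h2, h3⟩, h4, h5⟩ := h
  refine ⟨⟨h1, hM', ?_⟩, h4, ?_⟩
  · intro x hx y hy
    obtain ⟨z, hz⟩ : ∃ z, z ∈ AM.head? := by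
      cases AM with
      | nil => exact absurd rfl hM
      | cons z _ => exact ⟨z, rfl⟩
    refine brk_congr (h3 x hx z hz) rfl ?_
    rw [head_flat hne z hz, head_flat hne' y hy, hflat]
  · intro x hx y hy
    rw [List.getLast?_append_of_ne_nil _ hM0] at hx
    obtain ⟨z, hz⟩ : ∃ z, z ∈ AM.getLast? := by
      rcases List.eq_nil_or_concat AM with rfl | ⟨L', B, rfl⟩
      · exact absurd rfl hM
      · exact ⟨B, by simp⟩
    refine brk_congr (h5 z ?_ y hy) ?_ rfl
    · rw [List.getLast?_append_of_ne_nil _ hM]; exact hz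
    · rw [last_flat hne z hz, last_flat hne' x hx, hflat]

theorem ArcSem.replace {N : ℕ} {w : List ℕ} {n n' : ℕ} {ε ε' : ℕ → ℕ} {P M Q M' : List (ℕ × ℕ)}
    {AP AM AQ AM' : List (List ℕ)} (h : ArcSem N w n ε (P ++ M ++ Q) (AP ++ AM ++ AQ))
    (hP : List.Forall₂ (SideOK N n ε) P AP) (hM : List.Forall₂ (SideOK N n ε) M AM)
    (hQ : List.Forall₂ (SideOK N n ε) Q AQ) (hn3 : 3 ≤ n) (hn : n ≤ n')
    (he : ∀ i, i < n → ε' i = ε i) (hM' : List.Forall₂ (SideOK N n' ε') M' AM')
    (hflat : AM'.flatten = AM.flatten) (hne : M ≠ []) (hc : AM'.IsChain Brk)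
    (h1 : P = [] → ∀ a ∈ M'.head?, a.1 = 0) (h2 : Q = [] → ∀ a ∈ M'.getLast?, a.2 = 0)
    (h3 : P = [] → ∀ A ∈ AM'.head?, ∀ x ∈ A, 1 ≤ mis N w x → x = ε 2) :
    ArcSem N w n' ε' (P ++ M' ++ Q) (AP ++ AM' ++ AQ) := by
  have hAM : AM ≠ [] := by
    rintro rfl
    exact hne (List.forall₂_nil_right_iff.1 hM)
  have hAM' : AM' ≠ [] := by
    rintro rfl
    exact flat_ne (ne_of_sides hM) hAM hflat.symm
  have hM0 : M' ≠ [] := by
    rintro rfl
    exact hAM' (List.forall₂_nil_left_iff.1 hM')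
  refine ⟨?_, ?_, ?_, ?_, ?_, ?_⟩
  · have := h.flat
    rw [List.flatten_append, List.flatten_append] at this ⊢
    rw [hflat, this]
  · exact glue (glue (upAll hn he hP) hM') (upAll hn he hQ)
  · exact chain h.brk hc (ne_of_sides hM) (ne_of_sides hM') hflat hAM
  · intro a ha
    cases P with
    | nil =>
      obtain ⟨b, M'', rfl⟩ := List.exists_cons_of_ne_nil hM0
      simp only [List.nil_append, List.cons_append, List.head?_cons, Option.mem_def,
        Option.some.injEq] at ha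
      subst ha
      exact h1 rfl b (by simp)
    | cons b P =>
      simp only [List.cons_append, List.head?_cons, Option.mem_def, Option.some.injEq] at ha
      subst ha
      exact h.fst b (by simp)
  · intro a ha
    rcases List.eq_nil_or_concat Q with rfl | ⟨Q', b, rfl⟩
    · rw [List.append_nil, List.getLast?_append_of_ne_nil _ hM0] at ha
      exact h2 rfl a ha
    · rw [List.concat_eq_append, ← List.append_assoc, List.getLast?_concat, Option.mem_def,
        Option.some.injEq] at ha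
      subst ha
      apply h.lst b
      rw [List.concat_eq_append, ← List.append_assoc, List.getLast?_concat]
      rfl
  · intro A hA x hx hm
    rw [he 2 (by omega)]
    cases AP with
    | nil =>
      have hP0 : P = [] := List.forall₂_nil_right_iff.1 hP
      obtain ⟨b, M'', rfl⟩ := List.exists_cons_of_ne_nil hAM'
      simp only [List.nil_append, List.cons_append, List.head?_cons, Option.mem_def,
        Option.some.injEq] at hA
      subst hA
      exact h3 hP0 b (by simp) x hx hm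
    | cons b P =>
      simp only [List.cons_append, List.head?_cons, Option.mem_def, Option.some.injEq] at hA
      subst hA
      exact h.first b (by simp) x hx hm

theorem toArc {N : ℕ} {w : List ℕ} {s : St} {ε : ℕ → ℕ} {As : List (List ℕ)}
    (h : Sem N w s ε As) : ArcSem N w s.items.length ε s.arcs As :=
  ⟨h.flat, h.sides, h.brk, h.fst, h.lst, h.first⟩

end GLUE

end Pool.Agent.Lib.MP29a61e
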