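import Pool.Agent.Lib.MP_29a61e_co.GLUE

/-!
# MP_29a61e_co: adding a new item (INS)
-/

set_option autoImplicit false

namespace Pool.Agent.Lib.MP29a61e

namespace INS

open GLUE

theorem entry_app {items : List (ℕ × ℕ × ℕ)} {z : ℕ × ℕ × ℕ} {i : ℕ} (hi : i < items.length) :
    entry (items ++ [z]) i = entry items i := by
  unfold entry
  rw [List.getD_append _ _ _ _ hi]

theorem entry_new {items : List (ℕ × ℕ × ℕ)} {z : ℕ × ℕ × ℕ} :
    entry (items ++ [z]) items.length = z := by
  unfold entry
  rw [List.getD_append_right _ _ _ _ le_rfl, Nat.sub_self]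
  rfl

theorem mate_iff {items : List (ℕ × ℕ × ℕ)} {i j : ℕ} : mate items i j = true ↔
    2 ≤ j ∧ ((entry items i).2.1 = j ∨ (entry items i).2.2 = j) := by
  unfold mate
  rw [Bool.and_eq_true, Bool.or_eq_true, Nat.ble_eq, Nat.beq_eq, Nat.beq_eq]

theorem mate_lt {N : ℕ} {w : List ℕ} {items : List (ℕ × ℕ × ℕ)} {ε : ℕ → ℕ} {i j : ℕ}
    (h : ItemOK N w items ε i) (hm : mate items i j = true) : 2 ≤ j ∧ j < items.length := by
  rw [mate_iff] at hm
  obtain ⟨h2, hm | hm⟩ := hm
  · refine ⟨h2, ?_⟩
    have h0 : (entry items i).2.1 ≠ 0 := by omega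
    rw [← hm]
    exact (h.2.2.2.2.1 h0).2.1
  · refine ⟨h2, ?_⟩
    have h0 : (entry items i).2.2 ≠ 0 := by omega
    rw [← hm]
    exact (h.2.2.2.2.2.1 h0).2.1

theorem inA_app {A B : List (ℕ × ℕ)} {i : ℕ} :
    inA (A ++ B) i = true ↔ inA A i = true ∨ inA B i = true := by
  unfold inA
  rw [List.any_append, Bool.or_eq_true]

theorem itemOK_up {N : ℕ} {w : List ℕ} {items : List (ℕ × ℕ × ℕ)} {z : ℕ × ℕ × ℕ}
    {ε ε' : ℕ → ℕ} (he : ∀ i, i < items.length → ε' i = ε i) {i : ℕ} (hi : i < items.length)
    (h : ItemOK N w items ε i) : ItemOK N w (items ++ [z]) ε' i := by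
  unfold ItemOK at h ⊢
  rw [entry_app hi, he i hi]
  obtain ⟨h1, h2, h3, h4, h5, h6, h7⟩ := h
  refine ⟨h1, h2, h3, h4, fun h => ?_, fun h => ?_, h7⟩
  · obtain ⟨a, b, c⟩ := h5 h
    refine ⟨a, ?_, ?_⟩
    · rw [List.length_append]; omega
    · rw [he _ b]; exact c
  · obtain ⟨a, b, c⟩ := h6 h
    refine ⟨a, ?_, ?_⟩
    · rw [List.length_append]; omega
    · rw [he _ b]; exact c

end INS

open GLUE INS in
theorem specINS (hLOC : SpecLOC) : SpecINS := by
  intro N w ε As P M Q items conv hW hP0 hS y hy hmis hne
  have hthree : 3 ≤ items.length := hS.three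
  have hsides : List.Forall₂ (SideOK N items.length ε) (P ++ M ++ Q) As := hS.sides
  obtain ⟨AX, AQ, rfl, hX, hQ⟩ := GLUE.split hsides
  obtain ⟨AP, AM, rfl, hP, hM⟩ := GLUE.split hX
  have lP : P.length = AP.length := hP.length_eq
  have lM : M.length = AM.length := hM.length_eq
  have e1 : (AP ++ AM ++ AQ).drop P.length = AM ++ AQ := by
    rw [lP, List.append_assoc, List.drop_left]
  have e2 : (AM ++ AQ).take M.length = AM := by rw [lM, List.take_left]
  have e3 : (AM ++ AQ).drop M.length = AQ := by rw [lM, List.drop_left]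
  have e4 : (AP ++ AM ++ AQ).take P.length = AP := by
    rw [lP, List.append_assoc, List.take_left]
  rw [e1, e2] at hy
  have hw : w = AP.flatten ++ AM.flatten ++ AQ.flatten := by
    have := hS.flat
    rw [List.flatten_append, List.flatten_append] at this
    exact this.symm
  have hcM : AM.IsChain Brk := by
    have := hS.brk
    rw [List.isChain_append, List.isChain_append] at this
    exact this.1.2.1
  obtain ⟨x, hx, AM', hflat, hF, hch, hx1, hin, hmono, hlast⟩ :=
    hLOC N w hW items.length hthree ε conv M AM AP.flatten AQ.flatten hw hM hcM y hy hmis hne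
  have hM0 : M ≠ [] := by
    rintro rfl
    rw [List.forall₂_nil_left_iff.1 hM] at hy
    simp at hy
  have he : ∀ i, i < items.length → Function.update ε items.length y i = ε i := by
    intro i hi
    exact Function.update_of_ne (by omega) _ _
  have hen : Function.update ε items.length y items.length = y := Function.update_self _ _ _
  have hlen : (items ++ [(x.1, 0, 0)]).length = items.length + 1 := by
    rw [List.length_append]; rfl
  have hyN : y ≤ N := by
    have h1 : y ∈ w := by
      rw [hw]
      simp only [List.mem_append]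
      exact Or.inl (Or.inr hy)
    have h2 := hW.2.mem_iff.1 h1
    rw [List.mem_range] at h2
    omega
  have hArc : ArcSem N w (items.length + 1) (Function.update ε items.length y) (P ++ x.2 ++ Q)
      (AP ++ AM' ++ AQ) := by
    refine ArcSem.replace (toArc hS) hP hM hQ hthree (Nat.le_succ _) he hF hflat hM0 hch
      (fun h => absurd h hP0) ?_ (fun h => absurd h hP0)
    intro hQ0 a ha
    obtain ⟨b, hb⟩ : ∃ b, b ∈ M.getLast? := by
      rcases List.eq_nil_or_concat M with rfl | ⟨L', B, rfl⟩
      · exact absurd rfl hM0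
      · exact ⟨B, by simp⟩
    refine hlast a ha b hb (hS.lst b ?_)
    subst hQ0
    rw [List.append_nil, List.getLast?_append_of_ne_nil _ hM0]
    exact hb
  have lM' : x.2.length = AM'.length := hF.length_eq
  refine ⟨x, hx, AP ++ AM' ++ AQ, ⟨?_, hArc.flat, ?_, hArc.brk, hArc.fst, hArc.lst, hArc.first,
    ?_, ?_, ?_, ?_, ?_⟩, ?_, ?_, ?_⟩
  · change 3 ≤ (items ++ [(x.1, 0, 0)]).length
    omega
  · change List.Forall₂ (SideOK N (items ++ [(x.1, 0, 0)]).length _) _ _
    rw [hlen]
    exact hArc.sides
  · intro i j hi2 hi hj2 hj hij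
    change i < (items ++ [(x.1, 0, 0)]).length at hi
    change j < (items ++ [(x.1, 0, 0)]).length at hj
    rw [hlen] at hi hj
    rcases Nat.lt_succ_iff_lt_or_eq.1 hi with hi | rfl <;>
      rcases Nat.lt_succ_iff_lt_or_eq.1 hj with hj | rfl
    · rw [he i hi, he j hj] at hij
      exact hS.inj i j hi2 hi hj2 hj hij
    · rw [he i hi, hen] at hij
      exact absurd hij (hne i hi2 hi)
    · rw [he j hj, hen] at hij
      exact absurd hij.symm (hne j hj2 hj)
    · rfl
  · intro i hi2 hi
    change i < (items ++ [(x.1, 0, 0)]).length at hi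
    change ItemOK N w (items ++ [(x.1, 0, 0)]) _ i
    rw [hlen] at hi
    rcases Nat.lt_succ_iff_lt_or_eq.1 hi with hi | rfl
    · exact itemOK_up he hi (hS.item i hi2 hi)
    · unfold ItemOK
      rw [entry_new, hen]
      refine ⟨?_, ?_, hyN, fun _ => rfl, fun h => absurd rfl h, fun h => absurd rfl h,
        fun h => absurd rfl h⟩
      · change 1 ≤ x.1
        rw [hx1]; exact hmis
      · exact hx1.symm
  · intro i j hi2 hi hm
    change i < (items ++ [(x.1, 0, 0)]).length at hi
    change mate (items ++ [(x.1, 0, 0)]) i j = true at hm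
    change mate (items ++ [(x.1, 0, 0)]) j i = true
    rw [hlen] at hi
    rcases Nat.lt_succ_iff_lt_or_eq.1 hi with hi | rfl
    · have hm' : mate items i j = true := by
        rw [mate_iff] at hm ⊢
        rw [entry_app hi] at hm
        exact hm
      have hj := mate_lt (hS.item i hi2 hi) hm'
      have hs := hS.sym i j hi2 hi hm'
      change mate items j i = true at hs
      rw [mate_iff] at hs ⊢
      rw [entry_app hj.2]
      exact hs
    · rw [mate_iff, entry_new] at hm
      obtain ⟨h1, h2 | h2⟩ := hm
      · change 0 = j at h2; omega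
      · change 0 = j at h2; omega
  · intro i hi2 hi
    change i < (items ++ [(x.1, 0, 0)]).length at hi
    change inA (P ++ x.2 ++ Q) i = true
    rw [hlen] at hi
    rw [inA_app, inA_app]
    rcases Nat.lt_succ_iff_lt_or_eq.1 hi with hi | rfl
    · have ho := hS.occ i hi2 hi
      change inA (P ++ M ++ Q) i = true at ho
      rw [inA_app, inA_app] at ho
      rcases ho with (ho | ho) | ho
      · exact Or.inl (Or.inl ho)
      · exact Or.inl (Or.inr (hmono i hi2 ho))
      · exact Or.inr ho
    · exact Or.inl (Or.inr hin)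
  · intro i j hm
    change mate (items ++ [(x.1, 0, 0)]) i j = true at hm
    rcases lt_trichotomy i items.length with hi | rfl | hi
    · refine hS.low i j ?_
      change mate items i j = true
      rw [mate_iff] at hm ⊢
      rw [entry_app hi] at hm
      exact hm
    · omega
    · omega
  · rw [e4, lP, List.append_assoc, List.take_left]
  · rw [e1, e2, lP, List.append_assoc AP AM' AQ, List.drop_left, lM', List.take_left, hflat]
  · rw [e1, e3, lP, List.append_assoc AP AM' AQ, List.drop_left, lM', List.drop_left]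

end Pool.Agent.Lib.MP29a61e
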