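import Pool.Agent.Lib.MP_29a61e_co.Sem

/-!
# MP_29a61e_co: rearrangements of pieces of a word and the potential
-/

set_option autoImplicit false

namespace Pool.Agent.Lib.MP29a61e.LEAF

theorem pair_infix_cons {x a b : ℕ} {l : List ℕ} :
    [a, b] <:+: x :: l ↔ (x = a ∧ l.head? = some b) ∨ [a, b] <:+: l := by
  rw [List.infix_cons_iff]
  constructor
  · rintro (h | h)
    · left
      obtain ⟨t, ht⟩ := h
      simp only [List.cons_append, List.nil_append, List.cons.injEq] at ht
      refine ⟨ht.1.symm, ?_⟩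
      rw [← ht.2]
      rfl
    · exact Or.inr h
  · rintro (⟨rfl, h⟩ | h)
    · left
      cases l with
      | nil => simp at h
      | cons y l =>
        simp only [List.head?_cons, Option.some.injEq] at h
        subst h
        exact ⟨l, rfl⟩
    · exact Or.inr h

theorem pair_infix_append {a b : ℕ} (A R : List ℕ) :
    [a, b] <:+: A ++ R ↔ [a, b] <:+: A ∨ [a, b] <:+: R ∨
      (A.getLast? = some a ∧ R.head? = some b) := by
  induction A with
  | nil =>
    simp
  | cons x A ih =>
    rw [List.cons_append, pair_infix_cons, pair_infix_cons, ih]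
    cases A with
    | nil =>
      simp
      tauto
    | cons y A =>
      rw [List.getLast?_cons_cons]
      simp only [List.cons_append, List.head?_cons, Option.some.injEq]
      tauto

theorem pair_infix_flatten {a b : ℕ} : ∀ (P : List (List ℕ)), (∀ A ∈ P, A ≠ []) →
    [a, b] <:+: P.flatten → (∃ A ∈ P, [a, b] <:+: A) ∨
      ∃ A B, [A, B] <:+: P ∧ A.getLast? = some a ∧ B.head? = some b
  | [], _, h => by
    simp at h
  | A :: P, hne, h => by
    rw [List.flatten_cons, pair_infix_append] at h
    rcases h with h | h | ⟨h1, h2⟩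
    · exact Or.inl ⟨A, by simp, h⟩
    · rcases pair_infix_flatten P (fun B hB => hne B (by simp [hB])) h with ⟨B, hB, hBab⟩ | ⟨B, D, hBD, h3, h4⟩
      · exact Or.inl ⟨B, by simp [hB], hBab⟩
      · exact Or.inr ⟨B, D, hBD.trans (List.suffix_cons A P).isInfix, h3, h4⟩
    · right
      cases P with
      | nil => simp at h2
      | cons B P =>
        refine ⟨A, B, ⟨[], P, by simp⟩, h1, ?_⟩
        have hB : B ≠ [] := hne B (by simp)
        obtain ⟨y, B', rfl⟩ := List.exists_cons_of_ne_nil hB
        simpa using h2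

theorem infix_flatten_of_mem {P : List (List ℕ)} {A : List ℕ} (h : A ∈ P) : A <:+: P.flatten := by
  obtain ⟨s, t, rfl⟩ := List.append_of_mem h
  exact ⟨s.flatten, t.flatten, by simp⟩

theorem pair_infix_flatten_of_junction {P : List (List ℕ)} {A B : List ℕ} {a b : ℕ}
    (h : [A, B] <:+: P) (ha : A.getLast? = some a) (hb : B.head? = some b) :
    [a, b] <:+: P.flatten := by
  obtain ⟨s, t, rfl⟩ := h
  have h1 : [a, b] <:+: A ++ B := (pair_infix_append A B).2 (Or.inr (Or.inr ⟨ha, hb⟩))
  refine h1.trans ⟨s.flatten, t.flatten, by simp⟩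

theorem nbr_of_infix {u w : List ℕ} {a b : ℕ} (h : u <:+: w) (hn : Nbr u a b) : Nbr w a b := by
  rcases hn with h1 | h1
  · exact Or.inl (h1.trans h)
  · exact Or.inr (h1.trans h)

theorem nbr_reverse {w : List ℕ} {a b : ℕ} : Nbr w.reverse a b ↔ Nbr w a b := by
  have h : ∀ (u : List ℕ) (c d : ℕ), [c, d] <:+: u.reverse ↔ [d, c] <:+: u := by
    intro u c d
    rw [show ([c, d] : List ℕ) = [d, c].reverse from rfl, List.reverse_infix]
  unfold Nbr
  rw [h, h]
  exact Or.comm

/-- Consecutive pieces of `P` meet at a breakpoint. -/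
def Broken (P : List (List ℕ)) : Prop :=
  ∀ A B, [A, B] <:+: P → ∀ a b, A.getLast? = some a → B.head? = some b → ¬ VN a b

/-- Joined pairs stay joined when a word is cut at breakpoints and the pieces are rearranged. -/
theorem nbr_rearr {P Q : List (List ℕ)} (hne : ∀ A ∈ P, A ≠ []) (hb : Broken P)
    (hPQ : ∀ A ∈ P, A ∈ Q ∨ A.reverse ∈ Q) {a b : ℕ} (hab : VN a b) (h : Nbr P.flatten a b) :
    Nbr Q.flatten a b := by
  have key : ∀ c d, VN c d → [c, d] <:+: P.flatten → Nbr Q.flatten c d := by
    intro c d hcd h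
    rcases pair_infix_flatten P hne h with ⟨A, hA, hi⟩ | ⟨A, B, hAB, h1, h2⟩
    · rcases hPQ A hA with hQ | hQ
      · exact nbr_of_infix (infix_flatten_of_mem hQ) (Or.inl hi)
      · exact nbr_of_infix (infix_flatten_of_mem hQ) (nbr_reverse.2 (Or.inl hi))
    · exact absurd hcd (hb A B hAB c d h1 h2)
  rcases h with h | h
  · exact key a b hab h
  · exact (key b a (by unfold VN at *; tauto) h).symm

theorem misSet_rearr {N : ℕ} {P Q : List (List ℕ)} (hne : ∀ A ∈ P, A ≠ []) (hb : Broken P)
    (hPQ : ∀ A ∈ P, A ∈ Q ∨ A.reverse ∈ Q) (x : ℕ) :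
    misSet N Q.flatten x ⊆ misSet N P.flatten x := by
  intro y hy
  rw [mem_misSet] at hy ⊢
  exact ⟨hy.1, hy.2.1, fun h => hy.2.2 (nbr_rearr hne hb hPQ hy.2.1 h)⟩

/-- The potential of a list of letters with respect to the word `w`. -/
def lsum (p q N : ℕ) (w : List ℕ) (A : List ℕ) : ℕ := (A.map (fun x => g p q (mis N w x))).sum

theorem Phi_eq_lsum {p q N : ℕ} {w v : List ℕ} (hv : v.Perm (List.range (N + 1))) :
    Phi p q N w = lsum p q N w v := by
  unfold Phi lsum
  rw [(hv.map _).sum_eq]
  rfl

theorem lsum_append {p q N : ℕ} {w A B : List ℕ} :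
    lsum p q N w (A ++ B) = lsum p q N w A + lsum p q N w B := by
  simp [lsum]

theorem lsum_mono {p q N : ℕ} (hpq : p ≤ q) {w w' : List ℕ}
    (h : ∀ x, misSet N w' x ⊆ misSet N w x) (A : List ℕ) :
    lsum p q N w' A ≤ lsum p q N w A := by
  unfold lsum
  apply List.sum_le_sum
  intro x _
  exact g_mono hpq (Finset.card_le_card (h x))

theorem mis_add_one_le {N : ℕ} {w w' : List ℕ} {x y : ℕ}
    (h : misSet N w' x ⊆ misSet N w x) (hy : y ∈ misSet N w x) (hy' : Nbr w' x y) :
    mis N w' x + 1 ≤ mis N w x := by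
  have h1 : misSet N w' x ⊂ misSet N w x := by
    refine (Finset.ssubset_iff_of_subset h).2 ⟨y, hy, fun hc => ?_⟩
    rw [mem_misSet] at hc
    exact hc.2.2 hy'
  exact Finset.card_lt_card h1

theorem mis_add_two_le {N : ℕ} {w w' : List ℕ} {x y z : ℕ}
    (h : misSet N w' x ⊆ misSet N w x) (hy : y ∈ misSet N w x) (hy' : Nbr w' x y)
    (hz : z ∈ misSet N w x) (hz' : Nbr w' x z) (hyz : y ≠ z) :
    mis N w' x + 2 ≤ mis N w x := by
  have h1 : misSet N w' x ⊆ misSet N w x \ {y, z} := by
    intro v hv
    rw [Finset.mem_sdiff]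
    refine ⟨h hv, fun hc => ?_⟩
    rw [Finset.mem_insert, Finset.mem_singleton] at hc
    rw [mem_misSet] at hv
    rcases hc with rfl | rfl
    · exact hv.2.2 hy'
    · exact hv.2.2 hz'
  have h2 : ({y, z} : Finset ℕ) ⊆ misSet N w x := by
    intro v hv
    rw [Finset.mem_insert, Finset.mem_singleton] at hv
    rcases hv with rfl | rfl <;> assumption
  have h3 := Finset.card_le_card h1
  rw [Finset.card_sdiff_of_subset h2, Finset.card_pair hyz] at h3
  have h4 := Finset.card_le_card h2
  rw [Finset.card_pair hyz] at h4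
  unfold mis
  omega

/-- The record `a` describes the arc `A`; `e` gives the letters of the items. -/
def ArcSat (e : ℕ → ℕ) (a : ℕ × ℕ) (A : List ℕ) : Prop :=
  A ≠ [] ∧ (2 ≤ a.1 → A.head? = some (e a.1)) ∧ (2 ≤ a.2 → A.getLast? = some (e a.2)) ∧
    (2 ≤ a.1 → a.1 = a.2 → A.length = 1)

theorem ArcSat.reverse {e : ℕ → ℕ} {a : ℕ × ℕ} {A : List ℕ} (h : ArcSat e a A) :
    ArcSat e (a.2, a.1) A.reverse := by
  obtain ⟨h1, h2, h3, h4⟩ := h
  refine ⟨by simpa using h1, ?_, ?_, ?_⟩
  · intro h; rw [List.head?_reverse]; exact h3 h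
  · intro h; rw [List.getLast?_reverse]; exact h2 h
  · intro h h'; rw [List.length_reverse]; exact h4 (by simp at h h'; omega) h'.symm

/-- every piece of `P` occurs in `Q`, perhaps reversed -/
def Keeps (P Q : List (List ℕ)) : Prop := ∀ A ∈ P, A ∈ Q ∨ A.reverse ∈ Q

theorem Keeps.refl (P : List (List ℕ)) : Keeps P P := fun _ h => Or.inl h

theorem Keeps.trans {P Q R : List (List ℕ)} (h : Keeps P Q) (h' : Keeps Q R) : Keeps P R := by
  intro A hA
  rcases h A hA with h1 | h1
  · exact h' A h1
  · rcases h' _ h1 with h2 | h2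
    · exact Or.inr h2
    · rw [List.reverse_reverse] at h2; exact Or.inl h2

/-- the reversed list of pieces -/
def revP (X : List (List ℕ)) : List (List ℕ) := (X.map List.reverse).reverse

theorem flatten_revP (X : List (List ℕ)) : (revP X).flatten = X.flatten.reverse := by
  unfold revP
  rw [List.reverse_flatten]

theorem forall₂_revA {e : ℕ → ℕ} {L : List (ℕ × ℕ)} {P : List (List ℕ)}
    (h : List.Forall₂ (ArcSat e) L P) : List.Forall₂ (ArcSat e) (revA L) (revP P) := by
  unfold revA revP
  rw [List.forall₂_reverse_iff]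
  induction h with
  | nil => exact List.Forall₂.nil
  | cons h1 _ ih => exact List.Forall₂.cons h1.reverse ih

theorem forall₂_append_left {e : ℕ → ℕ} {L1 L2 : List (ℕ × ℕ)} {P : List (List ℕ)}
    (h : List.Forall₂ (ArcSat e) (L1 ++ L2) P) : ∃ P1 P2, P = P1 ++ P2 ∧
      List.Forall₂ (ArcSat e) L1 P1 ∧ List.Forall₂ (ArcSat e) L2 P2 := by
  refine ⟨P.take L1.length, P.drop L1.length, (List.take_append_drop _ _).symm, ?_, ?_⟩
  · have := List.forall₂_take L1.length h
    rwa [List.take_left] at this
  · have := List.forall₂_drop L1.length h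
    rwa [List.drop_left] at this

theorem forall₂_ne {e : ℕ → ℕ} {L : List (ℕ × ℕ)} {P : List (List ℕ)}
    (h : List.Forall₂ (ArcSat e) L P) : ∀ A ∈ P, A ≠ [] := by
  induction h with
  | nil => simp
  | cons h1 _ ih =>
    intro A hA
    rcases List.mem_cons.1 hA with rfl | hA
    · exact h1.1
    · exact ih A hA

theorem flatten_ne_nil {e : ℕ → ℕ} {L : List (ℕ × ℕ)} {P : List (List ℕ)}
    (h : List.Forall₂ (ArcSat e) L P) (hL : L ≠ []) : P.flatten ≠ [] := by
  cases h with
  | nil => exact absurd rfl hL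
  | cons h1 h2 =>
    rw [List.flatten_cons]
    intro hc
    rw [List.append_eq_nil_iff] at hc
    exact h1.1 hc.1

theorem mvA_sound {e : ℕ → ℕ} {L L' : List (ℕ × ℕ)} {P : List (List ℕ)} {m : ℕ}
    (h : List.Forall₂ (ArcSat e) L P) (hm : mvA L m = some L') :
    ∃ P', List.Forall₂ (ArcSat e) L' P' ∧ WMove P.flatten P'.flatten ∧ Keeps P P' := by
  unfold mvA at hm
  simp only at hm
  generalize hPd : L.take (m % 16) = A1 at hm
  generalize hXd : (L.drop (m % 16)).take (m / 16 % 16) = A2 at hm
  generalize hYd : ((L.drop (m % 16)).drop (m / 16 % 16)).take (m / 256 % 16) = A3 at hm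
  generalize hQd : ((L.drop (m % 16)).drop (m / 16 % 16)).drop (m / 256 % 16) = A4 at hm
  have hL : L = A1 ++ (A2 ++ (A3 ++ A4)) := by
    rw [← hPd, ← hXd, ← hYd, ← hQd, List.take_append_drop, List.take_append_drop,
      List.take_append_drop]
  rw [hL] at h
  obtain ⟨P1, R1, rfl, h1, hR1⟩ := forall₂_append_left h
  obtain ⟨P2, R2, rfl, h2, hR2⟩ := forall₂_append_left hR1
  obtain ⟨P3, P4, rfl, h3, h4⟩ := forall₂_append_left hR2
  generalize hc : (!A1.isEmpty && !A2.isEmpty && !A4.isEmpty && Nat.ble (m / 4096) 3 &&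
    (Nat.ble (m / 4096) 2 || !A3.isEmpty)) = cd at hm
  cases cd with
  | false => simp at hm
  | true =>
    simp only [cond_true, Option.some.injEq] at hm
    simp only [Bool.and_eq_true, Bool.not_eq_true', Bool.or_eq_true, Nat.ble_eq,
      List.isEmpty_eq_false_iff] at hc
    obtain ⟨⟨⟨⟨hA1, hA2⟩, hA4⟩, ht3⟩, ht⟩ := hc
    have n1 := flatten_ne_nil h1 hA1
    have n2 := flatten_ne_nil h2 hA2
    have n4 := flatten_ne_nil h4 hA4
    generalize m / 4096 = t at hm ht3 ht
    have hk : ∀ (B : List (List ℕ)), Keeps (P2 ++ P3) B →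
        Keeps (P1 ++ (P2 ++ (P3 ++ P4))) (P1 ++ B ++ P4) := by
      intro B hB A hA
      simp only [List.mem_append] at hA ⊢
      rcases hA with hA | hA | hA | hA
      · tauto
      · rcases hB A (by simp [hA]) with h | h <;> tauto
      · rcases hB A (by simp [hA]) with h | h <;> tauto
      · tauto
    have hrev : ∀ (B : List (List ℕ)) A, A ∈ B → A.reverse ∈ revP B := by
      intro B A hA
      unfold revP
      rw [List.mem_reverse, List.mem_map]
      exact ⟨A, hA, rfl⟩
    have hfl : (P1 ++ (P2 ++ (P3 ++ P4))).flatten =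
        P1.flatten ++ P2.flatten ++ P3.flatten ++ P4.flatten := by simp
    have happ : ∀ {U V : List (ℕ × ℕ)} {U' V' : List (List ℕ)}, List.Forall₂ (ArcSat e) U U' →
        List.Forall₂ (ArcSat e) V V' → List.Forall₂ (ArcSat e) (U ++ V) (U' ++ V') :=
      fun a b => List.rel_append a b
    rcases (by omega : t = 0 ∨ t = 1 ∨ t = 2 ∨ t = 3) with rfl | rfl | rfl | rfl
    · refine ⟨P1 ++ (revP P2 ++ P3) ++ P4, ?_, ?_, ?_⟩
      · rw [← hm]
        exact happ (happ h1 (happ (forall₂_revA h2) h3)) h4
      · refine ⟨P1.flatten, P2.flatten, P3.flatten, P4.flatten, n1, n2, n4, hfl, Or.inl ?_⟩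
        simp [flatten_revP]
      · apply hk
        intro A hA
        rcases List.mem_append.1 hA with hA | hA
        · exact Or.inr (List.mem_append.2 (Or.inl (hrev _ _ hA)))
        · exact Or.inl (List.mem_append.2 (Or.inr hA))
    · refine ⟨P1 ++ (P3 ++ P2) ++ P4, ?_, ?_, ?_⟩
      · rw [← hm]
        exact happ (happ h1 (happ h3 h2)) h4
      · refine ⟨P1.flatten, P2.flatten, P3.flatten, P4.flatten, n1, n2, n4, hfl, Or.inr (Or.inl ?_)⟩
        simp
      · apply hk
        intro A hA
        rcases List.mem_append.1 hA with hA | hA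
        · exact Or.inl (List.mem_append.2 (Or.inr hA))
        · exact Or.inl (List.mem_append.2 (Or.inl hA))
    · refine ⟨P1 ++ (P3 ++ revP P2) ++ P4, ?_, ?_, ?_⟩
      · rw [← hm]
        exact happ (happ h1 (happ h3 (forall₂_revA h2))) h4
      · refine ⟨P1.flatten, P2.flatten, P3.flatten, P4.flatten, n1, n2, n4, hfl,
          Or.inr (Or.inr (Or.inl ?_))⟩
        simp [flatten_revP]
      · apply hk
        intro A hA
        rcases List.mem_append.1 hA with hA | hA
        · exact Or.inr (List.mem_append.2 (Or.inr (hrev _ _ hA)))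
        · exact Or.inl (List.mem_append.2 (Or.inl hA))
    · have hA3 : A3 ≠ [] := by
        rcases ht with h | h
        · omega
        · exact h
      have n3 := flatten_ne_nil h3 hA3
      refine ⟨P1 ++ (revP P3 ++ P2) ++ P4, ?_, ?_, ?_⟩
      · rw [← hm]
        exact happ (happ h1 (happ (forall₂_revA h3) h2)) h4
      · refine ⟨P1.flatten, P2.flatten, P3.flatten, P4.flatten, n1, n2, n4, hfl,
          Or.inr (Or.inr (Or.inr ⟨n3, ?_⟩))⟩
        simp [flatten_revP]
      · apply hk
        intro A hA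
        rcases List.mem_append.1 hA with hA | hA
        · exact Or.inl (List.mem_append.2 (Or.inr hA))
        · exact Or.inr (List.mem_append.2 (Or.inl (hrev _ _ hA)))

theorem mvs_sound {e : ℕ → ℕ} : ∀ (ms : List ℕ) {L L' : List (ℕ × ℕ)} {P : List (List ℕ)},
    List.Forall₂ (ArcSat e) L P → mvs ms L = some L' →
    ∃ P', List.Forall₂ (ArcSat e) L' P' ∧ WSteps ms.length P.flatten P'.flatten ∧ Keeps P P'
  | [], L, L', P, h, hm => by
    simp only [mvs, Option.some.injEq] at hm
    subst hm
    exact ⟨P, h, rfl, Keeps.refl P⟩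
  | m :: ms, L, L', P, h, hm => by
    unfold mvs at hm
    cases h1 : mvA L m with
    | none => rw [h1] at hm; simp at hm
    | some L1 =>
      rw [h1] at hm
      simp only at hm
      obtain ⟨P1, hP1, hw1, hk1⟩ := mvA_sound h h1
      obtain ⟨P', hP', hw', hk'⟩ := mvs_sound ms hP1 hm
      exact ⟨P', hP', ⟨_, hw1, hw'⟩, hk1.trans hk'⟩

theorem lsum_ge_of_mem {p q N : ℕ} {w w' A : List ℕ} {a d : ℕ} (hpq : p ≤ q)
    (h : ∀ x, misSet N w' x ⊆ misSet N w x) (ha : a ∈ A)
    (hd : g p q (mis N w' a) + d ≤ g p q (mis N w a)) :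
    lsum p q N w' A + d ≤ lsum p q N w A := by
  obtain ⟨s, t, rfl⟩ := List.append_of_mem ha
  have h1 := lsum_mono hpq h s
  have h2 := lsum_mono hpq h t
  rw [lsum_append, lsum_append]
  simp only [lsum, List.map_cons, List.sum_cons] at *
  omega

theorem d1_le {p q N : ℕ} (hpq : p ≤ q) {w w' : List ℕ} {x y t : ℕ}
    (h : misSet N w' x ⊆ misSet N w x) (hy : y ∈ misSet N w x) (hy' : Nbr w' x y)
    (ht : mis N w x = t) : g p q (mis N w' x) + d1 p q t ≤ g p q (mis N w x) := by
  have h1 := mis_add_one_le h hy hy'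
  have h2 := mis_le_two N w x
  rcases (by omega : t = 1 ∨ t = 2) with rfl | rfl
  · have h3 : mis N w' x = 0 := by omega
    have h5 : d1 p q 1 = p := rfl
    rw [h3, ht, h5]
    simp [g]
  · have h3 : mis N w' x ≤ 1 := by omega
    have h4 := g_mono hpq h3
    have h5 : d1 p q 2 = q - p := rfl
    rw [ht, h5]
    simp only [g] at h4 ⊢
    omega

/-- The drop of the potential in one arc. -/
theorem dArc_le {p q N : ℕ} (hpq : p ≤ q) {w w' : List ℕ} {e : ℕ → ℕ} {items : List (ℕ × ℕ × ℕ)}
    (h : ∀ x, misSet N w' x ⊆ misSet N w x)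
    {l r : ℕ} {A : List ℕ} (hA : ArcSat e (l, r) A) {x y : Bool} {z z' : ℕ}
    (hx : x = true → 2 ≤ l ∧ mis N w (e l) = (entry items l).1 ∧ z ∈ misSet N w (e l) ∧
      Nbr w' (e l) z)
    (hy : y = true → 2 ≤ r ∧ mis N w (e r) = (entry items r).1 ∧ z' ∈ misSet N w (e r) ∧
      Nbr w' (e r) z')
    (hzz : x = true → y = true → z ≠ z')
    (hinj : x = true → y = true → e l = e r → l = r) :
    lsum p q N w' A + dArc p q items l r x y ≤ lsum p q N w A := by
  obtain ⟨hne, hl, hr, hf⟩ := hA
  simp only at hl hr hf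
  have hm := lsum_mono (p := p) (q := q) hpq h A
  -- letters at the ends
  have hlm : 2 ≤ l → e l ∈ A := fun h => List.mem_of_head? (hl h)
  have hrm : 2 ≤ r → e r ∈ A := fun h => List.mem_of_getLast? (hr h)
  unfold dArc
  by_cases hfull : 2 ≤ l ∧ l = r
  · obtain ⟨h2, rfl⟩ := hfull
    have hc : (Nat.ble 2 l && Nat.beq l l) = true := by
      simp [h2]
    rw [hc, cond_true]
    have hla := hlm h2
    cases x <;> cases y
    · simpa using hm
    · obtain ⟨-, h4, h5, h6⟩ := hy rfl
      simpa using lsum_ge_of_mem hpq h hla (d1_le hpq (h _) h5 h6 h4)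
    · obtain ⟨-, h4, h5, h6⟩ := hx rfl
      simpa using lsum_ge_of_mem hpq h hla (d1_le hpq (h _) h5 h6 h4)
    · obtain ⟨-, h4, h5, h6⟩ := hx rfl
      obtain ⟨-, -, h7, h8⟩ := hy rfl
      have h9 := mis_add_two_le (h (e l)) h5 h6 h7 h8 (hzz rfl rfl)
      have h10 := mis_le_two N w (e l)
      have h11 : mis N w (e l) = 2 := by omega
      have h12 : mis N w' (e l) = 0 := by omega
      have h13 : (entry items l).1 = 2 := by omega
      rw [h13]
      have h14 : cond (true && true) (cond (Nat.beq 2 1) p q)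
        (cond (true || true) (d1 p q 2) 0) = q := rfl
      rw [h14]
      apply lsum_ge_of_mem hpq h hla
      rw [h11, h12]
      simp [g]
  · have hc : (Nat.ble 2 l && Nat.beq l r) = false := by
      rw [Bool.eq_false_iff]
      intro hc
      simp only [Bool.and_eq_true, Nat.ble_eq] at hc
      exact hfull ⟨hc.1, Nat.eq_of_beq_eq_true hc.2⟩
    rw [hc, cond_false]
    cases x <;> cases y
    · simpa using hm
    · obtain ⟨h3, h4, h5, h6⟩ := hy rfl
      simpa using lsum_ge_of_mem hpq h (hrm h3) (d1_le hpq (h _) h5 h6 h4)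
    · obtain ⟨h3, h4, h5, h6⟩ := hx rfl
      simpa using lsum_ge_of_mem hpq h (hlm h3) (d1_le hpq (h _) h5 h6 h4)
    · obtain ⟨h3, h4, h5, h6⟩ := hx rfl
      obtain ⟨h3', h4', h5', h6'⟩ := hy rfl
      have hd := d1_le hpq (h _) h5 h6 h4
      have hd' := d1_le hpq (h _) h5' h6' h4'
      have hne' : e l ≠ e r := fun hc => hfull ⟨h3, hinj rfl rfl hc⟩
      -- the first and the last letter are at different places
      obtain ⟨a, B, rfl⟩ := List.exists_cons_of_ne_nil hne
      have ha : a = e l := by simpa using hl h3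
      have hB : e r ∈ B := by
        have := hrm h3'
        rcases List.mem_cons.1 this with h' | h'
        · exact absurd (ha ▸ h').symm hne'
        · exact h'
      have h7 := lsum_ge_of_mem hpq h hB hd'
      subst ha
      simp only [lsum, List.map_cons, List.sum_cons, cond_true] at h7 ⊢
      omega

/-- The drop of the potential in a list of arcs. -/
theorem dArcs_le {p q N : ℕ} (hpq : p ≤ q) {w w' : List ℕ} {e : ℕ → ℕ} {items : List (ℕ × ℕ × ℕ)}
    (h : ∀ x, misSet N w' x ⊆ misSet N w x)
    (hmate : ∀ i j, mate items i j = true → 2 ≤ i ∧ 2 ≤ j ∧ mis N w (e i) = (entry items i).1 ∧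
      mis N w (e j) = (entry items j).1 ∧ e j ∈ misSet N w (e i) ∧ e i ∈ misSet N w (e j))
    (hinj : ∀ i j, 2 ≤ i → 2 ≤ j → (∃ k, mate items i k = true ∨ mate items k i = true) →
      (∃ k, mate items j k = true ∨ mate items k j = true) → e i = e j → i = j) :
    ∀ (L : List (ℕ × ℕ)) (Q : List (List ℕ)) (x : Bool) (z : ℕ), List.Forall₂ (ArcSat e) L Q →
      (∀ A B, [A, B] <:+: Q → ∀ a b, A.getLast? = some a → B.head? = some b → Nbr w' a b) →
      Q.flatten.Nodup → z ∉ Q.flatten →
      (x = true → ∃ i, mate items i (L.headD (0, 0)).1 = true ∧ e i = z ∧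
        Nbr w' (e (L.headD (0, 0)).1) z) →
      lsum p q N w' Q.flatten + dArcs p q items x L ≤ lsum p q N w Q.flatten
  | [], Q, x, z, hF, _, _, _, _ => by
    cases hF
    simp [dArcs, lsum]
  | [a], Q, x, z, hF, _, hnd, hz, hx => by
    cases hF with
    | cons h1 h2 =>
      cases h2
      simp only [dArcs, List.flatten_cons, List.flatten_nil, List.append_nil, List.headD_cons]
        at *
      refine dArc_le hpq h (z := z) (z' := z) (l := a.1) (r := a.2) h1 (fun hx' => ?_)
        (fun hy => by simp at hy) (fun _ hy => by simp at hy) (fun _ hy => by simp at hy)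
      obtain ⟨i, hi, rfl, hn⟩ := hx hx'
      obtain ⟨-, h4, -, h5, -, h6⟩ := hmate _ _ hi
      exact ⟨h4, h5, h6, hn⟩
  | a :: b :: L, Q, x, z, hF, hadj, hnd, hz, hx => by
    cases hF with
    | @cons _ A _ Q' h1 h2 =>
      cases h2 with
      | @cons _ B _ Q'' h3 h4 =>
        have hAB : [A, B] <:+: A :: B :: Q'' := ⟨[], Q'', rfl⟩
        simp only [List.headD_cons] at hx
        have hnd' : (A ++ (B :: Q'').flatten).Nodup := by simpa using hnd
        have hdisj := List.disjoint_of_nodup_append hnd'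
        -- the letters at the junction
        obtain ⟨za, hza⟩ : ∃ za, A.getLast? = some za := by
          cases hh : A.getLast? with
          | none => rw [List.getLast?_eq_none_iff] at hh; exact absurd hh h1.1
          | some v => exact ⟨v, rfl⟩
        obtain ⟨zb, hzb⟩ : ∃ zb, B.head? = some zb := by
          cases hh : B.head? with
          | none => rw [List.head?_eq_none_iff] at hh; exact absurd hh h3.1
          | some v => exact ⟨v, rfl⟩
        have hjn := hadj A B hAB za zb hza hzb
        have hzaA : za ∈ A := List.mem_of_getLast? hza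
        have hzbB : zb ∈ (B :: Q'').flatten := by
          simp [List.mem_of_head? hzb]
        have hzA : z ∉ A := fun hc => hz (by simp [hc])
        have hz2 : z ∉ (B :: Q'').flatten := fun hc => hz (by
          rw [List.flatten_cons]; exact List.mem_append.2 (Or.inr hc))
        -- the rest
        have ih := dArcs_le hpq h hmate hinj (b :: L) (B :: Q'') (mate items a.2 b.1) za
          (List.Forall₂.cons h3 h4) (fun C D hCD => hadj C D (hCD.trans
            (List.suffix_cons A (B :: Q'')).isInfix)) (List.Nodup.of_append_right hnd')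
          (hdisj hzaA) (fun hm => by
            obtain ⟨h5, h6, -⟩ := hmate _ _ hm
            have e1 : za = e a.2 := by
              have := h1.2.2.1 h5
              rw [hza] at this
              exact Option.some.inj this
            have e2 : zb = e b.1 := by
              have := h3.2.1 h6
              rw [hzb] at this
              exact Option.some.inj this
            refine ⟨a.2, by simpa using hm, e1.symm, ?_⟩
            rw [List.headD_cons, ← e2]
            exact hjn.symm)
        have h0 := dArc_le (p := p) (q := q) hpq h (z := z) (z' := zb) (l := a.1) (r := a.2)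
          (items := items) (x := x) (y := mate items a.2 b.1) h1
          (fun hx' => by
            obtain ⟨i, hi, rfl, hn⟩ := hx hx'
            obtain ⟨-, h4, -, h5, -, h6⟩ := hmate _ _ hi
            exact ⟨h4, h5, h6, hn⟩)
          (fun hy => by
            obtain ⟨h5, h6, h7, h8, h9, h10⟩ := hmate _ _ hy
            have e1 : za = e a.2 := by
              have := h1.2.2.1 h5
              rw [hza] at this
              exact Option.some.inj this
            have e2 : zb = e b.1 := by
              have := h3.2.1 h6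
              rw [hzb] at this
              exact Option.some.inj this
            refine ⟨h5, h7, by rw [e2]; exact h9, by rw [← e1]; exact hjn⟩)
          (fun _ _ hc => hz2 (hc ▸ hzbB))
          (fun hx' hy' hc => by
            obtain ⟨i, hi, -, -⟩ := hx hx'
            obtain ⟨h5, h6, -⟩ := hmate _ _ hy'
            obtain ⟨-, h7, -⟩ := hmate _ _ hi
            exact hinj _ _ h7 h5 ⟨i, Or.inr hi⟩ ⟨_, Or.inl hy'⟩ hc)
        rw [List.flatten_cons, lsum_append, lsum_append]
        simp only [dArcs]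
        omega

/-- The leaf lemma. -/
theorem leaf_core {p q c N : ℕ} (hpq : p ≤ q) {w : List ℕ} {s : St} {e : ℕ → ℕ}
    {P : List (List ℕ)} {ms : List ℕ} (hW : IsW N w) (hflat : P.flatten = w)
    (harcs : List.Forall₂ (ArcSat e) s.arcs P) (hbr : Broken P)
    (hinj : ∀ i j, 2 ≤ i → i < s.items.length → 2 ≤ j → j < s.items.length → e i = e j → i = j)
    (htyp : ∀ i, 2 ≤ i → i < s.items.length → mis N w (e i) = (entry s.items i).1)
    (hmate : ∀ i j, mate s.items i j = true → 2 ≤ i ∧ i < s.items.length ∧ 2 ≤ j ∧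
      j < s.items.length ∧ e j ∈ misSet N w (e i))
    (hle : ∀ i, 2 ≤ i → i < s.items.length → e i ≤ N)
    (hleaf : leafOK p q c s ms = true) :
    ∃ w', 1 ≤ ms.length ∧ WSteps ms.length w w' ∧
      Phi p q N w' + c * ms.length ≤ Phi p q N w := by
  unfold leafOK at hleaf
  cases hm : mvs ms s.arcs with
  | none => rw [hm] at hleaf; simp at hleaf
  | some L =>
    rw [hm] at hleaf
    simp only [Bool.and_eq_true, Bool.not_eq_true', List.isEmpty_eq_false_iff, Nat.ble_eq]
      at hleaf
    obtain ⟨hms, hdrop⟩ := hleaf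
    obtain ⟨Q, hQ, hsteps, hkeep⟩ := mvs_sound ms harcs hm
    rw [hflat] at hsteps
    have hW' : IsW N Q.flatten := hW.steps _ hsteps
    have hsub : ∀ x, misSet N Q.flatten x ⊆ misSet N w x := by
      intro x
      rw [← hflat]
      exact misSet_rearr (forall₂_ne harcs) hbr hkeep x
    have hnd : Q.flatten.Nodup := hW'.2.nodup_iff.2 List.nodup_range
    have hz : N + 1 ∉ Q.flatten := by
      rw [hW'.2.mem_iff, List.mem_range]
      omega
    have hfin := dArcs_le (p := p) (q := q) (items := s.items) hpq hsub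
      (fun i j hij => by
        obtain ⟨h1, h2, h3, h4, h5⟩ := hmate i j hij
        exact ⟨h1, h3, htyp i h1 h2, htyp j h3 h4, h5, misSet_symm (hle i h1 h2) h5⟩)
      (fun i j hi hj hki hkj hij => by
        have hlt : ∀ i, (∃ k, mate s.items i k = true ∨ mate s.items k i = true) →
            i < s.items.length := by
          rintro i ⟨k, h | h⟩
          · exact (hmate _ _ h).2.1
          · exact (hmate _ _ h).2.2.2.1
        exact hinj i j hi (hlt i hki) hj (hlt j hkj) hij)
      L Q false (N + 1) hQ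
      (fun A B hAB a b ha hb => Or.inl (pair_infix_flatten_of_junction hAB ha hb))
      hnd hz (fun h => by simp at h)
    refine ⟨Q.flatten, ?_, hsteps, ?_⟩
    · exact List.length_pos_iff.2 hms
    · rw [Phi_eq_lsum (w := Q.flatten) hW'.2, Phi_eq_lsum (w := w) hW'.2]
      omega

theorem sideOK_forall₂ {N n : ℕ} {ε : ℕ → ℕ} {L : List (ℕ × ℕ)} {P : List (List ℕ)}
    (h : List.Forall₂ (SideOK N n ε) L P) : List.Forall₂ (ArcSat ε) L P := by
  refine h.imp fun a A ⟨h1, _, _, h4, h5, h6⟩ => ⟨h1, fun h => (h4 h).2, fun h => (h5 h).2, ?_⟩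
  intro h7 h8
  rw [h6 h8 h7]
  rfl

theorem broken_of_isChain {P : List (List ℕ)} (h : P.IsChain Brk) : Broken P := by
  intro A B hAB a b ha hb
  obtain ⟨s, t, rfl⟩ := hAB
  rw [List.isChain_iff_forall_rel_of_append_cons_cons] at h
  exact h (show s ++ [A, B] ++ t = s ++ A :: B :: t by simp) a ha b hb

end LEAF

theorem specLEAF : SpecLEAF := by
  intro p q c s ms hpq hleaf N w ε As hW hS
  have hmate : ∀ i j, mate s.items i j = true → 2 ≤ i ∧ i < s.items.length ∧ 2 ≤ j ∧
      j < s.items.length ∧ ε j ∈ misSet N w (ε i) := by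
    intro i j hij
    have h2 : 2 ≤ i := hS.low i j hij
    have hij' := hij
    unfold mate at hij'
    simp only [Bool.and_eq_true, Bool.or_eq_true, Nat.ble_eq] at hij'
    obtain ⟨hj2, hj⟩ := hij'
    have hlt : i < s.items.length := by
      by_contra hc
      have : entry s.items i = (0, 0, 0) := by
        unfold entry
        rw [List.getD_eq_default _ _ (by omega)]
      rw [this] at hj
      rcases hj with h | h <;> have := Nat.eq_of_beq_eq_true h <;> simp at this <;> omega
    obtain ⟨-, -, -, -, h5, h6, -⟩ := hS.item i h2 hlt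
    rcases hj with h | h <;> have h7 := Nat.eq_of_beq_eq_true h
    · have h8 := h5 (by omega)
      rw [h7] at h8
      exact ⟨h2, hlt, h8.1, h8.2.1, h8.2.2⟩
    · have h8 := h6 (by omega)
      rw [h7] at h8
      exact ⟨h2, hlt, h8.1, h8.2.1, h8.2.2⟩
  obtain ⟨w', h1, h2, h3⟩ := LEAF.leaf_core hpq hW hS.flat (LEAF.sideOK_forall₂ hS.sides)
    (LEAF.broken_of_isChain hS.brk) hS.inj (fun i h2 hi => (hS.item i h2 hi).2.1) hmate
    (fun i h2 hi => (hS.item i h2 hi).2.2.1) hleaf
  exact ⟨_, w', h1, h2, h3⟩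

end Pool.Agent.Lib.MP29a61e
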