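import Pool.Agent.Lib.MP_29a61e_co.Sem

/-!
# LNK: adding a missing pair of items
-/

set_option autoImplicit false

namespace Pool.Agent.Lib.MP29a61e

namespace LNK

theorem nbeq {a b : ℕ} : Nat.beq a b = true ↔ a = b :=
  ⟨Nat.eq_of_beq_eq_true, fun h => h ▸ Nat.beq_refl _⟩

theorem mate_iff {items : List (ℕ × ℕ × ℕ)} {i j : ℕ} : mate items i j = true ↔
    2 ≤ j ∧ ((entry items i).2.1 = j ∨ (entry items i).2.2 = j) := by
  unfold mate
  rw [Bool.and_eq_true, Bool.or_eq_true, Nat.ble_eq, nbeq, nbeq]

theorem slot_iff {items : List (ℕ × ℕ × ℕ)} {i : ℕ} : slot items i = true ↔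
    ((entry items i).1 = 1 ∧ (entry items i).2.1 = 0) ∨
    ((entry items i).1 ≠ 1 ∧ ((entry items i).2.1 = 0 ∨ (entry items i).2.2 = 0)) := by
  unfold slot
  by_cases h : (entry items i).1 = 1
  · have h1 : Nat.beq (entry items i).1 1 = true := by rw [h]; rfl
    rw [h1, cond_true, nbeq]
    simp [h]
  · have h1 : Nat.beq (entry items i).1 1 = false := by
      rw [Bool.eq_false_iff, Ne, nbeq]
      exact h
    rw [h1, cond_false, Bool.or_eq_true, nbeq, nbeq]
    simp [h]

/-- the new entry -/
def upd (e : ℕ × ℕ × ℕ) (j : ℕ) : ℕ × ℕ × ℕ :=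
  cond (Nat.beq e.2.1 0) (e.1, j, e.2.2) (e.1, e.2.1, j)

theorem upd_zero {e : ℕ × ℕ × ℕ} {j : ℕ} (h : e.2.1 = 0) : upd e j = (e.1, j, e.2.2) := by
  unfold upd
  rw [h]
  rfl

theorem upd_ne {e : ℕ × ℕ × ℕ} {j : ℕ} (h : e.2.1 ≠ 0) : upd e j = (e.1, e.2.1, j) := by
  unfold upd
  have h1 : Nat.beq e.2.1 0 = false := by
    rw [Bool.eq_false_iff, Ne, nbeq]
    exact h
  rw [h1]
  rfl

theorem length_addM : ∀ (l : List (ℕ × ℕ × ℕ)) (i j : ℕ), (addM l i j).length = l.length
  | [], _, _ => rfl
  | (_, _, _) :: _, 0, _ => rfl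
  | x :: l, i + 1, j => by
    simp only [addM, List.length_cons, length_addM l i j]

theorem length_link (l : List (ℕ × ℕ × ℕ)) (i j : ℕ) : (link l i j).length = l.length := by
  unfold link
  rw [length_addM, length_addM]

theorem entry_addM : ∀ (l : List (ℕ × ℕ × ℕ)) (i j k : ℕ), i < l.length →
    entry (addM l i j) k = if k = i then upd (entry l k) j else entry l k
  | [], i, j, k => fun h => by simp at h
  | (t, a, b) :: l, 0, j, 0 => fun _ => rfl
  | (t, a, b) :: l, 0, j, k + 1 => fun _ => rfl
  | x :: l, i + 1, j, 0 => fun _ => rfl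
  | x :: l, i + 1, j, k + 1 => fun h => by
    have h1 : i < l.length := by simpa using h
    have h2 := entry_addM l i j k h1
    have h3 : entry (addM (x :: l) (i + 1) j) (k + 1) = entry (addM l i j) k := rfl
    have h4 : entry (x :: l) (k + 1) = entry l k := rfl
    rw [h3, h4, h2]
    by_cases hk : k = i
    · rw [if_pos hk, if_pos (by omega)]
    · rw [if_neg hk, if_neg (by omega)]

theorem entry_link {l : List (ℕ × ℕ × ℕ)} {i j : ℕ} (hi : i < l.length) (hj : j < l.length)
    (hij : i ≠ j) (k : ℕ) : entry (link l i j) k =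
    if k = i then upd (entry l k) j else if k = j then upd (entry l k) i else entry l k := by
  unfold link
  rw [entry_addM _ _ _ _ (by rw [length_addM]; exact hj), entry_addM _ _ _ _ hi]
  by_cases h1 : k = j
  · subst h1
    rw [if_pos rfl, if_neg (by omega), if_neg (by omega), if_pos rfl]
  · rw [if_neg h1, if_neg h1]

/-- the mates of the new entry -/
theorem mates_upd {t a b j l : ℕ} (hj : 2 ≤ j) (hs : (t = 1 ∧ a = 0) ∨ (t ≠ 1 ∧ (a = 0 ∨ b = 0))) :
    (2 ≤ l ∧ ((upd (t, a, b) j).2.1 = l ∨ (upd (t, a, b) j).2.2 = l)) ↔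
    (2 ≤ l ∧ (a = l ∨ b = l)) ∨ l = j := by
  by_cases ha : a = 0
  · rw [upd_zero (by exact ha)]
    simp only
    omega
  · rw [upd_ne (by exact ha)]
    simp only
    omega

/-- the new entry is correct -/
theorem item_upd {N : ℕ} {w : List ℕ} {items items' : List (ℕ × ℕ × ℕ)} {ε : ℕ → ℕ} {i j : ℕ}
    (hj : 2 ≤ j) (hjl : j < items.length) (hl : items'.length = items.length)
    (h : ItemOK N w items ε i) (hs : slot items i = true) (hm : mate items i j = false)
    (hε : ε j ∈ misSet N w (ε i)) (he : entry items' i = upd (entry items i) j) :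
    ItemOK N w items' ε i := by
  obtain ⟨h1, h2, h3, h4, h5, h6, h7⟩ := h
  have hm' : ¬ (2 ≤ j ∧ ((entry items i).2.1 = j ∨ (entry items i).2.2 = j)) := by
    rw [← mate_iff, hm]
    exact Bool.false_ne_true
  rw [slot_iff] at hs
  unfold ItemOK
  rw [he, hl]
  by_cases ha : (entry items i).2.1 = 0
  · rw [upd_zero ha]
    refine ⟨h1, h2, h3, h4, fun _ => ⟨hj, hjl, hε⟩, h6, fun _ => ?_⟩
    simp only
    omega
  · rw [upd_ne ha]
    refine ⟨h1, h2, h3, ?_, h5, fun _ => ⟨hj, hjl, hε⟩, fun _ => ?_⟩
    · simp only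
      intro h8
      omega
    · simp only
      omega

end LNK

open LNK in
theorem specLNK : SpecLNK := by
  intro N w s ε As hw hs i j hi hil hj hjl hij hmis hm hsi hsj
  have hlen := length_link s.items i j
  have he := fun k => entry_link hil hjl hij k
  have hm2 : mate s.items j i = false := by
    rw [Bool.eq_false_iff]
    intro h
    have := hs.sym j i hj hjl h
    rw [hm] at this
    exact Bool.false_ne_true this
  have hεi : ε i ≤ N := (hs.item i hi hil).2.2.1
  have hmate : ∀ k l, mate (link s.items i j) k l = true ↔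
      (mate s.items k l = true ∨ (k = i ∧ l = j) ∨ (k = j ∧ l = i)) := by
    intro k l
    rw [mate_iff, mate_iff, he k]
    by_cases hk : k = i
    · subst hk
      rw [if_pos rfl]
      have h := mates_upd (t := (entry s.items k).1) (a := (entry s.items k).2.1)
        (b := (entry s.items k).2.2) (l := l) hj (slot_iff.1 hsi)
      rw [show ((entry s.items k).1, (entry s.items k).2.1, (entry s.items k).2.2) =
        entry s.items k from rfl] at h
      rw [h]
      constructor
      · rintro (h | h)
        · exact Or.inl h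
        · exact Or.inr (Or.inl ⟨rfl, h⟩)
      · rintro (h | ⟨-, h⟩ | ⟨h, -⟩)
        · exact Or.inl h
        · exact Or.inr h
        · exact absurd h hij
    · rw [if_neg hk]
      by_cases hk2 : k = j
      · subst hk2
        rw [if_pos rfl]
        have h := mates_upd (t := (entry s.items k).1) (a := (entry s.items k).2.1)
          (b := (entry s.items k).2.2) (l := l) hi (slot_iff.1 hsj)
        rw [show ((entry s.items k).1, (entry s.items k).2.1, (entry s.items k).2.2) =
          entry s.items k from rfl] at h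
        rw [h]
        constructor
        · rintro (h | h)
          · exact Or.inl h
          · exact Or.inr (Or.inr ⟨rfl, h⟩)
        · rintro (h | ⟨h, -⟩ | ⟨-, h⟩)
          · exact Or.inl h
          · exact absurd h hk
          · exact Or.inr h
      · rw [if_neg hk2]
        constructor
        · exact fun h => Or.inl h
        · rintro (h | ⟨h, -⟩ | ⟨h, -⟩)
          · exact h
          · exact absurd h hk
          · exact absurd h hk2
  refine ⟨?_, hs.flat, ?_, hs.brk, hs.fst, hs.lst, hs.first, ?_, ?_, ?_, ?_, ?_⟩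
  · rw [hlen]
    exact hs.three
  · rw [hlen]
    exact hs.sides
  · rw [hlen]
    exact hs.inj
  · rw [hlen]
    intro k hk hkl
    by_cases h1 : k = i
    · subst h1
      refine item_upd hj hjl hlen (hs.item k hk hkl) hsi hm hmis ?_
      rw [he k, if_pos rfl]
    · by_cases h2 : k = j
      · subst h2
        refine item_upd hi hil hlen (hs.item k hk hkl) hsj hm2 (misSet_symm hεi hmis) ?_
        rw [he k, if_neg h1, if_pos rfl]
      · have h3 := hs.item k hk hkl
        unfold ItemOK at h3 ⊢
        rw [hlen, he k, if_neg h1, if_neg h2]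
        exact h3
  · rw [hlen]
    intro k l hk hkl h
    rw [hmate] at h ⊢
    rcases h with h | ⟨h1, h2⟩ | ⟨h1, h2⟩
    · exact Or.inl (hs.sym k l hk hkl h)
    · exact Or.inr (Or.inr ⟨h2, h1⟩)
    · exact Or.inr (Or.inl ⟨h2, h1⟩)
  · rw [hlen]
    exact hs.occ
  · intro k l h
    rw [hmate] at h
    rcases h with h | ⟨h1, -⟩ | ⟨h1, -⟩
    · exact hs.low k l h
    · omega
    · omega

end Pool.Agent.Lib.MP29a61e
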