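import Pool.Agent.Lib.MP_29a61e_co.Sem

/-!
# MP_29a61e_co: locating a letter
-/

set_option autoImplicit false

namespace Pool.Agent.Lib.MP29a61e.LOC

theorem vn_symm {a b : ℕ} (h : VN a b) : VN b a := by
  unfold VN at *; omega

/-- one joined value neighbour -/
theorem mis_le_one {N : ℕ} {w : List ℕ} {y c : ℕ} (h : Nbr w y c) (hv : VN y c) :
    mis N w y ≤ 1 := by
  have h1 : misSet N w y ⊆ ({y + 1, y - 1} : Finset ℕ).erase c := by
    intro z hz
    rw [Finset.mem_erase]
    refine ⟨?_, misSet_subset_pair hz⟩
    rintro rfl
    exact (mem_misSet.1 hz).2.2 h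
  have h2 : c ∈ ({y + 1, y - 1} : Finset ℕ) := by
    unfold VN at hv
    simp
    omega
  have h3 := Finset.card_le_card h1
  rw [Finset.card_erase_of_mem h2] at h3
  have h4 : ({y + 1, y - 1} : Finset ℕ).card ≤ 2 := Finset.card_le_two
  unfold mis
  omega

/-- two joined value neighbours -/
theorem mis_eq_zero {N : ℕ} {w : List ℕ} {y b c : ℕ} (hb : Nbr w y b) (hbv : VN y b)
    (hc : Nbr w y c) (hcv : VN y c) (hbc : b ≠ c) : mis N w y = 0 := by
  unfold mis
  rw [Finset.card_eq_zero, Finset.eq_empty_iff_forall_notMem]
  intro z hz
  rw [mem_misSet] at hz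
  obtain ⟨-, hz1, hz2⟩ := hz
  have : z = b ∨ z = c := by
    unfold VN at hbv hcv
    omega
  rcases this with rfl | rfl
  · exact hz2 hb
  · exact hz2 hc

/-- the letter `0` with its joined value neighbour -/
theorem mis_zero_eq {N : ℕ} {w : List ℕ} {c : ℕ} (hc : Nbr w 0 c) (hcv : VN 0 c) :
    mis N w 0 = 0 := by
  unfold mis
  rw [Finset.card_eq_zero, Finset.eq_empty_iff_forall_notMem]
  intro z hz
  rw [mem_misSet] at hz
  obtain ⟨-, hz1, hz2⟩ := hz
  have : z = c := by
    unfold VN at hcv
    omega
  exact hz2 (this ▸ hc)

/-- the letter `N` with its joined value neighbour -/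
theorem mis_last_eq {N : ℕ} {w : List ℕ} {b : ℕ} (hb : Nbr w N b) (hbv : VN N b) (hbN : b ≤ N) :
    mis N w N = 0 := by
  unfold mis
  rw [Finset.card_eq_zero, Finset.eq_empty_iff_forall_notMem]
  intro z hz
  rw [mem_misSet] at hz
  obtain ⟨hz0, hz1, hz2⟩ := hz
  have : z = b := by
    unfold VN at hbv
    omega
  exact hz2 (this ▸ hb)

/-- change of the letters of the items -/
theorem side_up {N n : ℕ} {ε : ℕ → ℕ} {a : ℕ × ℕ} {A : List ℕ} (y : ℕ)
    (h : SideOK N n ε a A) : SideOK N (n + 1) (Function.update ε n y) a A := by
  obtain ⟨h1, h2, h3, h4, h5, h6⟩ := h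
  have hu : ∀ i, i < n → Function.update ε n y i = ε i := fun i hi =>
    Function.update_of_ne (by omega) _ _
  refine ⟨h1, h2, h3, ?_, ?_, ?_⟩
  · intro h
    obtain ⟨h7, h8⟩ := h4 h
    exact ⟨by omega, by rw [hu _ h7]; exact h8⟩
  · intro h
    obtain ⟨h7, h8⟩ := h5 h
    exact ⟨by omega, by rw [hu _ h7]; exact h8⟩
  · intro h h'
    rw [hu _ (h4 h').1]
    exact h6 h h'

theorem getLast?_flatten {P : List (List ℕ)} (h : ∀ A ∈ P, A ≠ []) {B : List ℕ}
    (hB : P.getLast? = some B) : P.flatten.getLast? = B.getLast? := by
  obtain ⟨s, rfl⟩ : ∃ s, P = s ++ [B] := by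
    rw [List.getLast?_eq_some_iff] at hB
    exact hB
  have hBne : B ≠ [] := h B (by simp)
  rw [List.flatten_append]
  simp only [List.flatten_cons, List.flatten_nil, List.append_nil]
  rw [List.getLast?_append]
  obtain ⟨v, hv⟩ : ∃ v, B.getLast? = some v := by
    cases hh : B.getLast? with
    | none => rw [List.getLast?_eq_none_iff] at hh; exact absurd hh hBne
    | some v => exact ⟨v, rfl⟩
  rw [hv]
  rfl

theorem head?_flatten {P : List (List ℕ)} (h : ∀ A ∈ P, A ≠ []) {B : List ℕ}
    (hB : P.head? = some B) : P.flatten.head? = B.head? := by
  cases P with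
  | nil => simp at hB
  | cons A P =>
    simp only [List.head?_cons, Option.some.injEq] at hB
    subst hB
    obtain ⟨a, A', rfl⟩ := List.exists_cons_of_ne_nil (h A (by simp))
    simp

/-- One arc. -/
theorem one_arc {N : ℕ} {w : List ℕ} (hW : IsW N w) {n : ℕ} (hn : 3 ≤ n) (ε : ℕ → ℕ) (conv : Bool)
    {l r : ℕ} {A U V : List ℕ} (hw : w = U ++ A ++ V) (hA : SideOK N n ε (l, r) A) {y : ℕ}
    (hy : y ∈ A) (hmis : 1 ≤ mis N w y) (hit : ∀ i, 2 ≤ i → i < n → ε i ≠ y) :
    ∃ x ∈ one conv n l r, ∃ As' : List (List ℕ), As'.flatten = A ∧
      List.Forall₂ (SideOK N (n + 1) (Function.update ε n y)) x.2 As' ∧ As'.IsChain Brk ∧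
      x.1 = mis N w y ∧ inA x.2 n = true ∧ (∀ i, 2 ≤ i → (l = i ∨ r = i) → inA x.2 i = true) ∧
      (∀ a ∈ x.2.getLast?, r = 0 → a.2 = 0) := by
  have hnd : w.Nodup := hW.2.nodup_iff.2 List.nodup_range
  have hN : ∀ x ∈ w, x ≤ N := fun x hx => by
    have := hW.2.mem_iff.1 hx
    rw [List.mem_range] at this
    omega
  have hN1 : 1 ≤ N := by
    obtain ⟨⟨u, rfl⟩, hp⟩ := hW
    have := hp.length_eq
    simp at this
    omega
  have hm2 := mis_le_two N w y
  have hA' := hA
  obtain ⟨hne, hl0, hr0, hl2, hr2, hfull⟩ := hA
  simp only at hl0 hr0 hl2 hr2 hfull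
  obtain ⟨B, C, hBC⟩ := List.append_of_mem hy
  have hk : Function.update ε n y n = y := Function.update_self ..
  have hku : ∀ i, i < n → Function.update ε n y i = ε i := fun i hi =>
    Function.update_of_ne (by omega) _ _
  -- not a full arc
  have hnf : ¬ (2 ≤ l ∧ l = r) := by
    rintro ⟨h1, h2⟩
    have := hfull h2 h1
    rw [this] at hy
    simp only [List.mem_singleton] at hy
    exact hit l h1 (hl2 h1).1 hy.symm
  have hone : one conv n l r = (cond conv
      ((cond (Nat.beq r 1) [(1, [(l, n)]), (2, [(l, n)])] []) ++
        ((1, [(l, n), (1, r)]) :: (2, [(l, n), (1, r)]) ::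
          ((cond (Nat.beq l 1) [(1, [(n, r)])] []) ++ [(1, [(l, 1), (n, r)])])))
      ((cond (Nat.beq l 1) [(1, [(n, r)]), (2, [(n, r)])] []) ++
        ((1, [(l, 1), (n, r)]) :: (2, [(l, 1), (n, r)]) ::
          ((cond (Nat.beq r 1) [(1, [(l, n)])] []) ++ [(1, [(l, n), (1, r)])])))) := by
    unfold one
    have : (Nat.ble 2 l && Nat.beq l r) = false := by
      rw [Bool.eq_false_iff]
      intro hc
      simp only [Bool.and_eq_true, Nat.ble_eq] at hc
      exact hnf ⟨hc.1, Nat.eq_of_beq_eq_true hc.2⟩
    rw [this, cond_false]
  -- neighbours in the word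
  have nbrC : ∀ c C', C = c :: C' → [y, c] <:+: w := by
    rintro c C' rfl
    exact ⟨U ++ B, C' ++ V, by rw [hw, hBC]; simp⟩
  have nbrB : ∀ B' b, B = B' ++ [b] → [b, y] <:+: w := by
    rintro B' b rfl
    exact ⟨U ++ B', C ++ V, by rw [hw, hBC]; simp⟩
  have nbrBC : ∀ B' b c C', B = B' ++ [b] → C = c :: C' → b ≠ c := by
    rintro B' b c C' rfl rfl hbc
    have h1 : [b, y, c] <:+: w := ⟨U ++ B', C' ++ V, by rw [hw, hBC]; simp⟩
    have h2 := hnd.sublist h1.sublist
    rw [hbc] at h2
    simp at h2
  have lastV : ∀ c, ([c] : List ℕ).getLast? = some c := fun c => rfl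
  -- the four kinds of results
  -- R1: new item at the right side
  have R1 : C = [] → (l ≠ n) → List.Forall₂ (SideOK N (n + 1) (Function.update ε n y)) [(l, n)] [A] := by
    intro hC hln
    subst hC
    refine List.Forall₂.cons ⟨hne, hl0, fun h => by simp only at h; omega, ?_, ?_, ?_⟩
      List.Forall₂.nil
    · intro h
      obtain ⟨h7, h8⟩ := hl2 h
      exact ⟨by simp only; omega, by simp only; rw [hku _ h7]; exact h8⟩
    · intro _
      refine ⟨by simp only; omega, ?_⟩
      simp only
      rw [hk, hBC]
      simp
    · intro h
      simp only at h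
      exact absurd h hln
  -- R2: new item at the left side
  have R2 : B = [] → (r ≠ n) → List.Forall₂ (SideOK N (n + 1) (Function.update ε n y)) [(n, r)] [A] := by
    intro hB hrn
    subst hB
    refine List.Forall₂.cons ⟨hne, fun h => by simp only at h; omega, hr0, ?_, ?_, ?_⟩
      List.Forall₂.nil
    · intro _
      refine ⟨by simp only; omega, ?_⟩
      simp only
      rw [hk, hBC]
      simp
    · intro h
      obtain ⟨h7, h8⟩ := hr2 h
      exact ⟨by simp only; omega, by simp only; rw [hku _ h7]; exact h8⟩
    · intro h
      simp only at h
      exact absurd h.symm hrn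
  have hln : l ≠ n := by
    by_cases h : 2 ≤ l
    · exact fun hc => absurd (hl2 h).1 (by omega)
    · omega
  have hrn : r ≠ n := by
    by_cases h : 2 ≤ r
    · exact fun hc => absurd (hr2 h).1 (by omega)
    · omega
  -- R3: split right of `y`
  have R3 : C ≠ [] → List.Forall₂ (SideOK N (n + 1) (Function.update ε n y)) [(l, n), (1, r)]
      [B ++ [y], C] := by
    intro hC
    refine List.Forall₂.cons ⟨by simp, ?_, fun h => by simp only at h; omega, ?_, ?_, ?_⟩
      (List.Forall₂.cons ⟨hC, fun h => by simp only at h; omega, ?_, fun h => by simp only at h; omega,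
        ?_, ?_⟩ List.Forall₂.nil)
    · intro h
      have := hl0 h
      rw [hBC] at this
      cases B <;> simpa using this
    · intro h
      obtain ⟨h7, h8⟩ := hl2 h
      refine ⟨by simp only; omega, ?_⟩
      simp only
      rw [hku _ h7]
      rw [hBC] at h8
      cases B <;> simpa using h8
    · intro _
      refine ⟨by simp only; omega, ?_⟩
      simp only
      rw [hk]
      simp
    · intro h
      simp only at h
      exact absurd h hln
    · intro h
      have := hr0 h
      rw [hBC] at this
      obtain ⟨c, C', rfl⟩ := List.exists_cons_of_ne_nil hC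
      rw [List.getLast?_append, List.getLast?_cons_cons] at this
      obtain ⟨v, hv⟩ : ∃ v, (c :: C').getLast? = some v := by
        cases hh : (c :: C').getLast? with
        | none => simp at hh
        | some v => exact ⟨v, rfl⟩
      rw [hv] at this ⊢
      simpa using this
    · intro h
      obtain ⟨h7, h8⟩ := hr2 h
      refine ⟨by simp only; omega, ?_⟩
      simp only
      rw [hku _ h7]
      rw [hBC] at h8
      obtain ⟨c, C', rfl⟩ := List.exists_cons_of_ne_nil hC
      rw [List.getLast?_append, List.getLast?_cons_cons] at h8
      obtain ⟨v, hv⟩ : ∃ v, (c :: C').getLast? = some v := by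
        cases hh : (c :: C').getLast? with
        | none => simp at hh
        | some v => exact ⟨v, rfl⟩
      rw [hv] at h8 ⊢
      simpa using h8
    · intro h h'
      simp only at h h'
      omega
  -- R4: split left of `y`
  have R4 : B ≠ [] → List.Forall₂ (SideOK N (n + 1) (Function.update ε n y)) [(l, 1), (n, r)]
      [B, y :: C] := by
    intro hB
    obtain ⟨b0, B', rfl⟩ := List.exists_cons_of_ne_nil hB
    have hgl : ∀ v, A.getLast? = some v → (y :: C).getLast? = some v := by
      intro v hv
      rw [hBC, List.getLast?_append] at hv
      obtain ⟨v', hv'⟩ : ∃ v', (y :: C).getLast? = some v' := by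
        cases hh : (y :: C).getLast? with
        | none => simp at hh
        | some v => exact ⟨v, rfl⟩
      rw [hv'] at hv ⊢
      simpa using hv
    refine List.Forall₂.cons ⟨hB, ?_, fun h => by simp only at h; omega, ?_,
      fun h => by simp only at h; omega, ?_⟩
      (List.Forall₂.cons ⟨by simp, fun h => by simp only at h; omega, ?_, ?_, ?_, ?_⟩
        List.Forall₂.nil)
    · intro h
      have := hl0 h
      rw [hBC] at this
      simpa using this
    · intro h
      obtain ⟨h7, h8⟩ := hl2 h
      refine ⟨by simp only; omega, ?_⟩
      simp only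
      rw [hku _ h7]
      rw [hBC] at h8
      simpa using h8
    · intro h h'
      simp only at h h'
      omega
    · intro h
      exact hgl _ (hr0 h)
    · intro _
      refine ⟨by simp only; omega, ?_⟩
      simp only
      rw [hk]
      simp
    · intro h
      obtain ⟨h7, h8⟩ := hr2 h
      refine ⟨by simp only; omega, ?_⟩
      simp only
      rw [hku _ h7]
      exact hgl _ h8
    · intro h
      simp only at h
      exact absurd h.symm hrn
  have chain1 : List.IsChain Brk [A] := List.IsChain.singleton _
  have chain3 : ∀ c C', C = c :: C' → ¬ VN y c → List.IsChain Brk [B ++ [y], C] := by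
    rintro c C' rfl hv
    rw [List.isChain_pair]
    intro x hx z hz
    simp only [List.getLast?_append, List.getLast?_singleton, Option.some_or, Option.mem_def,
      Option.some.injEq, List.head?_cons] at hx hz
    rw [← hx, ← hz]
    exact hv
  have chain4 : ∀ B' b, B = B' ++ [b] → ¬ VN b y → List.IsChain Brk [B, y :: C] := by
    rintro B' b rfl hv
    rw [List.isChain_pair]
    intro x hx z hz
    simp only [List.getLast?_append, List.getLast?_singleton, Option.some_or, Option.mem_def,
      Option.some.injEq, List.head?_cons] at hx hz
    rw [← hx, ← hz]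
    exact hv
  have snocB : B ≠ [] → ∃ B' b, B = B' ++ [b] := fun h =>
    ⟨B.dropLast, B.getLast h, (List.dropLast_append_getLast h).symm⟩
  have consC : C ≠ [] → ∃ c C', C = c :: C' := fun h => List.exists_cons_of_ne_nil h
  -- sides are not other items
  have hBnil : B = [] → l ≤ 1 := by
    intro h
    by_contra hc
    obtain ⟨h7, h8⟩ := hl2 (by omega)
    rw [hBC, h] at h8
    simp only [List.nil_append, List.head?_cons, Option.some.injEq] at h8
    exact hit l (by omega) h7 h8.symm
  have hCnil : C = [] → r ≤ 1 := by
    intro h
    by_contra hc
    obtain ⟨h7, h8⟩ := hr2 (by omega)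
    rw [hBC, h] at h8
    simp at h8
    exact hit r (by omega) h7 h8.symm
  have hB0 : B = [] → l = 0 → y = 0 := by
    intro h h'
    have := hl0 h'
    rw [hBC, h] at this
    simpa using this
  have hC0 : C = [] → r = 0 → y = N := by
    intro h h'
    have := hr0 h'
    rw [hBC, h] at this
    simpa using this
  have hmisN : y = N → mis N w y = 1 := by
    intro h
    have := mis_last_le N w
    rw [h] at hmis ⊢
    omega
  have hmis0 : y = 0 → mis N w y = 1 := by
    intro h
    have := mis_zero_le N w
    rw [h] at hmis ⊢
    omega
  have hmC : ∀ c C', C = c :: C' → VN y c → mis N w y = 1 := by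
    intro c C' h hv
    have := mis_le_one (N := N) (Or.inl (nbrC c C' h)) hv
    omega
  have hmB : ∀ B' b, B = B' ++ [b] → VN b y → mis N w y = 1 := by
    intro B' b h hv
    have := mis_le_one (N := N) (Nbr.symm (Or.inl (nbrB B' b h))) (vn_symm hv)
    omega
  have hflA : [A].flatten = A := by simp
  have hfl3 : [B ++ [y], C].flatten = A := by rw [hBC]; simp
  have hfl4 : [B, y :: C].flatten = A := by rw [hBC]; simp
  rw [hone]
  cases conv with
  | true =>
    simp only [cond_true]
    by_cases hC : C = []
    · have hr1 := hCnil hC
      by_cases hr : r = 1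
      · subst hr
        refine ⟨(mis N w y, [(l, n)]), ?_, [A], hflA, R1 hC hln, chain1, rfl, ?_, ?_, ?_⟩
        · rcases (by omega : mis N w y = 1 ∨ mis N w y = 2) with h | h <;> rw [h] <;> simp
        · simp [inA]
        · intro i hi hli
          rcases hli with h | h
          · subst h; simp [inA]
          · omega
        · intro a _ h; omega
      · have hr' : r = 0 := by omega
        have hyN := hC0 hC hr'
        by_cases hB : B = []
        · have hl1 := hBnil hB
          have hl' : l = 1 := by
            by_contra hc
            have := hB0 hB (by omega)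
            omega
          subst hl'
          refine ⟨(1, [(n, r)]), ?_, [A], hflA, R2 hB hrn, chain1, (hmisN hyN).symm, ?_, ?_, ?_⟩
          · simp
          · simp [inA]
          · intro i hi hli
            omega
          · intro a ha h
            simp at ha
            rw [← ha]
            exact h
        · obtain ⟨B', b, hBb⟩ := snocB hB
          have hnv : ¬ VN b y := by
            intro hv
            have h1 : Nbr w y b := Nbr.symm (Or.inl (nbrB B' b hBb))
            have h2 : b ≤ N := hN b ((nbrB B' b hBb).subset (by simp))
            have h3 := mis_last_eq (N := N) (w := w) (b := b) (hyN ▸ h1) (hyN ▸ vn_symm hv) h2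
            rw [hyN] at hmis
            omega
          refine ⟨(1, [(l, 1), (n, r)]), ?_, [B, y :: C], hfl4, R4 hB, chain4 B' b hBb hnv,
            (hmisN hyN).symm, ?_, ?_, ?_⟩
          · simp
          · simp [inA]
          · intro i hi hli
            rcases hli with h | h
            · subst h; simp [inA]
            · omega
          · intro a ha h
            simp at ha
            rw [← ha]
            exact h
    · obtain ⟨c, C', hCc⟩ := consC hC
      by_cases hv : VN y c
      · have hm1 := hmC c C' hCc hv
        have hnc : Nbr w y c := Or.inl (nbrC c C' hCc)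
        by_cases hB : B = []
        · have hl1 := hBnil hB
          have hl' : l = 1 := by
            by_contra hc
            have h0 := hB0 hB (by omega)
            have h3 := mis_zero_eq (N := N) (w := w) (c := c) (h0 ▸ hnc) (h0 ▸ hv)
            rw [h0] at hmis
            omega
          subst hl'
          refine ⟨(1, [(n, r)]), ?_, [A], hflA, R2 hB hrn, chain1, hm1.symm, ?_, ?_, ?_⟩
          · simp
          · simp [inA]
          · intro i hi hli
            rcases hli with h | h
            · omega
            · subst h; simp [inA]
          · intro a ha h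
            simp at ha
            rw [← ha]
            exact h
        · obtain ⟨B', b, hBb⟩ := snocB hB
          have hnv : ¬ VN b y := by
            intro hv'
            have h1 : Nbr w y b := Nbr.symm (Or.inl (nbrB B' b hBb))
            have h3 := mis_eq_zero (N := N) h1 (vn_symm hv') hnc hv (nbrBC B' b c C' hBb hCc)
            omega
          refine ⟨(1, [(l, 1), (n, r)]), ?_, [B, y :: C], hfl4, R4 hB, chain4 B' b hBb hnv,
            hm1.symm, ?_, ?_, ?_⟩
          · simp
          · simp [inA]
          · intro i hi hli
            rcases hli with h | h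
            · subst h; simp [inA]
            · subst h; simp [inA]
          · intro a ha h
            simp at ha
            rw [← ha]
            exact h
      · refine ⟨(mis N w y, [(l, n), (1, r)]), ?_, [B ++ [y], C], hfl3, R3 hC,
          chain3 c C' hCc hv, rfl, ?_, ?_, ?_⟩
        · rcases (by omega : mis N w y = 1 ∨ mis N w y = 2) with h | h <;> rw [h] <;> simp
        · simp [inA]
        · intro i hi hli
          rcases hli with h | h
          · subst h; simp [inA]
          · subst h; simp [inA]
        · intro a ha h
          simp at ha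
          rw [← ha]
          exact h
  | false =>
    simp only [cond_false]
    by_cases hB : B = []
    · have hl1 := hBnil hB
      by_cases hl : l = 1
      · subst hl
        refine ⟨(mis N w y, [(n, r)]), ?_, [A], hflA, R2 hB hrn, chain1, rfl, ?_, ?_, ?_⟩
        · rcases (by omega : mis N w y = 1 ∨ mis N w y = 2) with h | h <;> rw [h] <;> simp
        · simp [inA]
        · intro i hi hli
          rcases hli with h | h
          · omega
          · subst h; simp [inA]
        · intro a ha h
          simp at ha
          rw [← ha]
          exact h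
      · have hl' : l = 0 := by omega
        have hy0 := hB0 hB hl'
        by_cases hC : C = []
        · have hr1 := hCnil hC
          have hr' : r = 1 := by
            by_contra hc
            have := hC0 hC (by omega)
            omega
          subst hr'
          refine ⟨(1, [(l, n)]), ?_, [A], hflA, R1 hC hln, chain1, (hmis0 hy0).symm, ?_, ?_, ?_⟩
          · simp
          · simp [inA]
          · intro i hi hli
            omega
          · intro a ha h
            omega
        · obtain ⟨c, C', hCc⟩ := consC hC
          have hnv : ¬ VN y c := by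
            intro hv
            have hnc : Nbr w y c := Or.inl (nbrC c C' hCc)
            have h3 := mis_zero_eq (N := N) (w := w) (c := c) (hy0 ▸ hnc) (hy0 ▸ hv)
            rw [hy0] at hmis
            omega
          refine ⟨(1, [(l, n), (1, r)]), ?_, [B ++ [y], C], hfl3, R3 hC,
            chain3 c C' hCc hnv, (hmis0 hy0).symm, ?_, ?_, ?_⟩
          · simp
          · simp [inA]
          · intro i hi hli
            rcases hli with h | h
            · omega
            · subst h; simp [inA]
          · intro a ha h
            simp at ha
            rw [← ha]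
            exact h
    · obtain ⟨B', b, hBb⟩ := snocB hB
      by_cases hv : VN b y
      · have hm1 := hmB B' b hBb hv
        have hnb : Nbr w y b := Nbr.symm (Or.inl (nbrB B' b hBb))
        by_cases hC : C = []
        · have hr1 := hCnil hC
          have hr' : r = 1 := by
            by_contra hc
            have hyN := hC0 hC (by omega)
            have h2 : b ≤ N := hN b ((nbrB B' b hBb).subset (by simp))
            have h3 := mis_last_eq (N := N) (w := w) (b := b) (hyN ▸ hnb) (hyN ▸ vn_symm hv) h2
            rw [hyN] at hmis
            omega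
          subst hr'
          refine ⟨(1, [(l, n)]), ?_, [A], hflA, R1 hC hln, chain1, hm1.symm, ?_, ?_, ?_⟩
          · simp
          · simp [inA]
          · intro i hi hli
            rcases hli with h | h
            · subst h; simp [inA]
            · omega
          · intro a ha h
            omega
        · obtain ⟨c, C', hCc⟩ := consC hC
          have hnv : ¬ VN y c := by
            intro hv'
            have hnc : Nbr w y c := Or.inl (nbrC c C' hCc)
            have h3 := mis_eq_zero (N := N) hnb (vn_symm hv) hnc hv' (nbrBC B' b c C' hBb hCc)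
            omega
          refine ⟨(1, [(l, n), (1, r)]), ?_, [B ++ [y], C], hfl3, R3 hC,
            chain3 c C' hCc hnv, hm1.symm, ?_, ?_, ?_⟩
          · simp
          · simp [inA]
          · intro i hi hli
            rcases hli with h | h
            · subst h; simp [inA]
            · subst h; simp [inA]
          · intro a ha h
            simp at ha
            rw [← ha]
            exact h
      · refine ⟨(mis N w y, [(l, 1), (n, r)]), ?_, [B, y :: C], hfl4, R4 hB,
          chain4 B' b hBb hv, rfl, ?_, ?_, ?_⟩
        · rcases (by omega : mis N w y = 1 ∨ mis N w y = 2) with h | h <;> rw [h] <;> simp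
        · simp [inA]
        · intro i hi hli
          rcases hli with h | h
          · subst h; simp [inA]
          · subst h; simp [inA]
        · intro a ha h
          simp at ha
          rw [← ha]
          exact h

theorem forall₂_ne' {N n : ℕ} {ε : ℕ → ℕ} {L : List (ℕ × ℕ)} {P : List (List ℕ)}
    (h : List.Forall₂ (SideOK N n ε) L P) : ∀ A ∈ P, A ≠ [] := by
  induction h with
  | nil => simp
  | cons h1 _ ih =>
    intro A hA
    rcases List.mem_cons.1 hA with rfl | hA
    · exact h1.1
    · exact ih A hA

theorem inA_append {L M : List (ℕ × ℕ)} {i : ℕ} : inA (L ++ M) i = (inA L i || inA M i) := by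
  simp [inA]

theorem inA_cons {a : ℕ × ℕ} {L : List (ℕ × ℕ)} {i : ℕ} :
    inA (a :: L) i = true ↔ (a.1 = i ∨ a.2 = i) ∨ inA L i = true := by
  simp [inA]

/-- the list version -/
theorem loc_list {N : ℕ} {w : List ℕ} (hW : IsW N w) {n : ℕ} (hn : 3 ≤ n) (ε : ℕ → ℕ) (conv : Bool)
    {y : ℕ} (hmis : 1 ≤ mis N w y) (hit : ∀ i, 2 ≤ i → i < n → ε i ≠ y) :
    ∀ (as : List (ℕ × ℕ)) (As : List (List ℕ)) (U V : List ℕ), w = U ++ As.flatten ++ V →
      List.Forall₂ (SideOK N n ε) as As → As.IsChain Brk → y ∈ As.flatten →
      ∃ x ∈ locA conv n as, ∃ As' : List (List ℕ), As'.flatten = As.flatten ∧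
        List.Forall₂ (SideOK N (n + 1) (Function.update ε n y)) x.2 As' ∧ As'.IsChain Brk ∧
        x.1 = mis N w y ∧ inA x.2 n = true ∧ (∀ i, 2 ≤ i → inA as i = true → inA x.2 i = true) ∧
        (∀ a ∈ x.2.getLast?, ∀ b ∈ as.getLast?, b.2 = 0 → a.2 = 0)
  | [], As, U, V, hw, hF, hch, hy => by
    cases hF
    simp at hy
  | (l, r) :: as, As, U, V, hw, hF, hch, hy => by
    cases hF with
    | @cons _ A _ As₀ h1 h2 =>
      rw [List.flatten_cons] at hw hy
      have hne₀ := forall₂_ne' h2
      have hch₀ : As₀.IsChain Brk := List.IsChain.tail hch
      have hup : List.Forall₂ (SideOK N (n + 1) (Function.update ε n y)) as As₀ :=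
        h2.imp fun a B h => side_up y h
      rcases List.mem_append.1 hy with hyA | hyR
      · obtain ⟨x, hx, As', hfl, hF', hch', hx1, hx2, hx3, hx4⟩ :=
          one_arc (U := U) (V := As₀.flatten ++ V) hW hn ε conv (by rw [hw]; simp) h1 hyA hmis hit
        have hne' := forall₂_ne' hF'
        refine ⟨(x.1, x.2 ++ as), ?_, As' ++ As₀, ?_, ?_, ?_, hx1, ?_, ?_, ?_⟩
        · unfold locA
          rw [List.mem_append]
          left
          rw [List.mem_map]
          exact ⟨x, hx, rfl⟩
        · rw [List.flatten_append, hfl, List.flatten_cons]
        · exact List.rel_append hF' hup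
        · rw [List.isChain_append]
          refine ⟨hch', hch₀, ?_⟩
          intro B hB D hD a ha b hb
          have h5 := getLast?_flatten hne' hB
          rw [hfl] at h5
          cases As₀ with
          | nil => simp at hD
          | cons D' As₁ =>
            simp only [List.head?_cons, Option.mem_def, Option.some.injEq] at hD
            subst hD
            have h6 := (List.isChain_cons_cons.1 hch).1
            exact h6 a (by rw [h5]; exact ha) b hb
        · simp only [inA_append, hx2, Bool.true_or]
        · intro i hi hin
          rw [inA_cons] at hin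
          simp only [inA_append, Bool.or_eq_true]
          rcases hin with h | h
          · exact Or.inl (hx3 i hi h)
          · exact Or.inr h
        · intro a ha b hb hb0
          simp only at ha
          cases as with
          | nil =>
            simp only [List.append_nil, List.getLast?_singleton, Option.mem_def,
              Option.some.injEq] at ha hb
            subst hb
            exact hx4 a ha hb0
          | cons c as =>
            rw [List.getLast?_append] at ha
            rw [List.getLast?_cons_cons] at hb
            obtain ⟨v, hv⟩ : ∃ v, (c :: as).getLast? = some v := by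
              cases hh : (c :: as).getLast? with
              | none => simp at hh
              | some v => exact ⟨v, rfl⟩
            rw [hv] at ha hb
            simp only [Option.some_or, Option.mem_def, Option.some.injEq] at ha hb
            rw [← ha, hb]
            exact hb0
      · obtain ⟨x, hx, As', hfl, hF', hch', hx1, hx2, hx3, hx4⟩ :=
          loc_list hW hn ε conv hmis hit as As₀ (U ++ A) V (by rw [hw]; simp) h2 hch₀ hyR
        have hne' := forall₂_ne' hF'
        refine ⟨(x.1, (l, r) :: x.2), ?_, A :: As', ?_, ?_, ?_, hx1, ?_, ?_, ?_⟩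
        · unfold locA
          rw [List.mem_append]
          right
          rw [List.mem_map]
          exact ⟨x, hx, rfl⟩
        · rw [List.flatten_cons, hfl, List.flatten_cons]
        · exact List.Forall₂.cons (side_up y h1) hF'
        · cases As' with
          | nil => exact List.IsChain.singleton _
          | cons D' As₁' =>
            rw [List.isChain_cons_cons]
            refine ⟨?_, hch'⟩
            intro a ha b hb
            have h5 := head?_flatten hne' (B := D') rfl
            rw [hfl] at h5
            cases As₀ with
            | nil => simp at hyR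
            | cons D As₁ =>
              have h6 := head?_flatten hne₀ (B := D) rfl
              have h7 := (List.isChain_cons_cons.1 hch).1
              exact h7 a ha b (by rw [← h6, h5]; exact hb)
        · rw [inA_cons]
          exact Or.inr hx2
        · intro i hi hin
          rw [inA_cons] at hin ⊢
          rcases hin with h | h
          · exact Or.inl h
          · exact Or.inr (hx3 i hi h)
        · intro a ha b hb hb0
          simp only at ha
          cases as with
          | nil =>
            cases h2
            simp at hyR
          | cons c as =>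
            rw [List.getLast?_cons_cons] at hb
            cases hx2' : x.2 with
            | nil =>
              rw [hx2'] at hx2
              simp [inA] at hx2
            | cons d x2 =>
              rw [hx2', List.getLast?_cons_cons] at ha
              exact hx4 a (by rw [hx2']; exact ha) b hb hb0

end LOC

theorem specLOC : SpecLOC := by
  intro N w hW n hn ε conv as As U V hw hF hch y hy hmis hit
  exact LOC.loc_list hW hn ε conv hmis hit as As U V hw hF hch hy

end Pool.Agent.Lib.MP29a61e
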