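import Pool.Agent.Lib.MP_29a61e_co.Sem

/-!
# MMX: two missing pairs at the border of a block
-/

set_option autoImplicit false

namespace Pool.Agent.Lib.MP29a61e

namespace MMX

theorem nodup {N : ℕ} {w : List ℕ} (hw : IsW N w) : w.Nodup :=
  hw.2.nodup_iff.2 List.nodup_range

theorem mem_iff {N : ℕ} {w : List ℕ} (hw : IsW N w) (x : ℕ) : x ∈ w ↔ x ≤ N := by
  rw [hw.2.mem_iff, List.mem_range]
  omega

/-- the position of a letter is unique -/
theorem pos_unique {a : ℕ} : ∀ {A B C D : List ℕ}, (A ++ a :: B).Nodup →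
    A ++ a :: B = C ++ a :: D → A = C ∧ B = D
  | [], B, [], D, _, h => by
    simp only [List.nil_append, List.cons.injEq, true_and] at h
    exact ⟨rfl, h⟩
  | [], B, c :: C, D, hn, h => by
    simp only [List.nil_append, List.cons_append, List.cons.injEq] at h
    obtain ⟨rfl, h2⟩ := h
    rw [List.nil_append, List.nodup_cons] at hn
    exact absurd (h2 ▸ List.mem_append_right _ List.mem_cons_self) hn.1
  | x :: A, B, [], D, hn, h => by
    simp only [List.nil_append, List.cons_append, List.cons.injEq] at h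
    obtain ⟨rfl, h2⟩ := h
    rw [List.cons_append, List.nodup_cons] at hn
    exact absurd (List.mem_append_right _ List.mem_cons_self) hn.1
  | x :: A, B, c :: C, D, hn, h => by
    simp only [List.cons_append, List.cons.injEq] at h
    obtain ⟨rfl, h2⟩ := h
    rw [List.cons_append, List.nodup_cons] at hn
    obtain ⟨h3, h4⟩ := pos_unique hn.2 h2
    exact ⟨by rw [h3], h4⟩

/-- a neighbour to the right, outside the block -/
theorem right {U X V : List ℕ} (hn : (U ++ X ++ V).Nodup) {a b : ℕ} (ha : a ∈ X) (hb : b ∉ X)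
    (h : [a, b] <:+: U ++ X ++ V) : X.getLast? = some a ∧ V.head? = some b := by
  obtain ⟨S, T, hST⟩ := h
  obtain ⟨X1, X2, rfl⟩ := List.append_of_mem ha
  have h1 : (U ++ X1) ++ a :: (X2 ++ V) = S ++ a :: (b :: T) := by
    rw [← List.append_assoc, List.append_assoc _ (a :: X2)] at hST
    simpa using hST.symm
  have h2 : ((U ++ X1) ++ a :: (X2 ++ V)).Nodup := by
    simpa using hn
  obtain ⟨-, h3⟩ := pos_unique h2 h1
  rcases X2 with _ | ⟨c, X2⟩
  · rw [List.nil_append] at h3
    rw [h3]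
    exact ⟨by simp, rfl⟩
  · rw [List.cons_append, List.cons.injEq] at h3
    exact absurd (by simp [h3.1]) hb

/-- a neighbour to the left, outside the block -/
theorem left {U X V : List ℕ} (hn : (U ++ X ++ V).Nodup) {a b : ℕ} (ha : a ∈ X) (hb : b ∉ X)
    (h : [b, a] <:+: U ++ X ++ V) : U.getLast? = some b ∧ X.head? = some a := by
  obtain ⟨S, T, hST⟩ := h
  obtain ⟨X1, X2, rfl⟩ := List.append_of_mem ha
  have h1 : (U ++ X1) ++ a :: (X2 ++ V) = (S ++ [b]) ++ a :: T := by
    simpa using hST.symm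
  have h2 : ((U ++ X1) ++ a :: (X2 ++ V)).Nodup := by
    simpa using hn
  obtain ⟨h3, -⟩ := pos_unique h2 h1
  rcases List.eq_nil_or_concat X1 with rfl | ⟨X1', c, rfl⟩
  · rw [List.append_nil] at h3
    rw [h3]
    exact ⟨by simp, rfl⟩
  · rw [List.concat_eq_append, ← List.append_assoc] at h3
    have h4 := (List.append_inj' h3 rfl).2
    rw [List.cons.injEq] at h4
    exact absurd (by simp [h4.1]) hb

/-- a letter of the block and a value neighbour outside the block are not neighbours -/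
theorem not_nbr {U X V : List ℕ} (hn : (U ++ X ++ V).Nodup) (h1 : Brk U X) (h2 : Brk X V) {a b : ℕ}
    (ha : a ∈ X) (hb : b ∉ X) (hv : VN a b) : ¬ Nbr (U ++ X ++ V) a b := by
  rintro (h | h)
  · obtain ⟨h3, h4⟩ := right hn ha hb h
    exact h2 a (by rw [h3]; rfl) b (by rw [h4]; rfl) hv
  · obtain ⟨h3, h4⟩ := left hn ha hb h
    exact h1 b (by rw [h3]; rfl) a (by rw [h4]; rfl) hv.symm

end MMX

open MMX in
/-- MMX. -/
theorem specMMX : SpecMMX := by
  intro N w U X V hw hUX hU hX hV h1 h2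
  have hn : (U ++ X ++ V).Nodup := hUX ▸ nodup hw
  have hle : ∀ x ∈ X, x ≤ N := fun x hx => (mem_iff hw x).1 (by rw [hUX]; simp [hx])
  obtain ⟨⟨u, hu⟩, -⟩ := hw
  rw [hUX] at hu
  obtain ⟨U', V', hU', hV', -⟩ := frame_split hU hV hu.symm
  have h0 : 0 ∉ X := by
    intro h
    rw [hU', List.append_assoc] at hn
    have := List.disjoint_of_nodup_append hn (List.mem_cons_self : 0 ∈ 0 :: U')
    exact this (by simp [h])
  have hN : N ∉ X := by
    intro h
    rw [hV'] at hn
    have := List.disjoint_of_nodup_append hn (List.mem_append_right U h)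
    exact this (by simp)
  have hne : X.toFinset.Nonempty := by
    obtain ⟨a, X', rfl⟩ := List.exists_cons_of_ne_nil hX
    exact ⟨a, by simp⟩
  have hmin : X.toFinset.min' hne ∈ X := List.mem_toFinset.1 (Finset.min'_mem _ _)
  have hmax : X.toFinset.max' hne ∈ X := List.mem_toFinset.1 (Finset.max'_mem _ _)
  have hmin' : ∀ y ∈ X, X.toFinset.min' hne ≤ y := fun y hy =>
    Finset.min'_le _ _ (List.mem_toFinset.2 hy)
  have hmax' : ∀ y ∈ X, y ≤ X.toFinset.max' hne := fun y hy =>
    Finset.le_max' _ _ (List.mem_toFinset.2 hy)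
  generalize X.toFinset.min' hne = x₀ at hmin hmin'
  generalize X.toFinset.max' hne = x₁ at hmax hmax'
  have hx0 : x₀ ≠ 0 := fun h => h0 (h ▸ hmin)
  have hx1 : x₁ ≠ N := fun h => hN (h ▸ hmax)
  have hx1' := hle x₁ hmax
  have hx0' := hle x₀ hmin
  have hy0 : x₀ - 1 ∉ X := fun h => by
    have := hmin' _ h
    omega
  have hy1 : x₁ + 1 ∉ X := fun h => by
    have := hmax' _ h
    omega
  refine ⟨x₀, hmin, x₁, hmax, x₀ - 1, by omega, hy0, ?_, hy1, ?_⟩
  · rw [mem_misSet, hUX]
    exact ⟨by omega, Or.inr (by omega), not_nbr hn h1 h2 hmin hy0 (Or.inr (by omega))⟩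
  · rw [mem_misSet, hUX]
    exact ⟨by omega, Or.inl rfl, not_nbr hn h1 h2 hmax hy1 (Or.inl rfl)⟩

end Pool.Agent.Lib.MP29a61e
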