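import Pool.Agent.Lib.MP_29a61e_co.INS

/-!
# MP_29a61e_co: the other end of a missing pair (OUT)
-/

set_option autoImplicit false

namespace Pool.Agent.Lib.MP29a61e

namespace OUT

open INS

theorem inA_mem {N n : ℕ} {ε : ℕ → ℕ} {as : List (ℕ × ℕ)} {As : List (List ℕ)}
    (h : List.Forall₂ (SideOK N n ε) as As) {j : ℕ} (hj : 2 ≤ j) (hin : inA as j = true) :
    ε j ∈ As.flatten := by
  induction h with
  | nil => simp [inA] at hin
  | @cons a A as As h1 _ ih =>
    rw [List.flatten_cons, List.mem_append]
    unfold inA at hin
    rw [List.any_cons, Bool.or_eq_true, Bool.or_eq_true, Nat.beq_eq, Nat.beq_eq] at hin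
    obtain ⟨-, -, -, h4, h5, -⟩ := h1
    rcases hin with (hin | hin) | hin
    · left
      have h6 := (h4 (by omega)).2
      rw [hin] at h6
      exact List.mem_of_mem_head? h6
    · left
      have h6 := (h5 (by omega)).2
      rw [hin] at h6
      exact List.mem_of_mem_getLast? h6
    · right
      exact ih hin

end OUT

open INS OUT in
theorem specOUT (hSLT : SpecSLT) (hLNK : SpecLNK) (hINS : SpecINS) : SpecOUT := by
  intro N w ε As conv i a pre mid post items hW hS hi2 hi y hy hym hymid
  have hiN : ε i ≤ N := (hS.item i hi2 hi).2.2.1
  have hiy : ε i ∈ misSet N w y := misSet_symm hiN hy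
  have hmis : 1 ≤ mis N w y := Finset.card_pos.2 ⟨_, hiy⟩
  have hslot : slot items i = true := (hSLT N w _ ε As hW hS i hi2 hi).2 y hy hym
  have hthree : 3 ≤ items.length := hS.three
  have hsides : List.Forall₂ (SideOK N items.length ε) (a :: pre ++ mid ++ post) As := hS.sides
  obtain ⟨AX, AQ, rfl, hX, hQ⟩ := GLUE.split hsides
  obtain ⟨A1, AM, rfl, h1, hM⟩ := GLUE.split hX
  obtain ⟨A0, AP, hA0, hP, rfl⟩ := List.forall₂_cons_left_iff.1 h1
  have lP : pre.length = AP.length := hP.length_eq
  have lM : mid.length = AM.length := hM.length_eq
  have lQ : post.length = AQ.length := hQ.length_eq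
  have e1 : (A0 :: AP ++ AM ++ AQ).drop (pre.length + 1) = AM ++ AQ := by
    rw [lP, show A0 :: AP ++ AM ++ AQ = (A0 :: AP) ++ (AM ++ AQ) by simp,
      show AP.length + 1 = (A0 :: AP).length by simp, List.drop_left]
  rw [e1, lM, List.take_left] at hymid
  by_cases hex : ∃ j, 2 ≤ j ∧ j < items.length ∧ ε j = y
  · obtain ⟨j, hj2, hj, rfl⟩ := hex
    have hij : i ≠ j := by
      rintro rfl
      rw [mem_misSet] at hy
      omega
    have hm : mate items i j = false := by
      rw [← Bool.not_eq_true]
      intro h
      exact hym j h rfl
    have hsj : slot items j = true := by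
      refine (hSLT N w _ ε _ hW hS j hj2 hj).2 (ε i) hiy ?_
      intro k hk hki
      have hk2 := mate_lt (hS.item j hj2 hj) hk
      have hki' : k = i := hS.inj k i hk2.1 hk2.2 hi2 hi hki
      subst hki'
      exact hym j (hS.sym j k hj2 hj hk) rfl
    have hin : inA mid j = false := by
      rw [← Bool.not_eq_true]
      intro h
      exact hymid (inA_mem hM hj2 h)
    refine ⟨⟨a :: pre ++ mid ++ post, link items i j⟩, ?_, ε, _,
      hLNK N w _ ε _ hW hS i j hi2 hi hj2 hj hij hy hm hslot hsj⟩
    unfold outer
    rw [List.mem_append]
    left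
    rw [List.mem_map]
    refine ⟨link items i j, ?_, rfl⟩
    unfold exist
    rw [List.mem_map]
    refine ⟨j, ?_, rfl⟩
    rw [List.mem_filter, List.mem_range]
    refine ⟨hj, ?_⟩
    change (Nat.ble 2 j && !(Nat.beq j i) && !(mate items i j) && (slot items j) &&
      !(inA mid j)) = true
    rw [hm, hsj, hin, Nat.ble_eq_true_of_le hj2]
    have hb : Nat.beq j i = false := by
      rw [← Bool.not_eq_true, Nat.beq_eq]
      exact fun h => hij h.symm
    rw [hb]
    rfl
  · have hne : ∀ j, 2 ≤ j → j < items.length → ε j ≠ y := fun j h2 h3 h4 => hex ⟨j, h2, h3, h4⟩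
    have hyw : y ∈ (A0 :: AP ++ AM ++ AQ).flatten := by
      rw [show (A0 :: AP ++ AM ++ AQ).flatten = w from hS.flat]
      rw [hW.2.mem_iff, List.mem_range]
      rw [mem_misSet] at hy
      omega
    have hy0 : y ∉ A0 := by
      intro h
      have := hS.first A0 (by simp) y h hmis
      exact hne 2 le_rfl (by omega) this.symm
    have hen : Function.update ε items.length y items.length = y := Function.update_self _ _ _
    have hei : Function.update ε items.length y i = ε i := Function.update_of_ne (by omega) _ _
    have key : ∀ (arcs : List (ℕ × ℕ)) (t : ℕ) (As' : List (List ℕ)),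
        Sem N w ⟨arcs, items ++ [(t, 0, 0)]⟩ (Function.update ε items.length y) As' →
        Sem N w ⟨arcs, link (items ++ [(t, 0, 0)]) i items.length⟩
          (Function.update ε items.length y) As' := by
      intro arcs t As' hs
      have hlen : (items ++ [(t, 0, 0)]).length = items.length + 1 := by
        rw [List.length_append]; rfl
      refine hLNK N w ⟨arcs, items ++ [(t, 0, 0)]⟩ _ As' hW hs i items.length hi2 ?_ (by omega) ?_
        (by omega) ?_ ?_ ?_ ?_
      · change i < (items ++ [(t, 0, 0)]).length
        omega
      · change items.length < (items ++ [(t, 0, 0)]).length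
        omega
      · rw [hen, hei]; exact hy
      · change mate (items ++ [(t, 0, 0)]) i items.length = false
        rw [← Bool.not_eq_true]
        intro h
        have h' : mate items i items.length = true := by
          rw [mate_iff] at h ⊢
          rw [entry_app hi] at h
          exact h
        have := mate_lt (hS.item i hi2 hi) h'
        change 2 ≤ items.length ∧ items.length < items.length at this
        omega
      · change slot (items ++ [(t, 0, 0)]) i = true
        unfold slot
        rw [entry_app hi]
        exact hslot
      · change slot (items ++ [(t, 0, 0)]) items.length = true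
        unfold slot
        rw [entry_new]
        cases h : Nat.beq t 1
        · rfl
        · rfl
    have hcase : y ∈ AP.flatten ∨ y ∈ AQ.flatten := by
      simp only [List.flatten_append, List.flatten_cons, List.mem_append] at hyw
      rcases hyw with ((h | h) | h) | h
      · exact absurd h hy0
      · exact Or.inl h
      · exact absurd h hymid
      · exact Or.inr h
    rcases hcase with hyp | hyp
    · have e2 : a :: pre ++ mid ++ post = [a] ++ pre ++ (mid ++ post) := by simp
      have hS1 : Sem N w ⟨[a] ++ pre ++ (mid ++ post), items⟩ ε (A0 :: AP ++ AM ++ AQ) := by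
        rw [← e2]; exact hS
      obtain ⟨x, hx, As', hS', -⟩ := hINS N w ε (A0 :: AP ++ AM ++ AQ) [a] pre (mid ++ post)
        items conv hW (by simp) hS1 y (by
          have e3 : ((A0 :: AP ++ AM ++ AQ).drop [a].length).take pre.length = AP := by
            rw [lP]
            simp
          rw [e3]
          exact hyp) hmis hne
      have e4 : [a] ++ x.2 ++ (mid ++ post) = a :: x.2 ++ mid ++ post := by simp
      rw [e4] at hS'
      refine ⟨_, ?_, _, As', key _ _ _ hS'⟩
      unfold outer
      rw [List.mem_append, List.mem_append]
      right; left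
      rw [List.mem_map]
      exact ⟨x, hx, rfl⟩
    · have e2 : a :: pre ++ mid ++ post = (a :: pre ++ mid) ++ post ++ [] := by simp
      have hS1 : Sem N w ⟨(a :: pre ++ mid) ++ post ++ [], items⟩ ε (A0 :: AP ++ AM ++ AQ) := by
        rw [← e2]; exact hS
      obtain ⟨x, hx, As', hS', -⟩ := hINS N w ε (A0 :: AP ++ AM ++ AQ) (a :: pre ++ mid) post []
        items conv hW (by simp) hS1 y (by
          have e3 : ((A0 :: AP ++ AM ++ AQ).drop (a :: pre ++ mid).length).take post.length
              = AQ := by
            have l1 : (a :: pre ++ mid).length = (A0 :: AP ++ AM).length := by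
              simp [lP, lM]
            rw [l1, List.drop_left, lQ, List.take_length]
          rw [e3]
          exact hyp) hmis hne
      rw [List.append_nil] at hS'
      refine ⟨_, ?_, _, As', key _ _ _ hS'⟩
      unfold outer
      rw [List.mem_append, List.mem_append]
      right; right
      rw [List.mem_map]
      exact ⟨x, hx, rfl⟩

end Pool.Agent.Lib.MP29a61e
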