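import Pool.Agent.Lib.MP_29a61e_co.Sem

/-!
# Module PAR: the partner query
-/

set_option autoImplicit false

namespace Pool.Agent.Lib.MP29a61e

theorem specPAR (hSLT : SpecSLT) (hOUT : SpecOUT) : SpecPAR := by
  intro N w ε As s i conv l hw hSem hq
  obtain ⟨arcs, items⟩ := s
  cases arcs with
  | nil => simp [qPartner] at hq
  | cons a rest =>
    by_cases hc : ((Nat.ble 2 i) && (Nat.blt i items.length) && (slot items i)) = true
    · have hl : l = outer conv i a rest [] [] items := by
        simp only [qPartner, hc, cond_true, Option.some.injEq] at hq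
        exact hq.symm
      rw [Bool.and_eq_true, Bool.and_eq_true] at hc
      obtain ⟨⟨h1, h2⟩, h3⟩ := hc
      have h1' : 2 ≤ i := Nat.le_of_ble_eq_true h1
      have h2' : i < items.length := by
        have := Nat.le_of_ble_eq_true h2
        omega
      obtain ⟨y, hy, hy'⟩ := (hSLT N w ⟨a :: rest, items⟩ ε As hw hSem i h1' h2').1 h3
      have hSem' : Sem N w ⟨a :: rest ++ [] ++ [], items⟩ ε As := by
        rw [List.append_nil, List.append_nil]
        exact hSem
      rw [hl]
      exact hOUT N w ε As conv i a rest [] [] items hw hSem' h1' h2' y hy hy' (by simp)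
    · have hc' : ((Nat.ble 2 i) && (Nat.blt i items.length) && (slot items i)) = false := by
        simpa using hc
      simp [qPartner, hc'] at hq

end Pool.Agent.Lib.MP29a61e
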