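import Pool.Agent.Lib.MP_29a61e_co.Sem

/-!
# MP_29a61e_co: QX, the query for a block
-/

set_option autoImplicit false

namespace Pool.Agent.Lib.MP29a61e

namespace QX

theorem split2 {α β : Type} {R : α → β → Prop} : ∀ (P Q : List α) (As : List β),
    List.Forall₂ R (P ++ Q) As → ∃ AP AQ, As = AP ++ AQ ∧ List.Forall₂ R P AP ∧ List.Forall₂ R Q AQ
  | [], _, As, h => ⟨[], As, rfl, List.Forall₂.nil, h⟩
  | p :: P, Q, [], h => by
    rw [List.cons_append] at h
    cases h
  | p :: P, Q, b :: As, h => by
    rw [List.cons_append] at h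
    obtain ⟨h1, h2⟩ := List.forall₂_cons.1 h
    obtain ⟨AP, AQ, rfl, h3, h4⟩ := split2 P Q As h2
    exact ⟨b :: AP, AQ, rfl, List.Forall₂.cons h1 h3, h4⟩

theorem nonempty_of_side {N n : ℕ} {ε : ℕ → ℕ} {as : List (ℕ × ℕ)} {As : List (List ℕ)}
    (h : List.Forall₂ (SideOK N n ε) as As) : ∀ A ∈ As, A ≠ [] := by
  induction h with
  | nil => simp
  | cons h1 _ ih =>
    intro A hA
    rcases List.mem_cons.1 hA with rfl | hA
    · exact h1.1
    · exact ih A hA

theorem mem_of_inA {N n : ℕ} {ε : ℕ → ℕ} {as : List (ℕ × ℕ)} {As : List (List ℕ)}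
    (h : List.Forall₂ (SideOK N n ε) as As) {i : ℕ} (hi : 2 ≤ i) (hin : inA as i = true) :
    ε i ∈ As.flatten := by
  induction h with
  | nil => simp [inA] at hin
  | @cons a A as As h1 _ ih =>
    rw [List.flatten_cons, List.mem_append]
    have h2 : (a.1 = i ∨ a.2 = i) ∨ inA as i = true := by
      simpa [inA] using hin
    rcases h2 with (h2 | h2) | h2
    · left
      exact List.mem_of_mem_head? (h1.2.2.2.1 (h2 ▸ hi)).2 |> fun h => by rwa [h2] at h
    · left
      exact List.mem_of_mem_getLast? (h1.2.2.2.2.1 (h2 ▸ hi)).2 |> fun h => by rwa [h2] at h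
    · right
      exact ih h2

theorem brk_flatten {L R : List (List ℕ)} (hL : L ≠ []) (hR : R ≠ []) (hLn : ∀ A ∈ L, A ≠ [])
    (hRn : ∀ A ∈ R, A ≠ []) (h : (L ++ R).IsChain Brk) : Brk L.flatten R.flatten := by
  obtain ⟨L', B, rfl⟩ : ∃ L' B, L = L' ++ [B] :=
    ⟨L.dropLast, L.getLast hL, (List.dropLast_append_getLast hL).symm⟩
  obtain ⟨C, R', rfl⟩ := List.exists_cons_of_ne_nil hR
  have h1 := (List.isChain_append.1 h).2.2 B (by simp) C (by simp)
  have hB : B ≠ [] := hLn B (by simp)
  have hC : C ≠ [] := hRn C (by simp)
  intro x hx y hy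
  refine h1 x ?_ y ?_
  · rw [List.flatten_append, List.getLast?_append_of_ne_nil] at hx
    · simpa using hx
    · simpa using hB
  · rw [List.flatten_cons, List.head?_append_of_ne_nil] at hy
    · exact hy
    · exact hC

theorem flatten_ne {L : List (List ℕ)} (hL : L ≠ []) (hLn : ∀ A ∈ L, A ≠ []) : L.flatten ≠ [] := by
  obtain ⟨C, R', rfl⟩ := List.exists_cons_of_ne_nil hL
  rw [List.flatten_cons]
  intro h
  exact hLn C (by simp) (List.append_eq_nil_iff.1 h).1

theorem two_of_mem {α : Type} {l : List α} {x y : α} (hx : x ∈ l) (hy : y ∈ l) (hxy : x ≠ y) :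
    ¬ l.length ≤ 1 := by
  match l, hx, hy with
  | [], hx, _ => simp at hx
  | [a], hx, hy =>
    simp at hx hy
    exact absurd (hx.trans hy.symm) hxy
  | a :: b :: l, _, _ => simp

theorem mem_cross {out inn : List (ℕ × ℕ)} {items : List (ℕ × ℕ × ℕ)} {i j : ℕ} (hi : 2 ≤ i)
    (hin : i < items.length) (hj : j < items.length) (hm : mate items i j = true)
    (h1 : inA out i = false) (h2 : inA inn j = false) : (i, j) ∈ cross out inn items := by
  unfold cross
  rw [List.mem_flatMap]
  refine ⟨i, ?_, ?_⟩
  · rw [List.mem_filter, List.mem_range]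
    refine ⟨hin, ?_⟩
    have h3 : Nat.ble 2 i = true := by rw [Nat.ble_eq]; exact hi
    rw [h1, h3]
    rfl
  · rw [List.mem_map]
    refine ⟨j, ?_, rfl⟩
    rw [List.mem_filter, List.mem_range]
    refine ⟨hj, ?_⟩
    rw [hm, h2]
    rfl

theorem mate_lt {N : ℕ} {w : List ℕ} {s : St} {ε : ℕ → ℕ} {As : List (List ℕ)}
    (hs : Sem N w s ε As) {i j : ℕ} (hi : 2 ≤ i) (hin : i < s.items.length)
    (hm : mate s.items i j = true) : 2 ≤ j ∧ j < s.items.length := by
  unfold mate at hm
  rw [Bool.and_eq_true, Bool.or_eq_true, Nat.ble_eq, Nat.beq_eq, Nat.beq_eq] at hm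
  obtain ⟨h1, h2⟩ := hm
  obtain ⟨-, -, -, -, h3, h4, -⟩ := hs.item i hi hin
  refine ⟨h1, ?_⟩
  rcases h2 with h2 | h2
  · have h5 := (h3 (by omega)).2.1
    omega
  · have h5 := (h4 (by omega)).2.1
    omega

end QX

open QX in
/-- **QX**. -/
theorem specQX (hSLT : SpecSLT) (hINS : SpecINS) (hOUT : SpecOUT) (hMMX : SpecMMX) : SpecQX := by
  intro N w ε As s lo n conv l hw hs hq
  obtain ⟨arcs, items⟩ := s
  unfold qX at hq
  match arcs, hs, hq with
  | [], _, hq => simp at hq
  | a :: rest, hs, hq =>
    simp only at hq
    set pre := rest.take lo with hpre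
    set mid := (rest.drop lo).take n with hmid
    set post := (rest.drop lo).drop n with hpost
    have hrest : a :: rest = (a :: pre) ++ mid ++ post := by
      rw [hpre, hmid, hpost, List.cons_append, List.cons_append, List.append_assoc,
        List.take_append_drop, List.take_append_drop]
    cases hcond : (!mid.isEmpty && !post.isEmpty &&
        (Nat.ble (cross (a :: pre ++ post) mid items).length 1)) with
    | false =>
      rw [hcond] at hq
      simp at hq
    | true =>
      rw [hcond] at hq
      simp only [cond_true, Option.some.injEq] at hq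
      rw [Bool.and_eq_true, Bool.and_eq_true, Nat.ble_eq] at hcond
      obtain ⟨⟨hc1, hc2⟩, hc3⟩ := hcond
      have hmidn : mid ≠ [] := by
        intro h
        rw [h] at hc1
        simp at hc1
      have hpostn : post ≠ [] := by
        intro h
        rw [h] at hc2
        simp at hc2
      rw [hrest] at hs
      have hsides := hs.sides
      simp only at hsides
      obtain ⟨APM, AQ, hAs, hPM, hQ⟩ := split2 _ _ _ hsides
      obtain ⟨AP, AM, rfl, hP, hM⟩ := split2 _ _ _ hPM
      subst hAs
      have hlenP : AP.length = pre.length + 1 := by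
        have := hP.length_eq
        simp at this
        omega
      have hlenM : AM.length = mid.length := hM.length_eq.symm
      have hnP := nonempty_of_side hP
      have hnM := nonempty_of_side hM
      have hnQ := nonempty_of_side hQ
      have hAP : AP ≠ [] := by
        intro h
        rw [h] at hlenP
        simp at hlenP
      have hAM : AM ≠ [] := by
        intro h
        rw [h] at hlenM
        exact hmidn (List.eq_nil_of_length_eq_zero hlenM.symm)
      have hAQ : AQ ≠ [] := by
        intro h
        have := hQ.length_eq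
        rw [h] at this
        exact hpostn (List.eq_nil_of_length_eq_zero this)
      have hmidf : (((AP ++ AM ++ AQ).drop (pre.length + 1)).take mid.length).flatten =
          AM.flatten := by
        rw [← hlenP, ← hlenM, List.append_assoc, List.drop_left, List.take_left]
      have hflat : w = AP.flatten ++ AM.flatten ++ AQ.flatten := by
        rw [← hs.flat, List.flatten_append, List.flatten_append]
      have hbrk := hs.brk
      have hbrk1 : Brk AP.flatten AM.flatten := by
        refine brk_flatten hAP hAM hnP hnM ?_
        exact (List.isChain_append.1 hbrk).1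
      have hbrk2 : Brk AM.flatten AQ.flatten := by
        rw [List.append_assoc] at hbrk
        refine brk_flatten hAM hAQ hnM hnQ ?_
        exact (List.isChain_append.1 hbrk).2.1
      obtain ⟨x₀, hx₀, x₁, hx₁, y₀, hy₀, hy₀X, hy₀m, hx₁X, hx₁m⟩ :=
        hMMX N w AP.flatten AM.flatten AQ.flatten hw hflat (flatten_ne hAP hnP)
          (flatten_ne hAM hnM) (flatten_ne hAQ hnQ) hbrk1 hbrk2
      have hnd : w.Nodup := hw.2.nodup_iff.2 List.nodup_range
      -- items with letter in the block are not seen outside
      have hout : ∀ i, 2 ≤ i → ε i ∈ AM.flatten → inA (a :: pre ++ post) i = false := by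
        intro i hi hiX
        by_contra hcon
        rw [Bool.not_eq_false] at hcon
        rw [hflat, List.append_assoc] at hnd
        have h1 : inA (a :: pre) i = true ∨ inA post i = true := by
          unfold inA at hcon ⊢
          rw [List.any_append, Bool.or_eq_true] at hcon
          exact hcon
        rcases h1 with h1 | h1
        · have h2 := mem_of_inA hP hi h1
          exact List.disjoint_of_nodup_append hnd h2 (List.mem_append_left _ hiX)
        · have h2 := mem_of_inA hQ hi h1
          exact List.disjoint_of_nodup_append (List.nodup_append'.1 hnd).2.1 hiX h2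
      have hinn : ∀ j, 2 ≤ j → ε j ∉ AM.flatten → inA mid j = false := by
        intro j hj hjX
        by_contra hcon
        rw [Bool.not_eq_false] at hcon
        exact hjX (mem_of_inA hM hj hcon)
      -- the unknown pair
      obtain ⟨x, hx, y, hyX, hym, hxy⟩ : ∃ x ∈ AM.flatten, ∃ y, y ∉ AM.flatten ∧ y ∈ misSet N w x ∧
          ∀ i, 2 ≤ i → i < items.length → ε i = x → ∀ j, mate items i j = true → ε j ≠ y := by
        by_contra hcon
        push Not at hcon
        obtain ⟨i, hi, hin, hix, j, hij, hjy⟩ := hcon x₁ hx₁ (x₁ + 1) hx₁X hx₁m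
        obtain ⟨i', hi', hin', hix', j', hij', hjy'⟩ := hcon x₀ hx₀ y₀ hy₀X hy₀m
        obtain ⟨hj, hjn⟩ := mate_lt hs hi hin hij
        obtain ⟨hj', hjn'⟩ := mate_lt hs hi' hin' hij'
        have m1 := mem_cross (out := a :: pre ++ post) (inn := mid) hi hin hjn hij
          (hout i hi (by rw [hix]; exact hx₁)) (hinn j hj (by rw [hjy]; exact hx₁X))
        have m2 := mem_cross (out := a :: pre ++ post) (inn := mid) hi' hin' hjn' hij'
          (hout i' hi' (by rw [hix']; exact hx₀)) (hinn j' hj' (by rw [hjy']; exact hy₀X))
        refine two_of_mem m1 m2 ?_ hc3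
        intro heq
        simp only [Prod.mk.injEq] at heq
        have e1 : x₁ = x₀ := by rw [← hix, ← hix', heq.1]
        have e2 : x₁ + 1 = y₀ := by rw [← hjy, ← hjy', heq.2]
        omega
      have hmis : 1 ≤ mis N w x := Finset.card_pos.2 ⟨y, hym⟩
      by_cases hitem : ∃ i, 2 ≤ i ∧ i < items.length ∧ ε i = x
      · obtain ⟨i, hi, hin, hix⟩ := hitem
        have hyi : y ∈ misSet N w (ε i) := by rw [hix]; exact hym
        have hmates := hxy i hi hin hix
        have hslot : slot items i = true := (hSLT N w _ ε _ hw hs i hi hin).2 y hyi hmates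
        obtain ⟨s', hs', ε', As', hsem⟩ := hOUT N w ε _ conv i a pre mid post items hw hs hi hin y hyi
          hmates (by rw [hmidf]; exact hyX)
        refine ⟨s', ?_, ε', As', hsem⟩
        rw [← hq, List.mem_append]
        left
        rw [List.mem_flatMap]
        refine ⟨i, ?_, hs'⟩
        rw [List.mem_filter, List.mem_range]
        refine ⟨hin, ?_⟩
        have h3 : Nat.ble 2 i = true := by rw [Nat.ble_eq]; exact hi
        rw [hslot, h3, hout i hi (by rw [hix]; exact hx)]
        rfl
      · push Not at hitem
        obtain ⟨x', hx', As', hsem, -, hflat', -⟩ := hINS N w ε _ (a :: pre) mid post items conv hw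
          (by simp) hs x (by rw [List.length_cons, hmidf]; exact hx) hmis
          (fun i hi hin => hitem i hi hin)
        rw [List.length_cons, hmidf] at hflat'
        have hlen : items.length < (items ++ [(x'.1, 0, 0)]).length := by simp
        have h3 : 2 ≤ items.length := by
          have h4 : 3 ≤ items.length := hs.three
          omega
        have hentry : entry (items ++ [(x'.1, 0, 0)]) items.length = (x'.1, 0, 0) := by
          unfold entry
          simp [List.getD]
        obtain ⟨s', hs', ε', As'', hsem'⟩ := hOUT N w (Function.update ε items.length x) As' conv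
          items.length a pre x'.2 post (items ++ [(x'.1, 0, 0)]) hw hsem h3 hlen y
          (by rw [Function.update_self]; exact hym)
          (by
            intro j hj
            exfalso
            unfold mate at hj
            rw [hentry, Bool.and_eq_true, Bool.or_eq_true, Nat.ble_eq, Nat.beq_eq] at hj
            simp only at hj
            omega)
          (by rw [hflat']; exact hyX)
        refine ⟨s', ?_, ε', As'', hsem'⟩
        rw [← hq, List.mem_append]
        right
        rw [List.mem_flatMap]
        exact ⟨x', hx', hs'⟩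

end Pool.Agent.Lib.MP29a61e
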