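import Pool.Agent.Lib.MP_29a61e_co.Sem

/-!
# MP_29a61e_co, module ROOT: the first state
-/

set_option autoImplicit false

namespace Pool.Agent.Lib.MP29a61e

namespace ROOT

theorem infix_idx {w : List ℕ} {x y : ℕ} (h : [x, y] <:+: w) :
    ∃ i, w[i]? = some x ∧ w[i + 1]? = some y := by
  obtain ⟨s, t, rfl⟩ := h
  exact ⟨s.length, by simp, by simp⟩

theorem idx_inj {w : List ℕ} (hw : w.Nodup) {i j x : ℕ} (hi : w[i]? = some x)
    (hj : w[j]? = some x) : i = j := by
  have h1 : i < w.length := by
    by_contra h
    rw [List.getElem?_eq_none (not_lt.1 h)] at hi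
    exact absurd hi.symm (Option.some_ne_none x)
  exact (List.getElem?_inj h1 hw).1 (hi.trans hj.symm)

theorem succ_unique {w : List ℕ} (hw : w.Nodup) {x y z : ℕ} (h : [x, y] <:+: w)
    (h' : [x, z] <:+: w) : y = z := by
  obtain ⟨i, hi, hi'⟩ := infix_idx h
  obtain ⟨j, hj, hj'⟩ := infix_idx h'
  have := idx_inj hw hi hj
  subst this
  rw [hi'] at hj'
  exact Option.some.inj hj'

theorem pred_unique {w : List ℕ} (hw : w.Nodup) {x y z : ℕ} (h : [x, z] <:+: w)
    (h' : [y, z] <:+: w) : x = y := by
  obtain ⟨i, hi, hi'⟩ := infix_idx h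
  obtain ⟨j, hj, hj'⟩ := infix_idx h'
  have h1 := idx_inj hw hi' hj'
  have : i = j := by omega
  subst this
  rw [hi] at hj
  exact Option.some.inj hj

theorem infix_range {k v : ℕ} (h : k + 1 ≤ v) (L : List ℕ) :
    [k, k + 1] <:+: List.range (v + 1) ++ L := by
  obtain ⟨m, rfl⟩ : ∃ m, v = k + 1 + m := ⟨v - (k + 1), by omega⟩
  refine ⟨List.range k, (List.range m).map (fun x => k + 2 + x) ++ L, ?_⟩
  have h1 : k + 1 + m + 1 = k + 2 + m := by omega
  rw [h1, List.range_add, List.range_add]
  simp [List.range_succ]

end ROOT

open ROOT in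
theorem specROOT : SpecROOT := by
  intro N w hw hs
  obtain ⟨v, b, R, hwe, hvb, hvN, hbN⟩ := first_breakpoint hw hs
  obtain ⟨⟨u, hu⟩, hp⟩ := hw
  have hnd : w.Nodup := hp.nodup_iff.2 List.nodup_range
  have hvb' : [v, b] <:+: w := by
    refine ⟨List.range v, R, ?_⟩
    rw [hwe, List.range_succ]
    simp
  have hk : ∀ k, k + 1 ≤ v → [k, k + 1] <:+: w := by
    intro k hk
    rw [hwe]
    exact infix_range hk _
  have hmis : mis N w v = 1 := by
    unfold mis
    have h1 : misSet N w v = {v + 1} := by
      ext y
      rw [mem_misSet, Finset.mem_singleton]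
      constructor
      · rintro ⟨hyN, hy | hy, hn⟩
        · exact hy
        · exfalso
          apply hn
          right
          rw [hy]
          exact hk y (by omega)
      · rintro rfl
        refine ⟨by omega, Or.inl rfl, ?_⟩
        rintro (h | h)
        · have := succ_unique hnd h hvb'
          omega
        · rcases Nat.eq_zero_or_pos v with h0 | h0
          · subst h0
            -- `0` is the first letter
            obtain ⟨i, _, hi'⟩ := infix_idx h
            have h2 : w[0]? = some 0 := by rw [hu]; rfl
            have := idx_inj hnd hi' h2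
            omega
          · obtain ⟨k, rfl⟩ : ∃ k, v = k + 1 := ⟨v - 1, by omega⟩
            have := pred_unique hnd h (hk k le_rfl)
            omega
    rw [h1, Finset.card_singleton]
  have hlast : (b :: R).getLast? = some N := by
    have h1 : w.getLast? = some N := by
      rw [hu, ← List.cons_append]
      exact List.getLast?_concat
    rw [hwe, List.getLast?_append_of_ne_nil _ (by simp)] at h1
    exact h1
  have h2of : ∀ i, 2 ≤ i → i < root.items.length → i = 2 := by
    intro i hi hi'
    have : root.items.length = 3 := rfl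
    omega
  refine ⟨fun _ => v, [List.range (v + 1), b :: R], ?_⟩
  refine ⟨le_refl 3, by simp [hwe], ?_, ?_, ?_, ?_, ?_, ?_, ?_, ?_, ?_, ?_⟩
  · refine List.Forall₂.cons ?_ (List.Forall₂.cons ?_ List.Forall₂.nil)
    · refine ⟨by simp, fun _ => by rw [List.range_succ_eq_map]; rfl, fun h => by simp at h,
        fun h => by simp at h, fun _ => ⟨by decide, ?_⟩, fun h => by simp at h⟩
      rw [List.range_succ]
      simp
    · exact ⟨by simp, fun h => by simp at h, fun _ => hlast, fun h => by simp at h,
        fun h => by simp at h, fun h => by simp at h⟩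
  · rw [List.isChain_cons_cons]
    refine ⟨?_, List.isChain_singleton _⟩
    intro x hx y hy hv
    rw [List.range_succ] at hx
    simp at hx hy
    subst hx hy
    unfold VN at hv
    omega
  · intro a ha
    have : a = (0, 2) := by
      simpa [root] using ha.symm
    rw [this]
  · intro a ha
    have : a = (1, 0) := by
      simpa [root] using ha.symm
    rw [this]
  · intro A hA x hx hmx
    have hA' : A = List.range (v + 1) := by simpa using hA.symm
    rw [hA', List.mem_range] at hx
    by_contra hxv
    have hxv' : x < v := by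
      have : x ≠ v := hxv
      omega
    have h3 : misSet N w x = ∅ := by
      rw [Finset.eq_empty_iff_forall_notMem]
      intro y hy
      rw [mem_misSet] at hy
      obtain ⟨_, hy | hy, hn⟩ := hy
      · apply hn
        left
        rw [hy]
        exact hk x (by omega)
      · apply hn
        right
        rw [hy]
        exact hk y (by omega)
    unfold mis at hmx
    rw [h3, Finset.card_empty] at hmx
    omega
  · intro i j hi hi' hj hj' _
    rw [h2of i hi hi', h2of j hj hj']
  · intro i hi hi'
    rw [h2of i hi hi']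
    exact ⟨le_refl 1, hmis, hvN.le, fun _ => rfl, fun h => absurd rfl h, fun h => absurd rfl h,
      fun h => absurd rfl h⟩
  · intro i j hi hi' h
    rw [h2of i hi hi'] at h
    unfold mate at h
    rw [Bool.and_eq_true, Bool.or_eq_true] at h
    obtain ⟨h3, h4⟩ := h
    have h5 : (2 : ℕ) ≤ j := Nat.le_of_ble_eq_true h3
    have h6 : (0 : ℕ) = j := by
      rcases h4 with h4 | h4 <;> exact Nat.eq_of_beq_eq_true h4
    omega
  · intro i hi hi'
    rw [h2of i hi hi']
    rfl
  · intro i j h
    by_contra hi
    have hi' : i = 0 ∨ i = 1 := by omega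
    unfold mate at h
    rw [Bool.and_eq_true, Bool.or_eq_true] at h
    obtain ⟨h3, h4⟩ := h
    have h5 : (2 : ℕ) ≤ j := Nat.le_of_ble_eq_true h3
    rcases hi' with rfl | rfl
    · have h6 : (0 : ℕ) = j := by
        rcases h4 with h4 | h4 <;> exact Nat.eq_of_beq_eq_true h4
      omega
    · have h6 : (0 : ℕ) = j := by
        rcases h4 with h4 | h4 <;> exact Nat.eq_of_beq_eq_true h4
      omega

end Pool.Agent.Lib.MP29a61e
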