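import Pool.Agent.Lib.MP_29a61e_co.Sem

/-!
# SLT: free slots
-/

set_option autoImplicit false

namespace Pool.Agent.Lib.MP29a61e

namespace SLT

theorem nbeq {a b : ℕ} : Nat.beq a b = true ↔ a = b :=
  ⟨Nat.eq_of_beq_eq_true, fun h => h ▸ Nat.beq_refl _⟩

theorem mate_iff {items : List (ℕ × ℕ × ℕ)} {i j : ℕ} : mate items i j = true ↔
    2 ≤ j ∧ ((entry items i).2.1 = j ∨ (entry items i).2.2 = j) := by
  unfold mate
  rw [Bool.and_eq_true, Bool.or_eq_true, Nat.ble_eq, nbeq, nbeq]

theorem slot_iff {items : List (ℕ × ℕ × ℕ)} {i : ℕ} : slot items i = true ↔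
    ((entry items i).1 = 1 ∧ (entry items i).2.1 = 0) ∨
    ((entry items i).1 ≠ 1 ∧ ((entry items i).2.1 = 0 ∨ (entry items i).2.2 = 0)) := by
  unfold slot
  by_cases h : (entry items i).1 = 1
  · have h1 : Nat.beq (entry items i).1 1 = true := by rw [h]; rfl
    rw [h1, cond_true, nbeq]
    simp [h]
  · have h1 : Nat.beq (entry items i).1 1 = false := by
      rw [Bool.eq_false_iff, Ne, nbeq]
      exact h
    rw [h1, cond_false, Bool.or_eq_true, nbeq, nbeq]
    simp [h]

end SLT

open SLT in
theorem specSLT : SpecSLT := by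
  intro N w s ε As hw hs i hi hil
  obtain ⟨h1, h2, h3, h4, h5, h6, h7⟩ := hs.item i hi hil
  have hle := mis_le_two N w (ε i)
  have hcard : (misSet N w (ε i)).card = (entry s.items i).1 := h2
  constructor
  · intro hsl
    rw [slot_iff] at hsl
    rcases hsl with ⟨ht, ha⟩ | ⟨ht, hab⟩
    · have hb := h4 ht
      obtain ⟨y, hy⟩ := Finset.card_pos.1 (by rw [hcard]; omega : 0 < (misSet N w (ε i)).card)
      refine ⟨y, hy, fun j hj => ?_⟩
      rw [mate_iff] at hj
      omega
    · have ht2 : (misSet N w (ε i)).card = 2 := by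
        rw [hcard]
        omega
      have hex : ∀ z : ℕ, ∃ y ∈ misSet N w (ε i), y ≠ z := by
        intro z
        have h8 : 1 < (misSet N w (ε i)).card := by omega
        exact Finset.exists_mem_ne h8 z
      rcases hab with ha | hb
      · obtain ⟨y, hy, hne⟩ := hex (ε (entry s.items i).2.2)
        refine ⟨y, hy, fun j hj => ?_⟩
        rw [mate_iff] at hj
        have : j = (entry s.items i).2.2 := by omega
        rw [this]
        exact hne.symm
      · obtain ⟨y, hy, hne⟩ := hex (ε (entry s.items i).2.1)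
        refine ⟨y, hy, fun j hj => ?_⟩
        rw [mate_iff] at hj
        have : j = (entry s.items i).2.1 := by omega
        rw [this]
        exact hne.symm
  · intro y hy hmate
    by_contra hsl
    rw [slot_iff] at hsl
    push Not at hsl
    by_cases ht : (entry s.items i).1 = 1
    · have ha := hsl.1 ht
      obtain ⟨a1, a2, a3⟩ := h5 ha
      rw [ht] at hcard
      obtain ⟨z, hz⟩ := Finset.card_eq_one.1 hcard
      rw [hz, Finset.mem_singleton] at hy a3
      exact hmate _ (mate_iff.2 ⟨a1, Or.inl rfl⟩) (a3.trans hy.symm)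
    · obtain ⟨ha, hb⟩ := hsl.2 ht
      obtain ⟨a1, a2, a3⟩ := h5 ha
      obtain ⟨b1, b2, b3⟩ := h6 hb
      have hne : ε (entry s.items i).2.1 ≠ ε (entry s.items i).2.2 := fun h =>
        h7 ha (hs.inj _ _ a1 a2 b1 b2 h)
      have hne1 : ε (entry s.items i).2.1 ≠ y := hmate _ (mate_iff.2 ⟨a1, Or.inl rfl⟩)
      have hne2 : ε (entry s.items i).2.2 ≠ y := hmate _ (mate_iff.2 ⟨b1, Or.inr rfl⟩)
      have hsub : ({y, ε (entry s.items i).2.1, ε (entry s.items i).2.2} : Finset ℕ) ⊆
          misSet N w (ε i) := by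
        intro z hz
        simp only [Finset.mem_insert, Finset.mem_singleton] at hz
        rcases hz with rfl | rfl | rfl
        · exact hy
        · exact a3
        · exact b3
      have h8 := Finset.card_le_card hsub
      rw [Finset.card_insert_of_notMem (by
        simp only [Finset.mem_insert, Finset.mem_singleton]
        rintro (h | h)
        · exact hne1 h.symm
        · exact hne2 h.symm), Finset.card_pair hne] at h8
      have : (misSet N w (ε i)).card ≤ 2 := hle
      omega

end Pool.Agent.Lib.MP29a61e
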