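import Pool.Agent.Lib.MP_29a61e_co.QX

/-!
# MP_29a61e_co: TYP, the type query
-/

set_option autoImplicit false

namespace Pool.Agent.Lib.MP29a61e

namespace TYP

open QX

theorem entry_lt {items : List (ℕ × ℕ × ℕ)} {x : ℕ × ℕ × ℕ} {i : ℕ} (h : i < items.length) :
    entry (items ++ [x]) i = entry items i := by
  unfold entry
  exact List.getD_append _ _ _ _ h

theorem entry_last {items : List (ℕ × ℕ × ℕ)} {x : ℕ × ℕ × ℕ} :
    entry (items ++ [x]) items.length = x := by
  unfold entry
  simp [List.getD]

theorem mate_append {items : List (ℕ × ℕ × ℕ)} {x : ℕ × ℕ × ℕ} {i j : ℕ} (h : i < items.length) :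
    mate (items ++ [x]) i j = mate items i j := by
  unfold mate
  rw [entry_lt h]

theorem side_up {N n : ℕ} {ε : ℕ → ℕ} {h : ℕ} {a : ℕ × ℕ} {A : List ℕ} (hs : SideOK N n ε a A) :
    SideOK N (n + 1) (Function.update ε n h) a A := by
  obtain ⟨h1, h2, h3, h4, h5, h6⟩ := hs
  have e : ∀ i, i < n → Function.update ε n h i = ε i := fun i hi =>
    Function.update_of_ne (by omega) _ _
  refine ⟨h1, h2, h3, fun h => ?_, fun h => ?_, fun h7 h8 => ?_⟩
  · obtain ⟨h7, h8⟩ := h4 h
    exact ⟨by omega, by rw [e _ h7]; exact h8⟩
  · obtain ⟨h7, h8⟩ := h5 h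
    exact ⟨by omega, by rw [e _ h7]; exact h8⟩
  · rw [e _ (h4 h8).1]
    exact h6 h7 h8

theorem inA_split {P Q : List (ℕ × ℕ)} {a : ℕ × ℕ} {i : ℕ} :
    inA (P ++ a :: Q) i = true ↔ inA P i = true ∨ (a.1 = i ∨ a.2 = i) ∨ inA Q i = true := by
  simp [inA]

theorem same {N : ℕ} {w : List ℕ} {ε : ℕ → ℕ} {As : List (List ℕ)} {P Q : List (ℕ × ℕ)}
    {a a' : ℕ × ℕ} {items : List (ℕ × ℕ × ℕ)} {AP AQ : List (List ℕ)} {A : List ℕ}
    (hs : Sem N w ⟨P ++ a :: Q, items⟩ ε As) (hAs : As = AP ++ A :: AQ)
    (hP : List.Forall₂ (SideOK N items.length ε) P AP)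
    (hQ : List.Forall₂ (SideOK N items.length ε) Q AQ)
    (hA : SideOK N items.length ε a' A) (h1 : P = [] → a'.1 = 0) (h2 : Q = [] → a'.2 = 0)
    (h3 : ∀ i, 2 ≤ i → (a.1 = i ∨ a.2 = i) → (a'.1 = i ∨ a'.2 = i)) :
    Sem N w ⟨P ++ a' :: Q, items⟩ ε As where
  three := hs.three
  flat := hs.flat
  sides := by
    subst hAs
    exact List.rel_append hP (List.Forall₂.cons hA hQ)
  brk := hs.brk
  fst := by
    have h := hs.fst
    cases P with
    | nil => simpa using h1 rfl
    | cons p P => simpa using h
  lst := by
    have h := hs.lst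
    cases Q with
    | nil => simpa using h2 rfl
    | cons q Q =>
      intro b hb
      apply h b
      simp only at hb ⊢
      rw [List.getLast?_append_of_ne_nil _ (by simp), List.getLast?_cons_cons] at hb ⊢
      exact hb
  first := hs.first
  inj := hs.inj
  item := hs.item
  sym := hs.sym
  occ := by
    intro i hi hin
    have h := hs.occ i hi hin
    simp only at h ⊢
    rw [inA_split] at h ⊢
    rcases h with h | h | h
    · exact Or.inl h
    · exact Or.inr (Or.inl (h3 i hi h))
    · exact Or.inr (Or.inr h)
  low := hs.low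

theorem new {N : ℕ} {w : List ℕ} {ε : ℕ → ℕ} {As : List (List ℕ)} {P Q : List (ℕ × ℕ)}
    {a a' : ℕ × ℕ} {items : List (ℕ × ℕ × ℕ)} {AP AQ : List (List ℕ)} {A : List ℕ} {h t : ℕ}
    (hs : Sem N w ⟨P ++ a :: Q, items⟩ ε As) (hAs : As = AP ++ A :: AQ)
    (hP : List.Forall₂ (SideOK N items.length ε) P AP)
    (hQ : List.Forall₂ (SideOK N items.length ε) Q AQ)
    (hA : SideOK N (items.length + 1) (Function.update ε items.length h) a' A)
    (h1 : P = [] → a'.1 = 0) (h2 : Q = [] → a'.2 = 0)
    (h3 : ∀ i, 2 ≤ i → (a.1 = i ∨ a.2 = i) → (a'.1 = i ∨ a'.2 = i))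
    (h4 : a'.1 = items.length ∨ a'.2 = items.length) (ht : 1 ≤ t) (hm : mis N w h = t)
    (hN : h ≤ N) (hne : ∀ i, 2 ≤ i → i < items.length → ε i ≠ h) :
    Sem N w ⟨P ++ a' :: Q, items ++ [(t, 0, 0)]⟩ (Function.update ε items.length h) As := by
  have hlen : (items ++ [(t, 0, 0)]).length = items.length + 1 := by simp
  have h33 : 3 ≤ items.length := hs.three
  have e : ∀ i, i < items.length → Function.update ε items.length h i = ε i := fun i hi =>
    Function.update_of_ne (by omega) _ _
  have hup : ∀ (as : List (ℕ × ℕ)) (As : List (List ℕ)), List.Forall₂ (SideOK N items.length ε) as As →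
      List.Forall₂ (SideOK N (items.length + 1) (Function.update ε items.length h)) as As :=
    fun as As hf => hf.imp fun a b => side_up
  refine ⟨by rw [hlen]; omega, hs.flat, ?_, hs.brk, ?_, ?_, ?_, ?_, ?_, ?_, ?_, ?_⟩
  · rw [hlen]
    subst hAs
    exact List.rel_append (hup _ _ hP) (List.Forall₂.cons hA (hup _ _ hQ))
  · have h := hs.fst
    cases P with
    | nil => simpa using h1 rfl
    | cons p P => simpa using h
  · have h := hs.lst
    cases Q with
    | nil => simpa using h2 rfl
    | cons q Q =>
      intro b hb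
      apply h b
      simp only at hb ⊢
      rw [List.getLast?_append_of_ne_nil _ (by simp), List.getLast?_cons_cons] at hb ⊢
      exact hb
  · rw [e 2 (by omega)]
    exact hs.first
  · intro i j hi hin hj hjn hij
    rw [hlen] at hin hjn
    rcases Nat.lt_succ_iff_lt_or_eq.1 hin with hin | rfl
    · rcases Nat.lt_succ_iff_lt_or_eq.1 hjn with hjn | rfl
      · rw [e i hin, e j hjn] at hij
        exact hs.inj i j hi hin hj hjn hij
      · rw [e i hin, Function.update_self] at hij
        exact absurd hij (hne i hi hin)
    · rcases Nat.lt_succ_iff_lt_or_eq.1 hjn with hjn | rfl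
      · rw [e j hjn, Function.update_self] at hij
        exact absurd hij.symm (hne j hj hjn)
      · rfl
  · intro i hi hin
    rw [hlen] at hin
    rcases Nat.lt_succ_iff_lt_or_eq.1 hin with hin | rfl
    · obtain ⟨g1, g2, g3, g4, g5, g6, g7⟩ := hs.item i hi hin
      simp only at g1 g2 g3 g4 g5 g6 g7
      unfold ItemOK
      simp only
      rw [entry_lt hin, e i hin, hlen]
      refine ⟨g1, g2, g3, g4, fun g => ?_, fun g => ?_, g7⟩
      · obtain ⟨g8, g9, g10⟩ := g5 g
        exact ⟨g8, by omega, by rw [e _ g9]; exact g10⟩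
      · obtain ⟨g8, g9, g10⟩ := g6 g
        exact ⟨g8, by omega, by rw [e _ g9]; exact g10⟩
    · unfold ItemOK
      simp only
      rw [entry_last, Function.update_self]
      exact ⟨ht, hm, hN, fun _ => rfl, fun g => absurd rfl g, fun g => absurd rfl g,
        fun g => absurd rfl g⟩
  · intro i j hi hin hij
    simp only at hij ⊢
    rw [hlen] at hin
    rcases Nat.lt_succ_iff_lt_or_eq.1 hin with hin | rfl
    · rw [mate_append hin] at hij
      obtain ⟨-, hjn⟩ := mate_lt hs hi hin hij
      have hjn' : j < items.length := hjn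
      rw [mate_append hjn']
      exact hs.sym i j hi hin hij
    · exfalso
      unfold mate at hij
      rw [entry_last, Bool.and_eq_true, Bool.or_eq_true, Nat.ble_eq, Nat.beq_eq] at hij
      simp only at hij
      omega
  · intro i hi hin
    simp only at hin ⊢
    rw [hlen] at hin
    rw [inA_split]
    rcases Nat.lt_succ_iff_lt_or_eq.1 hin with hin | rfl
    · have h := hs.occ i hi hin
      simp only at h
      rw [inA_split] at h
      rcases h with h | h | h
      · exact Or.inl h
      · exact Or.inr (Or.inl (h3 i hi h))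
      · exact Or.inr (Or.inr h)
    · exact Or.inr (Or.inl h4)
  · intro i j hij
    simp only at hij
    by_cases hi : i < items.length
    · rw [mate_append hi] at hij
      exact hs.low i j hij
    · omega

/-- the neighbours of a letter in a word without repetition -/
theorem nbr_mid {w U V : List ℕ} {x h c z : ℕ} (hnd : w.Nodup) (hw : w = U ++ x :: h :: c :: V)
    (hz : Nbr w h z) : z = x ∨ z = c := by
  have hnd' := hnd
  rw [hw] at hnd'
  have h1 : h ∉ U ++ [x] := by
    intro hmem
    have h2 : (U ++ [x] ++ h :: c :: V).Nodup := by simpa using hnd'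
    exact List.disjoint_of_nodup_append h2 hmem (by simp)
  have h2 : h ∉ c :: V := by
    intro hmem
    have h2 : (U ++ [x] ++ h :: c :: V).Nodup := by simpa using hnd'
    have h3 := (List.nodup_append'.1 h2).2.1
    exact (List.nodup_cons.1 h3).1 hmem
  have hw' : w = (U ++ [x]) ++ h :: (c :: V) := by rw [hw]; simp
  rcases hz with ⟨S, T, hST⟩ | ⟨S, T, hST⟩
  · right
    have e1 : (U ++ [x]) ++ h :: (c :: V) = S ++ h :: (z :: T) := by
      rw [← hw', ← hST]; simp
    obtain ⟨-, -, h5⟩ := (List.append_cons_inj_of_notMem h1 h2).1 e1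
    simp only [List.cons.injEq] at h5
    exact h5.1.symm
  · left
    have e1 : (U ++ [x]) ++ h :: (c :: V) = (S ++ [z]) ++ h :: T := by
      rw [← hw', ← hST]; simp
    obtain ⟨h5, -, -⟩ := (List.append_cons_inj_of_notMem h1 h2).1 e1
    have h6 := (List.append_inj' h5 rfl).2
    simp only [List.cons.injEq, and_true] at h6
    exact h6.symm

theorem mis_two {N : ℕ} {w U V : List ℕ} {x h c : ℕ} (hw : IsW N w)
    (he : w = U ++ x :: h :: c :: V) (h1 : ¬ VN x h) (h2 : ¬ VN h c) : mis N w h = 2 := by
  have hnd : w.Nodup := hw.2.nodup_iff.2 List.nodup_range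
  have hmem : ∀ z, z ∈ w ↔ z < N + 1 := fun z => by rw [hw.2.mem_iff, List.mem_range]
  have hhN : h < N + 1 := (hmem h).1 (by rw [he]; simp)
  obtain ⟨u, hu⟩ := hw.1
  have hnd' : (U ++ [x] ++ h :: (c :: V)).Nodup := by
    have := hnd
    rw [he] at this
    simpa using this
  have hh0 : h ≠ 0 := by
    rintro rfl
    have h3 : w.head? = some 0 := by rw [hu]; rfl
    have h4 : w = (U ++ [x]) ++ 0 :: (c :: V) := by rw [he]; simp
    have h5 : (0 : ℕ) ∈ U ++ [x] := by
      apply List.mem_of_mem_head?
      rw [h4, List.head?_append_of_ne_nil _ (by simp)] at h3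
      rw [h3]
      rfl
    exact List.disjoint_of_nodup_append hnd' h5 (by simp)
  have hhl : h ≠ N := by
    rintro rfl
    have h3 : w.getLast? = some h := by
      rw [hu, ← List.cons_append, List.getLast?_append_of_ne_nil _ (by simp)]
      rfl
    have h4 : w = (U ++ [x] ++ [h]) ++ (c :: V) := by rw [he]; simp
    have h5 : h ∈ c :: V := by
      apply List.mem_of_mem_getLast?
      rw [h4, List.getLast?_append_of_ne_nil _ (by simp)] at h3
      rw [h3]
      rfl
    exact (List.nodup_cons.1 (List.nodup_append'.1 hnd').2.1).1 h5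
  have hsub : ({h + 1, h - 1} : Finset ℕ) ⊆ misSet N w h := by
    intro z hz
    rw [Finset.mem_insert, Finset.mem_singleton] at hz
    rw [mem_misSet]
    have hvn : z = h + 1 ∨ h = z + 1 := by omega
    refine ⟨by omega, hvn, fun hnbr => ?_⟩
    rcases nbr_mid hnd he hnbr with rfl | rfl
    · exact h1 (by unfold VN; omega)
    · exact h2 (by unfold VN; omega)
  have h3 : ({h + 1, h - 1} : Finset ℕ).card = 2 := Finset.card_pair (by omega)
  have h4 := Finset.card_le_card hsub
  have h5 := mis_le_two N w h
  unfold mis at h5 ⊢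
  omega

/-- the letter before a piece -/
theorem before {N n : ℕ} {w : List ℕ} {ε : ℕ → ℕ} {P : List (ℕ × ℕ)} {AP AQ : List (List ℕ)} {h : ℕ}
    {A' : List ℕ} (hP : List.Forall₂ (SideOK N n ε) P AP) (hPn : P ≠ [])
    (hw : w = (AP ++ (h :: A') :: AQ).flatten) (hb : (AP ++ (h :: A') :: AQ).IsChain Brk) :
    ∃ U x, w = U ++ x :: h :: (A' ++ AQ.flatten) ∧ ¬ VN x h := by
  have hAP : AP ≠ [] := by
    rintro rfl
    exact hPn (List.forall₂_nil_right_iff.1 hP)
  obtain ⟨L, B, rfl⟩ : ∃ L B, AP = L ++ [B] :=
    ⟨AP.dropLast, AP.getLast hAP, (List.dropLast_append_getLast hAP).symm⟩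
  have hB : B ≠ [] := nonempty_of_side hP B (by simp)
  obtain ⟨B', x, rfl⟩ : ∃ B' x, B = B' ++ [x] :=
    ⟨B.dropLast, B.getLast hB, (List.dropLast_append_getLast hB).symm⟩
  refine ⟨L.flatten ++ B', x, ?_, ?_⟩
  · rw [hw]
    simp
  · exact (List.isChain_append.1 hb).2.2 (B' ++ [x]) (by simp) (h :: A') (by simp) x (by simp) h
      (by simp)

/-- the letter after a piece -/
theorem after {N n : ℕ} {w : List ℕ} {ε : ℕ → ℕ} {Q : List (ℕ × ℕ)} {AP AQ : List (List ℕ)} {h : ℕ}
    {A' : List ℕ} (hQ : List.Forall₂ (SideOK N n ε) Q AQ) (hQn : Q ≠ [])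
    (hw : w = (AP ++ (A' ++ [h]) :: AQ).flatten) (hb : (AP ++ (A' ++ [h]) :: AQ).IsChain Brk) :
    ∃ V c, w = (AP.flatten ++ A') ++ h :: c :: V ∧ ¬ VN h c := by
  have hAQ : AQ ≠ [] := by
    rintro rfl
    exact hQn (List.forall₂_nil_right_iff.1 hQ)
  obtain ⟨C, R, rfl⟩ := List.exists_cons_of_ne_nil hAQ
  have hC : C ≠ [] := nonempty_of_side hQ C (by simp)
  obtain ⟨c, C', rfl⟩ := List.exists_cons_of_ne_nil hC
  refine ⟨C' ++ R.flatten, c, ?_, ?_⟩
  · rw [hw]
    simp
  · have h1 := (List.isChain_append.1 hb).2.1
    have h2 := (List.isChain_cons_cons.1 h1).1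
    exact h2 h (by simp) c (by simp)

end TYP

open QX TYP in
/-- **TYP**. -/
theorem specTYP (hEDG : SpecEDG) : SpecTYP := by
  intro N w ε As s a right l hw hs hq
  obtain ⟨arcs, items⟩ := s
  unfold qType at hq
  simp only at hq
  cases hdrop : arcs.drop a with
  | nil =>
    rw [hdrop] at hq
    simp at hq
  | cons a₀ rest =>
    rw [hdrop] at hq
    obtain ⟨l₀, r₀⟩ := a₀
    simp only at hq
    set P := arcs.take a with hP
    have harcs : arcs = P ++ (l₀, r₀) :: rest := by
      rw [hP, ← hdrop, List.take_append_drop]
    rw [harcs] at hs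
    have hsides := hs.sides
    simp only at hsides
    obtain ⟨AP, AR, hAs, hPf, hRf⟩ := split2 _ _ _ hsides
    cases AR with
    | nil => cases hRf
    | cons A AQ =>
    obtain ⟨hA, hQf⟩ := List.forall₂_cons.1 hRf
    have hA0 : A ≠ [] := hA.1
    have hnd : w.Nodup := hw.2.nodup_iff.2 List.nodup_range
    have hmem : ∀ z, z ∈ w ↔ z < N + 1 := fun z => by rw [hw.2.mem_iff, List.mem_range]
    have hflat : w = (AP ++ A :: AQ).flatten := by rw [← hAs]; exact hs.flat.symm
    have hbrk : (AP ++ A :: AQ).IsChain Brk := by rw [← hAs]; exact hs.brk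
    have hwA : w = AP.flatten ++ (A ++ AQ.flatten) := by rw [hflat]; simp
    have hndA : (AP.flatten ++ (A ++ AQ.flatten)).Nodup := by rw [← hwA]; exact hnd
    have h33 : 3 ≤ items.length := hs.three
    -- an item with its letter in `A` is seen at the arc of `A`
    have hocc : ∀ i, 2 ≤ i → i < items.length → ε i ∈ A → l₀ = i ∨ r₀ = i := by
      intro i hi hin hiA
      have h1 := hs.occ i hi hin
      simp only at h1
      rw [inA_split] at h1
      rcases h1 with h1 | h1 | h1
      · exfalso
        exact List.disjoint_of_nodup_append hndA (mem_of_inA hPf hi h1) (List.mem_append_left _ hiA)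
      · exact h1
      · exfalso
        exact List.disjoint_of_nodup_append (List.nodup_append'.1 hndA).2.1 hiA
          (mem_of_inA hQf hi h1)
    have hfst := hs.fst
    have hlst := hs.lst
    simp only at hfst hlst
    have hPn : l₀ ≠ 0 → P ≠ [] := by
      intro h1 h2
      rw [h2] at hfst
      exact h1 (hfst (l₀, r₀) (by simp))
    have hQn : r₀ ≠ 0 → rest ≠ [] := by
      intro h1 h2
      rw [h2] at hlst
      exact h1 (hlst (l₀, r₀) (by simp))
    -- a piece with one letter
    have htwo : ∀ h, A = [h] → P ≠ [] → rest ≠ [] → mis N w h = 2 := by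
      intro h hAh h1 h2
      subst hAh
      obtain ⟨U, x, hU, hx⟩ := before (A' := []) hPf h1 hflat hbrk
      obtain ⟨V, c, hV, hc⟩ := after (A' := []) hQf h2 hflat hbrk
      have e1 : (U ++ [x]) ++ h :: AQ.flatten = AP.flatten ++ h :: (c :: V) := by
        have e2 : w = (U ++ [x]) ++ h :: AQ.flatten := by rw [hU]; simp
        have e3 : w = AP.flatten ++ h :: (c :: V) := by rw [hV]; simp
        rw [← e2, e3]
      have hnd2 : ((U ++ [x]) ++ h :: AQ.flatten).Nodup := by
        have e2 : w = (U ++ [x]) ++ h :: AQ.flatten := by rw [hU]; simp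
        rw [← e2]
        exact hnd
      have h3 : h ∉ U ++ [x] := fun hm => List.disjoint_of_nodup_append hnd2 hm (by simp)
      have h4 : h ∉ AQ.flatten := (List.nodup_cons.1 (List.nodup_append'.1 hnd2).2.1).1
      obtain ⟨-, -, h5⟩ := (List.append_cons_inj_of_notMem h3 h4).1 e1
      refine mis_two hw (U := U) (x := x) (c := c) (V := V) ?_ hx hc
      rw [hU, h5]
      simp
    cases right with
    | true =>
      rw [cond_true] at hq
      cases hr : Nat.beq r₀ 1 with
      | false =>
        rw [hr] at hq
        simp at hq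
      | true =>
      rw [hr] at hq
      rw [Nat.beq_eq] at hr
      subst hr
      simp only [cond_true, Option.some.injEq] at hq
      have hrest : rest ≠ [] := hQn (by norm_num)
      obtain ⟨A', h, rfl⟩ : ∃ A' h, A = A' ++ [h] :=
        ⟨A.dropLast, A.getLast hA0, (List.dropLast_append_getLast hA0).symm⟩
      obtain ⟨V, c, hV, hc⟩ := after hQf hrest hflat hbrk
      have hmis : 1 ≤ mis N w h :=
        (hEDG N w hw h c ⟨AP.flatten ++ A', V, by rw [hV]; simp⟩ hc).1
      have hhN : h ≤ N := by
        have := (hmem h).1 (by rw [hV]; simp)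
        omega
      by_cases hitem : ∀ i, 2 ≤ i → i < items.length → ε i ≠ h
      · have hsem := new (a' := (l₀, items.length)) hs hAs hPf hQf
          (by
            obtain ⟨g1, g2, g3, g4, g5, g6⟩ := side_up (h := h) hA
            refine ⟨g1, g2, fun g => ?_, g4, fun _ => ?_, fun g7 g8 => ?_⟩
            · simp only at g
              omega
            · simp only
              rw [Function.update_self]
              exact ⟨by omega, by simp⟩
            · simp only at g7 g8
              have := (hA.2.2.2.1 g8).1
              simp only at this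
              omega)
          (fun g => (hfst (l₀, 1) (by rw [g]; simp))) (fun g => absurd g hrest)
          (fun i hi g => by
            simp only at g ⊢
            omega)
          (Or.inr rfl) hmis rfl hhN hitem
        have h2 := mis_le_two N w h
        rcases (by omega : mis N w h = 1 ∨ mis N w h = 2) with h3 | h3
        · rw [h3] at hsem
          exact ⟨_, by rw [← hq]; simp, _, _, hsem⟩
        · rw [h3] at hsem
          exact ⟨_, by rw [← hq]; simp, _, _, hsem⟩
      · push Not at hitem
        obtain ⟨i, hi, hin, hih⟩ := hitem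
        have hli : l₀ = i := by
          rcases hocc i hi hin (by rw [hih]; simp) with g | g
          · exact g
          · omega
        subst hli
        have hhead := (hA.2.2.2.1 hi).2
        simp only at hhead
        rw [hih] at hhead
        have hA' : A' = [] := by
          cases A' with
          | nil => rfl
          | cons b B =>
            exfalso
            simp only [List.cons_append, List.head?_cons, Option.some.injEq] at hhead
            subst hhead
            have g := (List.nodup_append'.1 (List.nodup_append'.1 hndA).2.1).1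
            rw [List.cons_append] at g
            exact (List.nodup_cons.1 g).1 (by simp)
        subst hA'
        have hP' : P ≠ [] := hPn (by omega)
        have h2 := htwo h rfl hP' hrest
        obtain ⟨g1, g2, -⟩ := hs.item l₀ hi hin
        simp only at g1 g2
        rw [hih, h2] at g2
        have hcond : (Nat.ble 2 l₀ && Nat.beq (entry items l₀).1 2) = true := by
          rw [Bool.and_eq_true, Nat.ble_eq, Nat.beq_eq]
          exact ⟨hi, g2.symm⟩
        rw [hcond, cond_true] at hq
        have hsem := same (a' := (l₀, l₀)) hs hAs hPf hQf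
          ⟨by simp, fun g => by simp only at g; omega, fun g => by simp only at g; omega,
            fun _ => ⟨hin, by simp [hih]⟩, fun _ => ⟨hin, by simp [hih]⟩, fun _ _ => by simp [hih]⟩
          (fun g => absurd g hP') (fun g => absurd g hrest)
          (fun i hi g => by
            simp only at g ⊢
            omega)
        exact ⟨_, by rw [← hq]; simp, _, _, hsem⟩
    | false =>
      rw [cond_false] at hq
      cases hl : Nat.beq l₀ 1 with
      | false =>
        rw [hl] at hq
        simp at hq
      | true =>
      rw [hl] at hq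
      rw [Nat.beq_eq] at hl
      subst hl
      simp only [cond_true, Option.some.injEq] at hq
      have hP' : P ≠ [] := hPn (by norm_num)
      obtain ⟨h, A', rfl⟩ := List.exists_cons_of_ne_nil hA0
      obtain ⟨U, x, hU, hx⟩ := before hPf hP' hflat hbrk
      have hmis : 1 ≤ mis N w h :=
        (hEDG N w hw x h ⟨U, A' ++ AQ.flatten, by rw [hU]; simp⟩ hx).2
      have hhN : h ≤ N := by
        have := (hmem h).1 (by rw [hU]; simp)
        omega
      by_cases hitem : ∀ i, 2 ≤ i → i < items.length → ε i ≠ h
      · have hsem := new (a' := (items.length, r₀)) hs hAs hPf hQf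
          (by
            obtain ⟨g1, g2, g3, g4, g5, g6⟩ := side_up (h := h) hA
            refine ⟨g1, fun g => ?_, g3, fun _ => ?_, g5, fun g7 g8 => ?_⟩
            · simp only at g
              omega
            · simp only
              rw [Function.update_self]
              exact ⟨by omega, by simp⟩
            · simp only at g7 g8
              have := (hA.2.2.2.2.1 (by simp only; omega)).1
              simp only at this
              omega)
          (fun g => absurd g hP') (fun g => (hlst (1, r₀) (by rw [g]; simp)))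
          (fun i hi g => by
            simp only at g ⊢
            omega)
          (Or.inl rfl) hmis rfl hhN hitem
        have h2 := mis_le_two N w h
        rcases (by omega : mis N w h = 1 ∨ mis N w h = 2) with h3 | h3
        · rw [h3] at hsem
          exact ⟨_, by rw [← hq]; simp, _, _, hsem⟩
        · rw [h3] at hsem
          exact ⟨_, by rw [← hq]; simp, _, _, hsem⟩
      · push Not at hitem
        obtain ⟨i, hi, hin, hih⟩ := hitem
        have hri : r₀ = i := by
          rcases hocc i hi hin (by rw [hih]; simp) with g | g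
          · omega
          · exact g
        subst hri
        have hlast := (hA.2.2.2.2.1 hi).2
        simp only at hlast
        rw [hih] at hlast
        have hA' : A' = [] := by
          cases A' with
          | nil => rfl
          | cons b B =>
            exfalso
            rw [List.getLast?_cons_cons] at hlast
            have g := (List.nodup_append'.1 (List.nodup_append'.1 hndA).2.1).1
            exact (List.nodup_cons.1 g).1 (List.mem_of_mem_getLast? hlast)
        subst hA'
        have hrest : rest ≠ [] := hQn (by omega)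
        have h2 := htwo h rfl hP' hrest
        obtain ⟨g1, g2, -⟩ := hs.item r₀ hi hin
        simp only at g1 g2
        rw [hih, h2] at g2
        have hcond : (Nat.ble 2 r₀ && Nat.beq (entry items r₀).1 2) = true := by
          rw [Bool.and_eq_true, Nat.ble_eq, Nat.beq_eq]
          exact ⟨hi, g2.symm⟩
        rw [hcond, cond_true] at hq
        have hsem := same (a' := (r₀, r₀)) hs hAs hPf hQf
          ⟨by simp, fun g => by simp only at g; omega, fun g => by simp only at g; omega,
            fun _ => ⟨hin, by simp [hih]⟩, fun _ => ⟨hin, by simp [hih]⟩, fun _ _ => by simp [hih]⟩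
          (fun g => absurd g hP') (fun g => absurd g hrest)
          (fun i hi g => by
            simp only at g ⊢
            omega)
        exact ⟨_, by rw [← hq]; simp, _, _, hsem⟩

end Pool.Agent.Lib.MP29a61e
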