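import Pool.Agent.Lib.MP_29a61e_co.RUN
import Pool.Agent.Lib.MP_29a61e_co.ROOT
import Pool.Agent.Lib.MP_29a61e_co.LEAF
import Pool.Agent.Lib.MP_29a61e_co.LOC
import Pool.Agent.Lib.MP_29a61e_co.INS
import Pool.Agent.Lib.MP_29a61e_co.OUT
import Pool.Agent.Lib.MP_29a61e_co.PAR
import Pool.Agent.Lib.MP_29a61e_co.TYP
import Pool.Agent.Lib.MP_29a61e_co.FUL
import Pool.Agent.Lib.MP_29a61e_co.QX
import Pool.Agent.Lib.MP_29a61e_co.BAD
import Pool.Agent.Lib.MP_29a61e_co.SLT
import Pool.Agent.Lib.MP_29a61e_co.LNK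
import Pool.Agent.Lib.MP_29a61e_co.MMX
import Pool.Agent.Lib.MP_29a61e_co.EDG
import Pool.Agent.Lib.MP_29a61e_co.C.CertW

/-!
# MP_29a61e_co: `M n ≤ (5 n + 6) / 8`
-/

set_option autoImplicit false

namespace Pool.Agent.Lib.MP29a61e

/-- the stack machine is sound -/
theorem run_sound : SpecRUN :=
  specRUN specLEAF specBAD
    (specPAR specSLT (specOUT specSLT specLNK (specINS specLOC)))
    (specTYP specEDG) specFUL
    (specQX specSLT (specINS specLOC) (specOUT specSLT specLNK (specINS specLOC)) specMMX)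

/-- in each unsorted word some moves lower the potential by `8` per move -/
theorem step358 (N : ℕ) (w : List ℕ) (hw : IsW N w) (hs : w ≠ List.range (N + 1)) :
    ∃ m w', 1 ≤ m ∧ WSteps m w w' ∧ Phi 3 5 N w' + 8 * m ≤ Phi 3 5 N w := by
  obtain ⟨ε, As, h⟩ := specROOT N w hw hs
  exact C.wroot run_sound N w ε As hw h

/-- every permutation can be sorted with at most `(5 n + 6) / 8` moves -/
theorem sort358 (n : ℕ) (π : Equiv.Perm (Fin n)) :
    ∃ k, 8 * k ≤ 5 * n + 6 ∧ Steps k (List.ofFn π) (List.finRange n) := by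
  obtain ⟨k, hk, h⟩ := final (p := 3) (q := 5) (C := 8) (by norm_num) (by norm_num) step358 n π
  exact ⟨k, by omega, h⟩

theorem M358 (n : ℕ) : 8 * M n ≤ 5 * n + 6 := by
  have := final_M (p := 3) (q := 5) (C := 8) (by norm_num) (by norm_num) step358 n
  omega

end Pool.Agent.Lib.MP29a61e
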