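import Pool.Agent.Lib.MP_29a61e_co.Sem

/-!
# MP_29a61e_co, module RUN: soundness of the stack machine
-/

set_option autoImplicit false

namespace Pool.Agent.Lib.MP29a61e

namespace RUN

/-- a query with a correct answer list -/
theorem wins_of_query {p q c : ℕ} {s : St} {l : List St}
    (h : ∀ (N : ℕ) (w : List ℕ) (ε : ℕ → ℕ) (As : List (List ℕ)), IsW N w → Sem N w s ε As →
      ∃ s' ∈ l, ∃ ε' As', Sem N w s' ε' As') (hl : ∀ s' ∈ l, Wins p q c s') : Wins p q c s := by
  intro N w ε As hw hs
  obtain ⟨s', hs', ε', As', h'⟩ := h N w ε As hw hs
  exact hl s' hs' N w ε' As' hw h'

theorem eq_of_eqS {s t : St} (h : eqS s t = true) : s = t := by
  unfold eqS at h
  rw [Bool.and_eq_true] at h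
  obtain ⟨h1, h2⟩ := h
  have e1 := eq_of_beq h1
  have e2 := eq_of_beq h2
  cases s
  cases t
  simp only [St.mk.injEq]
  exact ⟨e1, e2⟩

end RUN

open RUN in
theorem specRUN (hLEAF : SpecLEAF) (hBAD : SpecBAD) (hPAR : SpecPAR) (hTYP : SpecTYP)
    (hFUL : SpecFUL) (hQX : SpecQX) : SpecRUN := by
  intro p q c hpq refs hrefs cert
  induction cert with
  | nil =>
    intro stack h s hs
    cases stack with
    | nil => exact absurd hs List.not_mem_nil
    | cons t ts => simp [run] at h
  | cons n cert ih =>
    intro stack h
    cases stack with
    | nil => simp [run] at h
    | cons s ss =>
      rw [run] at h
      cases h0 : Nat.beq (n % 8) 0 with
      | true =>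
        rw [h0, cond_true, Bool.and_eq_true] at h
        intro t ht
        rcases List.mem_cons.1 ht with rfl | ht
        · exact hLEAF p q c _ _ hpq h.1
        · exact ih ss h.2 t ht
      | false =>
        rw [h0, cond_false] at h
        cases h1 : Nat.beq (n % 8) 1 with
        | true =>
          rw [h1, cond_true, Bool.and_eq_true] at h
          intro t ht
          rcases List.mem_cons.1 ht with rfl | ht
          · intro N w ε As hw hs
            exfalso
            cases ha : t.arcs with
            | nil =>
              have h2 := h.1
              rw [ha] at h2
              exact Bool.noConfusion h2
            | cons a rest =>
              have h2 := h.1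
              rw [ha] at h2
              have h3 := hBAD N w ε As t a rest hw ha hs
              have h4 : badS t.items a.2 rest = true := h2
              rw [h3] at h4
              exact Bool.noConfusion h4
          · exact ih ss h.2 t ht
        | false =>
          rw [h1, cond_false] at h
          cases h2 : Nat.beq (n % 8) 6 with
          | true =>
            rw [h2, cond_true, Bool.and_eq_true] at h
            intro t ht
            rcases List.mem_cons.1 ht with rfl | ht
            · cases hr : refs[n / 8]? with
              | none =>
                have h3 := h.1
                rw [hr] at h3
                exact Bool.noConfusion h3
              | some r =>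
                have h3 := h.1
                rw [hr] at h3
                have h4 : t = r := eq_of_eqS h3
                rw [h4]
                exact hrefs r (List.mem_of_getElem? hr)
            · exact ih ss h.2 t ht
          | false =>
            rw [h2, cond_false] at h
            cases hk : kids s n with
            | none =>
              rw [hk] at h
              exact Bool.noConfusion h
            | some l =>
              rw [hk] at h
              have h' : run p q c refs cert (l ++ ss) = true := h
              have hall := ih (l ++ ss) h'
              intro t ht
              rcases List.mem_cons.1 ht with rfl | ht
              · refine wins_of_query (l := l) ?_ fun s' hs' => hall s' (List.mem_append_left _ hs')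
                intro N w ε As hw hs
                unfold kids at hk
                simp only at hk
                cases k2 : Nat.beq (n % 8) 2 with
                | true =>
                  rw [k2, cond_true] at hk
                  exact hPAR N w ε As t _ _ l hw hs hk
                | false =>
                  rw [k2, cond_false] at hk
                  cases k3 : Nat.beq (n % 8) 3 with
                  | true =>
                    rw [k3, cond_true] at hk
                    exact hTYP N w ε As t _ _ l hw hs hk
                  | false =>
                    rw [k3, cond_false] at hk
                    cases k4 : Nat.beq (n % 8) 4 with
                    | true =>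
                      rw [k4, cond_true] at hk
                      exact hFUL N w ε As t _ _ l hw hs hk
                    | false =>
                      rw [k4, cond_false] at hk
                      cases k5 : Nat.beq (n % 8) 5 with
                      | true =>
                        rw [k5, cond_true] at hk
                        exact hQX N w ε As t _ _ _ l hw hs hk
                      | false =>
                        rw [k5, cond_false] at hk
                        exact absurd hk.symm (Option.some_ne_none l)
              · exact hall t (List.mem_append_right _ ht)

end Pool.Agent.Lib.MP29a61e
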