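import Pool.Agent.Lib.MP_29a61e_co.Check

/-!
# MP_29a61e_co: the meaning of the states, and the Specs

THEOREM. `M n ≤ (q n + 2 p) / c` if there is a certificate for `p, q, c` (`(3, 5, 8)`: `M n ≤ (5 n + 6) / 8`).
PROOF. Every unsorted word `w` satisfies the first state (ROOT). If `w` satisfies a state `s` then it
satisfies one of the answers of each query of `s` (PAR, TYP, FUL, QX); a state as in BAD is impossible;
in a leaf there are moves that lower the potential (LEAF). So `run … = true` shows that all states on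
the stack are winning (RUN). `Base.lean` (helper73) derives the theorem.

Module `XXX` = file `Pool/Agent/Lib/MP_29a61e_co/XXX.lean`, theorem `specXXX (hYYY : SpecYYY) … : SpecXXX`
in namespace `Pool.Agent.Lib.MP29a61e` (own lemmas in the namespace `Pool.Agent.Lib.MP29a61e.XXX`).
`import Pool.Agent.Lib.MP_29a61e_co.Sem`.
-/

set_option autoImplicit false

namespace Pool.Agent.Lib.MP29a61e

/-- value neighbours -/
def VN (x y : ℕ) : Prop := y = x + 1 ∨ x = y + 1

/-- the junction between the pieces `A`, `B` is a breakpoint -/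
def Brk (A B : List ℕ) : Prop := ∀ x ∈ A.getLast?, ∀ y ∈ B.head?, ¬ VN x y

/-- the record `a` describes the piece `A` (`n` = length of the table of items, `ε` = letters of the
items) -/
def SideOK (N n : ℕ) (ε : ℕ → ℕ) (a : ℕ × ℕ) (A : List ℕ) : Prop :=
  A ≠ [] ∧ (a.1 = 0 → A.head? = some 0) ∧ (a.2 = 0 → A.getLast? = some N) ∧
  (2 ≤ a.1 → a.1 < n ∧ A.head? = some (ε a.1)) ∧ (2 ≤ a.2 → a.2 < n ∧ A.getLast? = some (ε a.2)) ∧
  (a.1 = a.2 → 2 ≤ a.1 → A = [ε a.1])

/-- the entry of the item `i` is correct -/
def ItemOK (N : ℕ) (w : List ℕ) (items : List (ℕ × ℕ × ℕ)) (ε : ℕ → ℕ) (i : ℕ) : Prop :=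
  1 ≤ (entry items i).1 ∧ mis N w (ε i) = (entry items i).1 ∧ ε i ≤ N ∧
  ((entry items i).1 = 1 → (entry items i).2.2 = 0) ∧
  ((entry items i).2.1 ≠ 0 → 2 ≤ (entry items i).2.1 ∧ (entry items i).2.1 < items.length ∧
    ε (entry items i).2.1 ∈ misSet N w (ε i)) ∧
  ((entry items i).2.2 ≠ 0 → 2 ≤ (entry items i).2.2 ∧ (entry items i).2.2 < items.length ∧
    ε (entry items i).2.2 ∈ misSet N w (ε i)) ∧
  ((entry items i).2.1 ≠ 0 → (entry items i).2.1 ≠ (entry items i).2.2)

/-- the word `w` satisfies the state `s`, with the letters `ε` of the items and the pieces `As` -/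
structure Sem (N : ℕ) (w : List ℕ) (s : St) (ε : ℕ → ℕ) (As : List (List ℕ)) : Prop where
  three : 3 ≤ s.items.length
  flat : As.flatten = w
  sides : List.Forall₂ (SideOK N s.items.length ε) s.arcs As
  brk : As.IsChain Brk
  fst : ∀ a ∈ s.arcs.head?, a.1 = 0
  lst : ∀ a ∈ s.arcs.getLast?, a.2 = 0
  first : ∀ A ∈ As.head?, ∀ x ∈ A, 1 ≤ mis N w x → x = ε 2
  inj : ∀ i j, 2 ≤ i → i < s.items.length → 2 ≤ j → j < s.items.length → ε i = ε j → i = j
  item : ∀ i, 2 ≤ i → i < s.items.length → ItemOK N w s.items ε i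
  sym : ∀ i j, 2 ≤ i → i < s.items.length → mate s.items i j = true → mate s.items j i = true
  occ : ∀ i, 2 ≤ i → i < s.items.length → inA s.arcs i = true
  low : ∀ i j, mate s.items i j = true → 2 ≤ i

/-- the state is winning: in each word that satisfies it, some moves lower the potential enough -/
def Wins (p q c : ℕ) (s : St) : Prop := ∀ (N : ℕ) (w : List ℕ) (ε : ℕ → ℕ) (As : List (List ℕ)),
  IsW N w → Sem N w s ε As →
  ∃ m w', 1 ≤ m ∧ WSteps m w w' ∧ Phi p q N w' + c * m ≤ Phi p q N w

/-! ## Elementary facts -/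

/-- EDG. Two consecutive letters that are not value neighbours have missing neighbours.
PROOF. `w` has no repetition, so `x` has at most one further neighbour `z` in `w` (to its left). If
`x = N` then `x` is the last letter of `w`, but `y` follows. If `x = 0` then `x` is the first letter, its
only neighbour is `y`, and `1 ≤ N` is missing (`N ≥ 1` as `w` has at least two letters). Otherwise
`x - 1, x + 1 ≤ N` are two value neighbours, both different from `y`, so at most one of them is `z`. The
same for `y`. -/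
def SpecEDG : Prop := ∀ (N : ℕ) (w : List ℕ), IsW N w → ∀ x y : ℕ, [x, y] <:+: w → ¬ VN x y →
  1 ≤ mis N w x ∧ 1 ≤ mis N w y

/-- SLT. Free slots.
PROOF. `mis ≤ 2`. (a) Let `(t, a, b)` be the entry of `i`. `t = 1`: `a = 0`, `b = 0`, no mates, and `misSet` is
not empty. `t = 2`: at most one mate, and `misSet` has two elements. (b) If there is no free slot: `t = 1`,
`a ≠ 0`: `misSet = {ε a}`; `t = 2`, `a, b ≠ 0`, `a ≠ b`: `ε a ≠ ε b` (`inj`), `misSet = {ε a, ε b}`. So `y = ε j` with a
mate `j` of `i`. -/
def SpecSLT : Prop := ∀ (N : ℕ) (w : List ℕ) (s : St) (ε : ℕ → ℕ) (As : List (List ℕ)), IsW N w →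
  Sem N w s ε As → ∀ i, 2 ≤ i → i < s.items.length →
  (slot s.items i = true → ∃ y ∈ misSet N w (ε i), ∀ j, mate s.items i j = true → ε j ≠ y) ∧
  (∀ y ∈ misSet N w (ε i), (∀ j, mate s.items i j = true → ε j ≠ y) → slot s.items i = true)

/-- LNK. Adding a missing pair of items.
PROOF. `entry (addM l i j)` is the entry of `l`, except at `i`, where `j` is put in the first free slot.
`arcs` and the length do not change. `j` is not a mate of `i` and `i` is not a mate of `j` (`sym`). -/
def SpecLNK : Prop := ∀ (N : ℕ) (w : List ℕ) (s : St) (ε : ℕ → ℕ) (As : List (List ℕ)), IsW N w →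
  Sem N w s ε As → ∀ i j, 2 ≤ i → i < s.items.length → 2 ≤ j → j < s.items.length → i ≠ j →
  ε j ∈ misSet N w (ε i) → mate s.items i j = false → slot s.items i = true → slot s.items j = true →
  Sem N w ⟨s.arcs, link s.items i j⟩ ε As

/-! ## Locating a letter -/

/-- LOC (helper73). A letter `y` with missing neighbours, not an item, in a list of pieces.
PROOF. `y` is in a piece `A = B ++ [y] ++ C` with record `(l, r)`; not `l = r ≥ 2` (then `A = [ε l]`). Let
`conv = true`. (1) `C = []`: `r ≥ 2` is impossible (`y = ε r`). `r = 1`: record `(l, n)`. `r = 0`: `y = N`,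
`mis y = 1` (`mis_last_le`); `B = []`: `l = 0` is impossible (`N = 0`), `l ≥ 2` as well, `l = 1`: record `(n, r)`, type 1;
`B = … b`: `b, y` are not value neighbours (otherwise `mis y = 0`): pieces `B, [y]`, records `(l, 1), (n, r)`,
type 1. (2) `C = c …`, not `VN y c`: pieces `B ++ [y], C`, records `(l, n), (1, r)`, type `mis y`. (3) `C = c …`,
`VN y c`: `mis y ≤ 1`, so `mis y = 1`; `y ≠ N` (last letter), `y ≠ 0` (otherwise `mis y = 0`). `B = []`: `l = 1`
(`l = 0` means `y = 0`), record `(n, r)`, type 1; `B = … b`: `b, y` are not value neighbours (otherwise both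
value neighbours of `y` are neighbours in `w`, `mis y = 0`; `b ≠ c`): pieces `B, y :: C`, records
`(l, 1), (n, r)`, type 1. `conv = false`: mirror image. -/
def SpecLOC : Prop := ∀ (N : ℕ) (w : List ℕ), IsW N w → ∀ (n : ℕ), 3 ≤ n → ∀ (ε : ℕ → ℕ) (conv : Bool)
  (as : List (ℕ × ℕ)) (As : List (List ℕ)) (U V : List ℕ), w = U ++ As.flatten ++ V →
  List.Forall₂ (SideOK N n ε) as As → As.IsChain Brk → ∀ y ∈ As.flatten, 1 ≤ mis N w y →
  (∀ i, 2 ≤ i → i < n → ε i ≠ y) →
  ∃ x ∈ locA conv n as, ∃ As' : List (List ℕ), As'.flatten = As.flatten ∧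
    List.Forall₂ (SideOK N (n + 1) (Function.update ε n y)) x.2 As' ∧ As'.IsChain Brk ∧
    x.1 = mis N w y ∧ inA x.2 n = true ∧ (∀ i, 2 ≤ i → inA as i = true → inA x.2 i = true) ∧
    (∀ a ∈ x.2.getLast?, ∀ b ∈ as.getLast?, b.2 = 0 → a.2 = 0)

/-- INS. Adding a new item.
PROOF. LOC for the middle part (`As = AP ++ AM ++ AQ`). The pieces before and after: `SideOK` for `n + 1` and
the new letters (`ε` changes only at `n`, sides are smaller than `n`). `IsChain`: the borders depend only on
the first and the last letter of `AM.flatten`. `first`, `fst`: if `P = []` then `M` begins with the first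
record, which has left side `0`, and the first record of `x.2` has the same left side: excluded by the
hypothesis `P ≠ []`. `item` for `n`: type `mis y ≥ 1`, no mates. -/
def SpecINS : Prop := ∀ (N : ℕ) (w : List ℕ) (ε : ℕ → ℕ) (As : List (List ℕ)) (P M Q : List (ℕ × ℕ))
  (items : List (ℕ × ℕ × ℕ)) (conv : Bool), IsW N w → P ≠ [] → Sem N w ⟨P ++ M ++ Q, items⟩ ε As →
  ∀ y ∈ ((As.drop P.length).take M.length).flatten, 1 ≤ mis N w y →
  (∀ i, 2 ≤ i → i < items.length → ε i ≠ y) →
  ∃ x ∈ locA conv items.length M, ∃ As' : List (List ℕ),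
    Sem N w ⟨P ++ x.2 ++ Q, items ++ [(x.1, 0, 0)]⟩ (Function.update ε items.length y) As' ∧
    (As'.take P.length).flatten = (As.take P.length).flatten ∧
    ((As'.drop P.length).take x.2.length).flatten = ((As.drop P.length).take M.length).flatten ∧
    ((As'.drop P.length).drop x.2.length).flatten = ((As.drop P.length).drop M.length).flatten

/-- OUT. The other end of a missing pair.
PROOF. `y ∈ misSet (ε i)` is not the letter of a mate of `i`, and it is not in the pieces of `mid`. If `y = ε j`
for an item `j`: `j ≠ i`, `j` is not a mate of `i`, `slot j` (SLT: `ε i ∈ misSet (ε j)` and `i` is not a mate of `j`,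
`sym`), `j` is not seen in `mid` (otherwise its letter is in the pieces of `mid`), and `slot i` (SLT): the
first list, LNK. Otherwise `y` is not in the first piece (`first`: `y = ε 2`, and `2` is an item), so it is in
the pieces of `pre` or `post`: INS with `M = pre` (`P = [a]`, `Q = mid ++ post`) or `M = post`
(`P = a :: pre ++ mid`, `Q = []`), then LNK for `i` and the new item (`slot` holds for it, no mates; `slot i` is
not changed). -/
def SpecOUT : Prop := ∀ (N : ℕ) (w : List ℕ) (ε : ℕ → ℕ) (As : List (List ℕ)) (conv : Bool) (i : ℕ)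
  (a : ℕ × ℕ) (pre mid post : List (ℕ × ℕ)) (items : List (ℕ × ℕ × ℕ)), IsW N w →
  Sem N w ⟨a :: pre ++ mid ++ post, items⟩ ε As → 2 ≤ i → i < items.length →
  ∀ y ∈ misSet N w (ε i), (∀ j, mate items i j = true → ε j ≠ y) →
  y ∉ ((As.drop (pre.length + 1)).take mid.length).flatten →
  ∃ s ∈ outer conv i a pre mid post items, ∃ ε' As', Sem N w s ε' As'

/-! ## The queries -/

/-- PAR. The partner query. PROOF. SLT, OUT with `mid = post = []`. -/
def SpecPAR : Prop := ∀ (N : ℕ) (w : List ℕ) (ε : ℕ → ℕ) (As : List (List ℕ)) (s : St) (i : ℕ)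
  (conv : Bool) (l : List St), IsW N w → Sem N w s ε As → qPartner s i conv = some l →
  ∃ s' ∈ l, ∃ ε' As', Sem N w s' ε' As'

/-- TYP. The type query.
PROOF. Left side (right side: mirror image). The piece `A` of the arc `a` has left side `l = 1`, so it is not
the first one (`fst`); let `h` be its first letter, `x` the last letter of the piece before it: EDG gives
`1 ≤ mis h`. If `h` is not the letter of an item: the new item `n` at this side, type `mis h ∈ {1, 2}`. If
`h = ε j`: `j` is at a side of an arc (`occ`), its letter is the first or last letter of that piece, so (no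
repetition in `w`) the piece is `A`, and `j` is not at the left side (`l = 1`), so `r = j` and the last letter of
`A` is `h`: `A = [h]`. Both junctions of `h` are breakpoints (`r ≠ 0`, so `A` is not the last piece), so
`mis h = 2` (`h ≠ 0, N`), type 2: the third answer. -/
def SpecTYP : Prop := ∀ (N : ℕ) (w : List ℕ) (ε : ℕ → ℕ) (As : List (List ℕ)) (s : St) (a : ℕ)
  (right : Bool) (l : List St), IsW N w → Sem N w s ε As → qType s a right = some l →
  ∃ s' ∈ l, ∃ ε' As', Sem N w s' ε' As'

/-- FUL. The query for the other side.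
PROOF. Left side (right side: mirror image). The piece `A` begins with `ε l`, `mis (ε l) = 2`. If `A = [ε l]`:
`r ≥ 2` is impossible (`ε r = ε l`, `inj`, `l ≠ r`), `r = 0` is impossible (`ε l = N`, `mis_last_le`), so `r = 1`: the
record `(l, l)`. Otherwise `A = ε l :: c :: C`, and `c` is not a value neighbour of `ε l` (otherwise
`mis ≤ 1`): pieces `[ε l]`, `c :: C`. -/
def SpecFUL : Prop := ∀ (N : ℕ) (w : List ℕ) (ε : ℕ → ℕ) (As : List (List ℕ)) (s : St) (a : ℕ)
  (right : Bool) (l : List St), IsW N w → Sem N w s ε As → qFull s a right = some l →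
  ∃ s' ∈ l, ∃ ε' As', Sem N w s' ε' As'

/-- MMX. Two missing pairs at the border of a block. `w = U ++ X ++ V`, `X, U, V` not empty, both borders are
breakpoints. `x₁` = the largest, `x₀` = the smallest letter of `X`; `0` is in `U` (first letter), `N` is in `V`.
`x₁ + 1 ≤ N` and `x₀ - 1` are not in `X`; they are not neighbours of `x₁`, `x₀` in `w` (the only neighbours
of letters of `X` outside `X` are across the borders). -/
def SpecMMX : Prop := ∀ (N : ℕ) (w U X V : List ℕ), IsW N w → w = U ++ X ++ V → U ≠ [] → X ≠ [] → V ≠ [] →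
  Brk U X → Brk X V → ∃ x₀ ∈ X, ∃ x₁ ∈ X, ∃ y₀, y₀ + 1 = x₀ ∧ y₀ ∉ X ∧ y₀ ∈ misSet N w x₀ ∧ x₁ + 1 ∉ X ∧
    x₁ + 1 ∈ misSet N w x₁

/-- QX. The query for a block.
PROOF. `As = A :: APre ++ AMid ++ APost`, `X = AMid.flatten`. MMX. One of the two pairs `(x₁, x₁ + 1)`, `(x₀, y₀)`
is not of the form `(ε i, ε j)` with a mate `j` of `i`: otherwise both `(i, j)` are in `cross` (`i` is not seen
outside, as its letter is in `X`; `j` is not seen inside), and they are different, but `cross` has at most
one element. Let `(x, y)` be this pair. If `x = ε i`: `slot i` (SLT), `i` is not seen outside: OUT. Otherwise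
INS for `x` in `mid`, and OUT for the new item (it has no mates; the letters of the pieces of `mid` are the
same). -/
def SpecQX : Prop := ∀ (N : ℕ) (w : List ℕ) (ε : ℕ → ℕ) (As : List (List ℕ)) (s : St) (lo n : ℕ)
  (conv : Bool) (l : List St), IsW N w → Sem N w s ε As → qX s lo n conv = some l →
  ∃ s' ∈ l, ∃ ε' As', Sem N w s' ε' As'

/-- BAD. PROOF. The two letters are consecutive in `w` (the last letter of a piece and the first letter of
the next one), and they are a missing pair (`ItemOK`), so they are not neighbours in `w`. -/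
def SpecBAD : Prop := ∀ (N : ℕ) (w : List ℕ) (ε : ℕ → ℕ) (As : List (List ℕ)) (s : St) (a : ℕ × ℕ)
  (rest : List (ℕ × ℕ)), IsW N w → s.arcs = a :: rest → Sem N w s ε As → badS s.items a.2 rest = false

/-- LEAF (helper73). -/
def SpecLEAF : Prop := ∀ (p q c : ℕ) (s : St) (ms : List ℕ), p ≤ q → leafOK p q c s ms = true →
  Wins p q c s

/-- ROOT. PROOF. `first_breakpoint`: `w = range (v + 1) ++ b :: R`; pieces `range (v + 1)` and `b :: R`,
`ε 2 = v`, `mis v = 1` (the missing neighbour is `v + 1`, `v - 1` is the left neighbour), the other letters of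
the first piece have no missing neighbour. The last letter of `b :: R` is `N`. -/
def SpecROOT : Prop := ∀ (N : ℕ) (w : List ℕ), IsW N w → w ≠ List.range (N + 1) →
  ∃ ε As, Sem N w root ε As

/-- RUN. PROOF. Induction on the list of codes (LEAF, BAD, PAR, TYP, FUL, QX). -/
def SpecRUN : Prop := ∀ (p q c : ℕ), p ≤ q → ∀ (refs : List St), (∀ r ∈ refs, Wins p q c r) →
  ∀ (cert : List ℕ) (stack : List St), run p q c refs cert stack = true → ∀ s ∈ stack, Wins p q c s

end Pool.Agent.Lib.MP29a61e
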